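import Pool.Agent.W_448j8_h67.JaQ
import Pool.Agent.W_448so_h63.FL

/-!
**Level 8**: no (C), no flip word, no join of level 9 (MP_448cb3_co).
-/

namespace Pool.Agent.GaussPoset.J8

set_option linter.unusedSectionVars false

open Polynomial Finset Dd Wd Cl

universe u

variable {P : Type u} [Fintype P] [PartialOrder P] [DecidableEq P] {r : ℕ}
variable {lo hi : Tops P → ℕ → ℕ} {e : Tops P → ℕ → ℕ → P}

/-- **There is no (C) element and no flip word at level 8.** -/
theorem level8 (K : Sm.Ctx P r 8 lo hi e) :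
    (∀ t, ¬ WordD 8 4 w8 (lo t) (hi t)) ∧
    (∀ t z, StairShape 8 (lo t) (hi t) → lo t 8 = 0 → z ⋖ e t 8 4 → z ⋖ e t 8 0 → False) := by
  choose w Y θ B hT hw hx using fun t : Tops P => exists_td K.gt (K.comp t) (K.shape t)
  have W : C8 P r lo hi e w Y θ B := ⟨K, hT⟩
  have key : ∀ t : Tops P, (∀ t, w t = 0) ∧
      (∀ z ∈ bdR (unnat (N8 Y)), 13 ≤ cst 4 (h8 Y θ) z ∨
      (h8 Y θ z = 2 ∧ cst 4 (h8 Y θ) z = 12)) := fun t => W.twelve ⟨t⟩
  constructor
  · intro t D
    have h1 := (key t).1 t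
    have h2 := hw t D
    omega
  · intro t z S h0 hz4 hz0
    obtain ⟨hzY, hcx⟩ := hx t S h0 z hz4 hz0
    obtain ⟨Nc, co, F, S', C, hb, hF⟩ := hcx
    have hgr := K.gt.H.gradedBelow
    have hlz := C.lev_z hgr
    have hFt := C.chart.le_t F C.F_mem
    have hzR : z ∈ unnat (N8 Y) := by
      rw [mem_unnat]
      intro s hs
      have h1 := W.sys.topOf_eq hs
      have h2 := W.sys.topOf_eq (W.sys.up s z hs F C.zF.1.le)
      have h3 := W.top_of hFt C.lev_F.le
      have h4 : s = t := h2.symm.trans h3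
      subst h4
      unfold N8 at hs
      rw [mem_union, mem_lowPart] at hs
      rcases hs with hs | hs
      · have := hs.2
        omega
      · exact hzY hs
    have hzb : z ∈ bdR (unnat (N8 Y)) := by
      classical
      unfold bdR
      rw [mem_filter]
      exact ⟨hzR, F, W.nat8 C.lev_F.le, C.zF⟩
    have h1 := W.h_le C.zF hFt C.lev_F.le
    have h2 := W.lad.one_le hzb
    have h2' : 1 ≤ h8 Y θ z := h2
    have hh1 : h8 Y θ z = 1 := by omega
    have hc := cx_cost hgr hh1 (⟨Nc, co, F, S', C, hb, hF⟩ : IsCx t _ (θ t) z)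
    rcases (key t).2 z hzb with h3 | h3
    · omega
    · omega

/-- the flip at the window 6 -/
lemma flip6 {t : Tops P} {lo hi : ℕ → ℕ} {e : ℕ → ℕ → P} (C : Cp.Comp 8 (t : P) lo hi e)
    (S : Wd.Shape 8 lo hi) (hw : ¬ WordD 8 4 w8 lo hi) : ¬ Win.Flip lo hi 6 := by
  rintro ⟨f1, f2⟩
  have s6 := C.lo_step 6 (by norm_num)
  have s7 := C.lo_step 7 (by norm_num)
  have s5 := C.lo_step 5 (by norm_num)
  have s4 := C.lo_step 4 (by norm_num)
  norm_num at s4 s5 s6 s7
  rcases S with h1 | ⟨h1, h2⟩ | ⟨h0, h2⟩ | ⟨h0, h1, h2⟩ | ⟨h0, h1⟩ | ⟨a, h0, h1, h2, h3, hN, h4⟩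
  · have := h1 6 (by norm_num)
    omega
  · -- rectangle
    rcases f2 with ⟨⟨-, g1, g2, -⟩, -⟩ | ⟨⟨-, g1, g2, -⟩, -⟩
    · norm_num at g1 g2
      have := shape_lo C h2.lo (l := 5) (by omega) 1 (by norm_num)
      norm_num at this
      omega
    · norm_num at g1 g2
      have e1 := C.hi_le (k := 4) (by norm_num)
      have := shape_hi C h2.hi (l := 5) (by omega) 1 (by norm_num)
      norm_num at this
      omega
  · -- stair
    rcases f2 with ⟨⟨-, g1, g2, -⟩, -⟩ | ⟨-, ⟨g1, g2, -⟩⟩
    · norm_num at g1 g2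
      have := shape_lo C h2.lo (l := 5) (by omega) 1 (by norm_num)
      norm_num at this
      omega
    · norm_num at g1 g2
      have := shape_lo C h2.lo (l := 7) (by omega) 1 (by norm_num)
      norm_num at this
      omega
  · omega
  · omega
  · have D : LateD 8 a lo hi := ⟨h0, h1, h2, h3, h4⟩
    rcases Nat.lt_or_ge a 5 with ha | ha
    · obtain rfl | rfl : a = 3 ∨ a = 4 := by omega
      · obtain ⟨W, -⟩ := wordD_three D (by norm_num)
        obtain ⟨r1, r2⟩ := W.rows C
        have e1 : losW 3 w6 6 = 2 ∧ hisW 3 w6 6 = 3 := by decide +kernel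
        rw [r1 6 (by norm_num), r2 6 (by norm_num), e1.1, e1.2] at f1
        omega
      · rcases h4 with ⟨g1, g2⟩ | g2
        · have hq := D.quad C g2 2 (by norm_num) (by norm_num)
          norm_num at hq
          omega
        · have hl : (word lo hi 4 (8 - 4)).length = 4 := by rw [word_length]
          rcases late8_words _ g2 hl with g3 | g3
          · exact hw ⟨h2, h3, by rw [g3]; rfl⟩
          · have W : WordD 8 4 w7 lo hi := ⟨h2, h3, g3⟩
            obtain ⟨r1, r2⟩ := W.rows C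
            have e1 : losW 4 w7 6 = 1 ∧ hisW 4 w7 6 = 2 := by decide +kernel
            rw [r1 6 (by norm_num), r2 6 (by norm_num), e1.1, e1.2] at f1
            omega
    · rcases Nat.lt_or_ge a 6 with ha6 | ha6
      · obtain rfl : a = 5 := by omega
        have t5 := C.hi_step 5 (by norm_num)
        norm_num at t5
        have t4 := h2 4 (by norm_num)
        -- the first letter
        rcases f2 with ⟨⟨-, g1, g2, -⟩, -⟩ | ⟨⟨-, g1, g2, -⟩, -⟩
        · norm_num at g1 g2
          omega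
        · norm_num at g1 g2
          omega
      · rcases Nat.lt_or_ge a 7 with ha7 | ha7
        · obtain rfl : a = 6 := by omega
          omega
        · have := h2 6 (by omega)
          omega

/-- **There is no join of level 9.** -/
theorem no_jn8 (K : Sm.Ctx P r 8 lo hi e) : ∀ z : P, lev z = 9 → ¬ Hul.Jn z := by
  intro z hl
  refine Sm.no_join8r K ?_ hl
  have hw := (level8 K).1
  have G : Win.GoodTo P r (6 + 2) := K.gt
  have hZ := Win.So.Z2_empty G (by norm_num) (fun t => ⟨lo t, hi t, e t, (K.comp t).toWin,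
    flip6 (K.comp t) (K.shape t) (hw t)⟩)
  intro z x x' hcg hlz s s' hs hs'
  have H := K.gt.H
  obtain ⟨l1, l2⟩ := hcg.lev_eq H
  obtain ⟨u1, u2⟩ := K.ends hcg hlz
  unfold Sm.XRR
  by_contra hcon
  rw [Bool.not_eq_false, Bool.and_eq_true, beq_iff_eq, beq_iff_eq] at hcon
  obtain ⟨y, hy⟩ := Finset.card_eq_one.mp u1
  obtain ⟨y', hy'⟩ := Finset.card_eq_one.mp u2
  have hne : x ≠ x' := by rintro rfl; exact hcg.ne rfl
  have hup : Win.uc z = {x, x'} := by
    ext v
    rw [Win.mem_uc, mem_insert, mem_singleton]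
    constructor
    · intro hv
      exact uc_pair H hcg.cov hcg.cov' hne hv
    · rintro (h | h)
      · rw [h]; exact hcg.cov
      · rw [h]; exact hcg.cov'
  have hcard : ∀ {x y : P} {s : ℕ × ℕ × ℕ}, lev x = 8 → Win.uc x = {y} → Sm.Dt 8 x s →
      s.2.2 = 1 → (Win.uc y).card = 2 := by
    intro x y s hx hxy hD hs1
    have h1 : x ⋖ y := by
      rw [← Win.mem_uc, hxy]
      exact mem_singleton_self y
    have h2 : Pend x y := ⟨h1, fun v hv => by
      rw [← Win.mem_uc, hxy, mem_singleton] at hv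
      exact hv⟩
    have h3 := (H.covBy_iff.mp h1).2
    have h4 : lev y = 7 := by omega
    rw [uc_card_nab H (by omega), h4, ← nab_pend h2 (by omega), hD.2.2, hs1]
  have hmem := Win.So.mem_Z2s_join G (by omega) hup hcg.ne hy hy'
    (hcard (by omega) hy hs hcon.1) (hcard (by omega) hy' hs' hcon.2)
  rw [hZ] at hmem
  exact absurd hmem (Finset.notMem_empty _)

end Pool.Agent.GaussPoset.J8
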