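import Pool.Agent.W_448dd_h67.DdE
import Pool.Agent.W_448cl_h67.ClQ

/-!
First poles of coded up-sets, general lowest coefficient; lists of up-sets; coded posets with
additional elements (MP_448cb3_co).
-/

namespace Pool.Agent.GaussPoset.J8

set_option linter.unusedSectionVars false

open Polynomial Finset Cl Dd

universe u

/-- the check: `(J, ℓ, M, n3)`, lowest coefficient `c` -/
def polChk (c N B K : ℕ) (Us : List ℕ) (i0 : ℕ) (PL : List (ℕ × ℕ × ℕ × ℕ)) : Bool :=
  ((fun h => PL.all fun x => chkL B i0 h (decide (x.2.2.1 % 2 = 0)) x.1 x.2.1 x.2.2.1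
    (x.2.2.2 + pc N x.1) c) (hist (ws N B Us) K (stp (ws N B Us) (ini Us)))) &&
  ((fun h => PL.all fun x => chkS B c h x.1 x.2.2.1)
    (hist (ws N 1 Us) K (stp (ws N 1 Us) (ini Us))))

variable {P : Type u} [Fintype P] [PartialOrder P] [DecidableEq P]
variable {n N : ℕ} {cv lv : ℕ → ℕ} {c : ℕ → P} {Us : List ℕ}

/-- the first pole of a coded up-set -/
theorem cod_pole (C : Cod n cv lv c) (hU : UsOK N cv Us) (hn : n ≤ N) {B i0 K n0 c0 : ℕ}
    {PL : List (ℕ × ℕ × ℕ × ℕ)} (h : polChk c0 N B K Us i0 PL = true) {x : ℕ × ℕ × ℕ × ℕ}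
    (hx : x ∈ PL) (hJ : x.1 ∈ Us) (hJn : x.1 < 2 ^ n) (hnum : numChk N K i0 n0 lv x = true) :
    (∀ n' < n0, (1 + X : ℤ[X]) ^ 2 ∣ Z {y : P // y ∈ toS n c x.1} i0 n') ∧
      ∃ s : ℤ[X], Z {y : P // y ∈ toS n c x.1} i0 n0 = (1 + X) * s ∧
        s.eval (-1) = sgn x.2.1 x.2.2.1 i0 * c0 := by
  obtain ⟨J, ℓ, M, n3⟩ := x
  simp only at hx hJ hJn ⊢
  unfold numChk at hnum
  simp only [Bool.and_eq_true] at hnum
  obtain ⟨⟨⟨⟨g1, g2⟩, g3⟩, g4⟩, g5⟩ := hnum
  have g1 := Nat.le_of_ble_eq_true g1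
  have g2 := Nat.blt_eq.mp g2
  have g3 := Nat.le_of_ble_eq_true g3
  have g5 := of_decide_eq_true g5
  rw [List.any_eq_true] at g4
  obtain ⟨a, ha, hab⟩ := g4
  rw [Bool.and_eq_true] at hab
  unfold polChk at h
  rw [Bool.and_eq_true] at h
  obtain ⟨h1, h2⟩ := h
  rw [hist_one hU] at h1 h2
  simp only [List.all_eq_true] at h1 h2
  have k1 := h1 _ hx
  have k2 := h2 _ hx
  simp only at k1 k2 g1 g2 g3 g5 hab
  have hup := C.up hU hn hJ
  have h5 : ∀ m, U {x : P // x ∈ toS n c J} m =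
      (uR N (X : ℕ[X]) Us J m).map (Nat.castRingHom ℤ) := fun m => by
    rw [U_eq_V hup, C.V_eq hU hn m J hJ hJn]
  have hlow := poly_low (n := N) (ℓ := ℓ) hJ g1 rfl k1 k2
  simp only [← h5] at hlow
  have han : a < n := by
    by_contra hcon
    rw [Nat.testBit_lt_two_pow (lt_of_lt_of_le hJn (Nat.pow_le_pow_right (by norm_num)
      (by omega)))] at hab
    exact absurd hab.1 (by simp)
  have hlv : ∀ x : {x : P // x ∈ toS n c J}, GaussPoset.lev x = GaussPoset.lev (x : P) :=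
    lev_subtype (p := fun x => x ∈ toS n c J) (fun x y hxy hx => hup x hx y hxy)
  have hxx : ∀ i < ℓ, ∃ x : {x : P // x ∈ toS n c J}, i ≤ GaussPoset.lev x := by
    intro i hi
    refine ⟨⟨c a, (C.mem_iff han).mpr hab.1⟩, ?_⟩
    rw [hlv, C.lev a han]
    have := Nat.le_of_ble_eq_true hab.2
    omega
  have hcd : Fintype.card {x : P // x ∈ toS n c J} = pc N J := by
    rw [Fintype.card_coe, C.card, ← pc_stable hn hJn]
  obtain ⟨V, hV⟩ := dvd_W_one (Q := {x : P // x ∈ toS n c J}) (i := i0) (hxx i0 g2)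
  have hM0 : M0 {x : P // x ∈ toS n c J} i0 =
      ∑ a ∈ (range N).filter (fun a => J.testBit a = true), min i0 (lv a) := by
    rw [filter_stable hn hJn, ← cod_sum_lev C (fun l => min i0 l)]
    unfold M0
    rw [← Finset.sum_coe_sort (toS n c J)]
    exact Finset.sum_congr rfl fun x _ => by rw [hlv]
  have hL := lead_V hxx (by rw [hcd]; exact g3) g2 hV hlow.1 hlow.2
    (N := M0 {x : P // x ∈ toS n c J} i0 + n0) (by rw [hM0, hcd]; exact g5)
  exact Z_of_lead hV hL

/-- lowest coefficient zero: order two up to `n0` -/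
theorem cod_low (C : Cod n cv lv c) (hU : UsOK N cv Us) (hn : n ≤ N) {B i0 K n0 : ℕ}
    {PL : List (ℕ × ℕ × ℕ × ℕ)} (h : polChk 0 N B K Us i0 PL = true) {x : ℕ × ℕ × ℕ × ℕ}
    (hx : x ∈ PL) (hJ : x.1 ∈ Us) (hJn : x.1 < 2 ^ n) (hnum : numChk N K i0 n0 lv x = true) :
    ∀ n' < n0 + 1, (1 + X : ℤ[X]) ^ 2 ∣ Z {y : P // y ∈ toS n c x.1} i0 n' := by
  obtain ⟨h1, s, h2, h3⟩ := cod_pole C hU hn h hx hJ hJn hnum
  intro n' hn'
  rcases Nat.lt_or_ge n' n0 with h4 | h4
  · exact h1 n' h4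
  · obtain rfl : n' = n0 := by omega
    rw [h2, pow_two]
    refine mul_dvd_mul_left _ ?_
    have h5 : s.IsRoot (-1) := by
      show s.eval (-1) = 0
      rw [h3]
      simp
    have h6 := Polynomial.dvd_iff_isRoot.mpr h5
    rwa [map_neg, map_one, sub_neg_eq_add, add_comm] at h6

/-! ### lists -/

/-- the up-sets of a coded poset, decreasing -/
def mkUs (cv : ℕ → ℕ) : ℕ → List ℕ
  | 0 => [0]
  | a + 1 => ((mkUs cv a).filter (fun J => Nat.beq (Nat.land (cv a) J) (cv a))).map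
      (fun J => J + 2 ^ a) ++ mkUs cv a

/-- number of levels of a coded set -/
def ellOf (lv : ℕ → ℕ) (J : ℕ) : ℕ → ℕ
  | 0 => 0
  | a + 1 => if J.testBit a then max (lv a + 1) (ellOf lv J a) else ellOf lv J a

/-- sum of the truncated levels -/
def m0Of (lv : ℕ → ℕ) (i0 J : ℕ) : ℕ → ℕ
  | 0 => 0
  | a + 1 => if J.testBit a then min i0 (lv a) + m0Of lv i0 J a else m0Of lv i0 J a

/-- the entry of the coded set `J` at the energy `n0` -/
def mkE (N i0 n0 : ℕ) (lv : ℕ → ℕ) (J : ℕ) : ℕ × ℕ × ℕ × ℕ :=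
  (J, ellOf lv J N, pc N J - ellOf lv J N,
    m0Of lv i0 J N + n0 + e1 (ellOf lv J N) (pc N J - ellOf lv J N) i0 -
      e2 (ellOf lv J N) i0 (pc N J))

/-- the entries of all coded sets above a mask -/
def mkL (N i0 n0 bm : ℕ) (lv : ℕ → ℕ) (Us : List ℕ) : List (ℕ × ℕ × ℕ × ℕ) :=
  (Us.filter (fun J => Nat.beq (Nat.land bm J) bm)).map (mkE N i0 n0 lv)

lemma mkL_mem {N i0 n0 bm : ℕ} {lv : ℕ → ℕ} {Us : List ℕ} {J : ℕ} (hJ : J ∈ Us)
    (h : Nat.land bm J = bm) : mkE N i0 n0 lv J ∈ mkL N i0 n0 bm lv Us := by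
  unfold mkL
  rw [List.mem_map]
  exact ⟨J, List.mem_filter.mpr ⟨hJ, by rw [h]; exact Nat.beq_refl _⟩, rfl⟩

/-! ### coded posets with additional elements -/

lemma Cod.congr {n : ℕ} {cv lv cv' lv' : ℕ → ℕ} {c c' : ℕ → P} (C : Cod n cv lv c)
    (h1 : ∀ a < n, cv' a = cv a) (h2 : ∀ a < n, lv' a = lv a) (h3 : ∀ a < n, c' a = c a) :
    Cod n cv' lv' c' where
  inj := fun a ha b hb h => C.inj a ha b hb (by rw [← h3 a ha, ← h3 b hb]; exact h)
  cov := by
    intro a ha y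
    rw [h1 a ha, h3 a ha, C.cov a ha y]
    constructor
    · rintro ⟨b, hb, h, h'⟩
      exact ⟨b, hb, h, by rw [h3 b hb]; exact h'⟩
    · rintro ⟨b, hb, h, h'⟩
      exact ⟨b, hb, h, by rw [← h3 b hb]; exact h'⟩
  lev := fun a ha => by rw [h2 a ha, h3 a ha]; exact C.lev a ha

/-- one additional element -/
lemma Cod.extend {n : ℕ} {cv lv : ℕ → ℕ} {c : ℕ → P} (C : Cod n cv lv c)
    (hcv : ∀ a < n, cv a < 2 ^ n) {y : P} {m l : ℕ}
    (hy : ∀ a < n, c a ≠ y) (hm : m < 2 ^ n)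
    (hcov : ∀ w, y ⋖ w ↔ ∃ b < n, m.testBit b = true ∧ c b = w) (hl : GaussPoset.lev y = l) :
    Cod (n + 1) (fun a => if a = n then m else cv a) (fun a => if a = n then l else lv a)
      (fun a => if a = n then y else c a) where
  inj := by
    intro a ha b hb h
    by_cases h1 : a = n
    · by_cases h2 : b = n
      · rw [h1, h2]
      · rw [if_pos h1, if_neg h2] at h
        exact absurd h.symm (hy b (by omega))
    · by_cases h2 : b = n
      · rw [if_neg h1, if_pos h2] at h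
        exact absurd h (hy a (by omega))
      · rw [if_neg h1, if_neg h2] at h
        exact C.inj a (by omega) b (by omega) h
  cov := by
    intro a ha w
    have key : ∀ m' : ℕ, m' < 2 ^ n → ((∃ b < n, m'.testBit b = true ∧ c b = w) ↔
        ∃ b < n + 1, m'.testBit b = true ∧ (if b = n then y else c b) = w) := by
      intro m' hm'
      constructor
      · rintro ⟨b, hb, h1, h2⟩
        exact ⟨b, by omega, h1, by rw [if_neg (by omega)]; exact h2⟩
      · rintro ⟨b, hb, h1, h2⟩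
        have hbn : b ≠ n := by
          rintro rfl
          rw [Nat.testBit_lt_two_pow hm'] at h1
          exact absurd h1 (by simp)
        rw [if_neg hbn] at h2
        exact ⟨b, by omega, h1, h2⟩
    by_cases h1 : a = n
    · simp only [if_pos h1]
      rw [hcov w]
      exact key m hm
    · simp only [if_neg h1]
      rw [C.cov a (by omega) w]
      exact key (cv a) (hcv a (by omega))
  lev := by
    intro a ha
    by_cases h1 : a = n
    · simp only [if_pos h1]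
      exact hl
    · simp only [if_neg h1]
      exact C.lev a (by omega)

end Pool.Agent.GaussPoset.J8
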