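import Pool.Agent.W_448j8_h67.JaL
import Pool.Agent.W_448s7s_h5.SmJ8

/-!
Level 8: ends of the joins of level 9 (MP_448cb3_co).
-/

namespace Pool.Agent.GaussPoset.J8

set_option linter.unusedSectionVars false

open Polynomial Finset Dd Wd Cl

universe u

variable {P : Type u} [Fintype P] [PartialOrder P] [DecidableEq P] {r : ℕ}

/-- at most two covers of each element -/
lemma nab_double (H : Gr P r) {z : P} {k : ℕ} (hk : k + 1 ≤ lev z) :
    nab k z ≤ 2 * nab (k + 1) z := by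
  classical
  have h1 : (lv P k).filter (fun y => z ≤ y) ⊆
      ((lv P (k + 1)).filter (fun y => z ≤ y)).biUnion (fun v => Win.uc v) := by
    intro y hy
    rw [mem_filter, mem_lv] at hy
    have hlt : z < y := lt_of_le_of_ne hy.2 (by rintro rfl; omega)
    obtain ⟨v, hv1, hv2⟩ := exists_le_covBy_of_lt hlt
    rw [mem_biUnion]
    refine ⟨v, ?_, Win.mem_uc.mpr hv2⟩
    rw [mem_filter, mem_lv]
    have := (H.covBy_iff.mp hv2).2
    exact ⟨by omega, hv1⟩
  unfold nab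
  refine (Finset.card_le_card h1).trans ((Finset.card_biUnion_le).trans ?_)
  refine (Finset.sum_le_card_nsmul _ _ 2 fun v _ => Win.uc_card_le H v).trans ?_
  rw [smul_eq_mul, Nat.mul_comm]

/-- the sums of an end, by the levels -/
lemma dt_sums {x : P} {s : ℕ × ℕ × ℕ} (h : Sm.Dt 8 x s) :
    (nab 0 x : ℤ) + nab 1 x + nab 2 x + nab 3 x + nab 4 x + nab 5 x + nab 6 x + nab 7 x =
      s.1 + 8 ∧
    8 * (nab 0 x : ℤ) + 7 * nab 1 x + 6 * nab 2 x + 5 * nab 3 x + 4 * nab 4 x + 3 * nab 5 x +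
      2 * nab 6 x + nab 7 x = s.2.1 + 36 ∧ nab 6 x = s.2.2 + 1 := by
  obtain ⟨h1, h2, h3⟩ := h
  unfold mX at h1
  unfold cX at h2
  simp only [Finset.sum_range_succ, Finset.sum_range_zero] at h1 h2
  push_cast at h1 h2
  refine ⟨by linarith, by linarith, h3⟩

/-- the end with the data `(1, 2, 1)` -/
lemma dt_one {x : P} (hl : lev x = 8) (h : Sm.Dt 8 x (1, 2, 1)) :
    nab 4 x = 1 ∧ nab 5 x = 1 ∧ nab 6 x = 2 ∧ nab 7 x = 1 := by
  obtain ⟨h1, h2, h3⟩ := dt_sums h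
  have q : ∀ k, k ≤ 8 → 1 ≤ nab k x := fun k hk => one_le_nab (by omega)
  have q0 := q 0 (by norm_num)
  have q1 := q 1 (by norm_num)
  have q2 := q 2 (by norm_num)
  have q3 := q 3 (by norm_num)
  have q4 := q 4 (by norm_num)
  have q5 := q 5 (by norm_num)
  have q7 := q 7 (by norm_num)
  simp only at h1 h2 h3
  omega

/-- the end with the data `(3, 9, 1)` -/
lemma dt_three {x : P} (hl : lev x = 8) (h : Sm.Dt 8 x (3, 9, 1)) (h7 : nab 7 x = 1) :
    2 ≤ nab 5 x ∧ nab 6 x = 2 := by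
  obtain ⟨h1, h2, h3⟩ := dt_sums h
  have q : ∀ k, k ≤ 8 → 1 ≤ nab k x := fun k hk => one_le_nab (by omega)
  have q0 := q 0 (by norm_num)
  have q1 := q 1 (by norm_num)
  have q2 := q 2 (by norm_num)
  have q3 := q 3 (by norm_num)
  have q4 := q 4 (by norm_num)
  have q5 := q 5 (by norm_num)
  simp only at h1 h2 h3
  omega

/-- the end with the data `(6, 24, 1)` -/
lemma dt_six (H : Gr P r) {x : P} (hl : lev x = 8) (h : Sm.Dt 8 x (6, 24, 1))
    (h7 : nab 7 x = 1) : 2 ≤ nab 5 x ∧ nab 6 x = 2 := by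
  obtain ⟨h1, h2, h3⟩ := dt_sums h
  have q : ∀ k, k ≤ 8 → 1 ≤ nab k x := fun k hk => one_le_nab (by omega)
  have q0 := q 0 (by norm_num)
  have q1 := q 1 (by norm_num)
  have q2 := q 2 (by norm_num)
  have q3 := q 3 (by norm_num)
  have q4 := q 4 (by norm_num)
  have q5 := q 5 (by norm_num)
  have d4 := nab_double H (z := x) (k := 4) (by omega)
  have d3 := nab_double H (z := x) (k := 3) (by omega)
  norm_num at d3 d4
  simp only at h1 h2 h3
  omega

/-- a side of a join of level 9 -/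
inductive Sd8 (x : P) : Prop
  | one (h4 : nab 4 x = 1) (h5 : nab 5 x = 1) (h6 : nab 6 x = 2) (h7 : nab 7 x = 1)
  | big (h5 : 2 ≤ nab 5 x) (h6 : nab 6 x = 2) (h7 : nab 7 x = 1)

/-- the sides of a join of level 9; one of them is big -/
theorem sides8 {lo hi : Tops P → ℕ → ℕ} {e : Tops P → ℕ → ℕ → P} (K : Sm.Ctx P r 8 lo hi e)
    {z x x' : P} (h : Sm.Cg z x x') (hl : lev z = 9) :
    (nab 6 x = 2 ∧ nab 6 x' = 2 ∧ nab 7 x = 1 ∧ nab 7 x' = 1) ∧
    ((2 ≤ nab 5 x ∧ 2 ≤ nab 5 x') ∨ (nab 4 x = 1 ∧ nab 5 x = 1 ∧ 2 ≤ nab 5 x') ∨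
      (nab 4 x' = 1 ∧ nab 5 x' = 1 ∧ 2 ≤ nab 5 x)) := by
  have H := K.gt.H
  obtain ⟨l1, l2⟩ := h.lev_eq H
  have hx : lev x = 8 := by omega
  have hx' : lev x' = 8 := by omega
  obtain ⟨u1, u2⟩ := K.ends h hl
  rw [uc_card_nab H (by omega), hx] at u1
  rw [uc_card_nab H (by omega), hx'] at u2
  have u1' : nab 7 x = 1 := u1
  have u2' : nab 7 x' = 1 := u2
  obtain ⟨s, s', h1, h2, h3⟩ := Sm.left8 K h hl
  unfold Sm.R8 at h1
  simp only [List.mem_cons, Prod.mk.injEq, List.not_mem_nil, or_false] at h1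
  rcases h1 with ⟨e1, e2⟩ | ⟨e1, e2⟩ | ⟨e1, e2⟩ | ⟨e1, e2⟩ | ⟨e1, e2⟩ | ⟨e1, e2⟩
  · rw [e1] at h2
    rw [e2] at h3
    have a := dt_one hx h2
    have b := dt_six H hx' h3 u2'
    exact ⟨⟨a.2.2.1, b.2, u1', u2'⟩, Or.inr (Or.inl ⟨a.1, a.2.1, b.1⟩)⟩
  · rw [e1] at h2
    rw [e2] at h3
    have a := dt_three hx h2 u1'
    have b := dt_three hx' h3 u2'
    exact ⟨⟨a.2, b.2, u1', u2'⟩, Or.inl ⟨a.1, b.1⟩⟩
  · rw [e1] at h2
    rw [e2] at h3
    have a := dt_three hx h2 u1'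
    have b := dt_six H hx' h3 u2'
    exact ⟨⟨a.2, b.2, u1', u2'⟩, Or.inl ⟨a.1, b.1⟩⟩
  · rw [e1] at h2
    rw [e2] at h3
    have a := dt_six H hx h2 u1'
    have b := dt_one hx' h3
    exact ⟨⟨a.2, b.2.2.1, u1', u2'⟩, Or.inr (Or.inr ⟨b.1, b.2.1, a.1⟩)⟩
  · rw [e1] at h2
    rw [e2] at h3
    have a := dt_six H hx h2 u1'
    have b := dt_three hx' h3 u2'
    exact ⟨⟨a.2, b.2, u1', u2'⟩, Or.inl ⟨a.1, b.1⟩⟩
  · rw [e1] at h2
    rw [e2] at h3
    have a := dt_six H hx h2 u1'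
    have b := dt_six H hx' h3 u2'
    exact ⟨⟨a.2, b.2, u1', u2'⟩, Or.inl ⟨a.1, b.1⟩⟩

/-- the cost of an element of level 9 -/
lemma cst9 {h : P → ℕ} {z : P} (hl : lev z = 9) :
    cst 4 h z = min (h z) 1 * nab 5 z + min (h z) 2 * nab 6 z + min (h z) 3 * nab 7 z +
      min (h z) 4 * nab 8 z + min (h z) 5 := by
  have h9 : nab 9 z = 1 := by
    have := nab_self (z := z)
    rwa [hl] at this
  rw [cst_eq, hl]
  simp only [Finset.sum_range_succ, Finset.sum_range_zero, h9]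
  norm_num

/-! ### the context -/

/-- the context at level 8 -/
structure C8 (P : Type u) [Fintype P] [PartialOrder P] [DecidableEq P] (r : ℕ)
    (lo hi : Tops P → ℕ → ℕ) (e : Tops P → ℕ → ℕ → P) (w : Tops P → ℕ)
    (Y : Tops P → Finset P) (θ : Tops P → P → ℕ) (B : Tops P → P → Prop) : Prop where
  K : Sm.Ctx P r 8 lo hi e
  td : ∀ t, TD t (hi t 4 - lo t 4 + 1) (w t) (Y t) (θ t) (B t)

/-- the natural sets -/
noncomputable def N8 (Y : Tops P → Finset P) (t : Tops P) : Finset P := lowPart 8 (t : P) ∪ Y t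

/-- the thresholds -/
noncomputable def th8 (θ : Tops P → P → ℕ) (x : P) : ℕ := θ (topOf x) x

/-- the base elements -/
def B8 (Y : Tops P → Finset P) (B : Tops P → P → Prop) (x : P) : Prop :=
  x ∉ unnat (N8 Y) ∧ B (topOf x) x

/-- the orders -/
def b8 (lo hi : Tops P → ℕ → ℕ) (t : Tops P) : ℕ := hi t 4 - lo t 4 + 1

section

variable {lo hi : Tops P → ℕ → ℕ} {e : Tops P → ℕ → ℕ → P} {w : Tops P → ℕ}
  {Y : Tops P → Finset P} {θ : Tops P → P → ℕ} {B : Tops P → P → Prop}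

lemma low8 (Y : Tops P → Finset P) (t : Tops P) : lowPart 8 (t : P) ⊆ N8 Y t :=
  Finset.subset_union_left

lemma C8.sys (W : C8 P r lo hi e w Y θ B) : NatSys (N8 Y) where
  up := by
    intro t x hx y hxy
    unfold N8 at hx ⊢
    rw [mem_union] at hx ⊢
    rcases hx with hx | hx
    · exact Or.inl (lowPart_up W.K.gt.H W.K.gt.good t.2 hxy hx)
    · rcases eq_or_lt_of_le hxy with h | h
      · right; rw [← h]; exact hx
      · left
        obtain ⟨v, hv, hvy⟩ := Hul.exists_cov h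
        have h1 := (W.td t).Ycov x hx v hv
        have h2 := (W.td t).Ylev x hx
        have h3 := (W.K.gt.H.covBy_iff.mp hv).2
        exact lowPart_up W.K.gt.H W.K.gt.good t.2 hvy (mem_lowPart.mpr ⟨h1, by omega⟩)
  le_t := by
    intro t x hx
    unfold N8 at hx
    rw [mem_union] at hx
    rcases hx with hx | hx
    · exact (mem_lowPart.mp hx).1
    · have h2 := (W.td t).Ylev x hx
      have hlt : x < (topOf x : P) := lt_of_le_of_ne (le_topOf x) (by
        intro h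
        have h3 := (topOf x).2
        rw [← h] at h3
        omega)
      obtain ⟨v, hv, -⟩ := Hul.exists_cov hlt
      exact hv.1.le.trans ((W.td t).Ycov x hx v hv)

lemma C8.lev9 (W : C8 P r lo hi e w Y θ B) {x : P} (hx : x ∈ unnat (N8 Y)) : 8 < lev x := by
  by_contra hcon
  exact mem_unnat.mp hx (topOf x) (low8 Y _ (mem_lowPart.mpr ⟨le_topOf x, by omega⟩))

lemma C8.nat8 (W : C8 P r lo hi e w Y θ B) {x : P} (hx : lev x ≤ 8) : x ∉ unnat (N8 Y) :=
  fun h => by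
    have := W.lev9 h
    omega

/-- natural elements -/
lemma C8.nat_cases (W : C8 P r lo hi e w Y θ B) {x : P} (hx : x ∉ unnat (N8 Y)) :
    lev x ≤ 8 ∨ x ∈ Y (topOf x) := by
  have h1 : x ∈ N8 Y (topOf x) := W.sys.mem_iff.mpr ⟨hx, rfl⟩
  unfold N8 at h1
  rw [mem_union, mem_lowPart] at h1
  rcases h1 with h1 | h1
  · exact Or.inl h1.2
  · exact Or.inr h1

/-- the data of the components -/
lemma C8.data (W : C8 P r lo hi e w Y θ B) (t : Tops P) :
    CompDataL (unnat (N8 Y)) topOf t 4 (b8 lo hi t) (13 - w t) (th8 θ) (B8 Y B) := by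
  have HN := W.sys
  refine (W.td t).data (N8 Y) HN (low8 Y) rfl _ _ ?_ ?_
  · intro x hx
    unfold th8
    rw [HN.topOf_eq hx]
  · intro x hx
    unfold B8
    rw [HN.topOf_eq hx]
    exact and_iff_right (HN.mem_iff.mp hx).1

/-- **The ladder data.** -/
lemma C8.lad (W : C8 P r lo hi e w Y θ B) :
    Lad 4 12 (unnat (N8 Y)) (b8 lo hi) (th8 θ) (B8 Y B) where
  gr := W.K.gt.H.gradedBelow
  low := W.sys.lower
  lev := fun x hx => by
    have := W.lev9 hx
    omega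
  cp := W.sys.cp
  base := fun x hx h => h.1 hx
  data := fun t => CompDataL.of_le (W.data t) (by
    have := (W.td t).w_le
    omega)

lemma C8.sum_b (W : C8 P r lo hi e w Y θ B) : ∑ t, b8 lo hi t = (lv P 4).card :=
  (card_level W.K.gt.H W.K.gt.good W.K.comp (i := 4) (by norm_num)).symm

end

end Pool.Agent.GaussPoset.J8
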