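import Pool.Agent.W_448j8_h67.JaO

/-!
Level 8, window 4: the energy 12 (MP_448cb3_co).
-/

namespace Pool.Agent.GaussPoset.J8

set_option linter.unusedSectionVars false

open Polynomial Finset Dd Wd Cl

universe u

variable {P : Type u} [Fintype P] [PartialOrder P] [DecidableEq P] {r : ℕ}

section

variable {lo hi : Tops P → ℕ → ℕ} {e : Tops P → ℕ → ℕ → P} {w : Tops P → ℕ}
  {Y : Tops P → Finset P} {θ : Tops P → P → ℕ} {B : Tops P → P → Prop}

/-- the elements with the same strict up-set -/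
noncomputable def fam (R : Finset P) (z : P) : Finset P := by
  classical exact (bdR R).filter (fun y => ∀ v, z < v ↔ y < v)

lemma mem_fam {R : Finset P} {z y : P} : y ∈ fam R z ↔ y ∈ bdR R ∧ ∀ v, z < v ↔ y < v := by
  classical
  unfold fam
  rw [mem_filter]

lemma fam_self {R : Finset P} {z : P} (hz : z ∈ bdR R) : z ∈ fam R z :=
  mem_fam.mpr ⟨hz, fun _ => Iff.rfl⟩

lemma fam_eq {R : Finset P} {z z' y : P} (h : y ∈ fam R z) (h' : y ∈ fam R z') :
    fam R z = fam R z' := by
  ext x
  rw [mem_fam, mem_fam]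
  refine and_congr_right fun _ => ?_
  constructor
  · intro h1 v
    rw [(mem_fam.mp h').2 v, ← (mem_fam.mp h).2 v]
    exact h1 v
  · intro h1 v
    rw [(mem_fam.mp h).2 v, ← (mem_fam.mp h').2 v]
    exact h1 v

/-- the elements of a family of (C) elements -/
lemma C8.fam_cx (W : C8 P r lo hi e w Y θ B) {z y : P} {t : Tops P}
    (hx : IsCx t (b8 lo hi t) (θ t) z) (hy : y ∈ fam (unnat (N8 Y)) z) :
    h8 Y θ y = 1 ∧ IsCx t (b8 lo hi t) (θ t) y := by
  obtain ⟨Nc, co, F, S, C, hb, hF⟩ := hx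
  obtain ⟨hyR, hup⟩ := mem_fam.mp hy
  have hyF := (cov_of_up hup).mp C.zF
  have hyS := (cov_of_up hup).mp C.zS
  have C' : CEl t Nc co 4 y F S := ⟨C.chart, C.strip, C.F_mem, C.S_mem, C.co_F, C.co_S, hyF,
    hyS, fun w hw => C.only w ((cov_of_up hup).mpr hw)⟩
  have h1 := W.h_le hyF (C.chart.le_t F C.F_mem) C.lev_F.le
  have h2 := W.lad.one_le hyR
  have h2' : 1 ≤ h8 Y θ y := h2
  exact ⟨by omega, Nc, co, F, S, C', hb, hF⟩

/-- a (C) element and another boundary element -/
lemma C8.pair (W : C8 P r lo hi e w Y θ B) {z z' : P} (hz : h8 Y θ z = 1)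
    {t : Tops P} (hx : IsCx t (b8 lo hi t) (θ t) z) (hz' : z' ∈ bdR (unnat (N8 Y)))
    (hne : z' ∉ fam (unnat (N8 Y)) z) :
    12 < ∑ x, max (ez 4 (h8 Y θ) z x) (ez 4 (h8 Y θ) z' x) := by
  classical
  have H := W.K.gt.H
  have hc := cx_cost H.gradedBelow hz hx
  obtain ⟨Nc, co, F, S, C, hb, hF⟩ := hx
  have hlz := C.lev_z H.gradedBelow
  have hlz' := W.lev9 (mem_filter.mp hz').1
  have hle : ¬ z ≤ z' := by
    intro h
    rcases eq_or_lt_of_le h with h1 | h1
    · apply hne
      rw [← h1]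
      exact mem_fam.mpr ⟨by rw [h1]; exact hz', fun _ => Iff.rfl⟩
    · have := lev_strictAnti h1
      omega
  have h0 : ez 4 (h8 Y θ) z z' = 0 := by
    unfold ez
    rw [if_neg hle]
  have h1 : ez 4 (h8 Y θ) z' z' = h8 Y θ z' := ez_self (W.lad.le_lev hz')
  have hone := W.lad.one_le hz'
  have hone' : 1 ≤ h8 Y θ z' := hone
  -- the sum
  have hsum : ∀ T : Finset P, (∀ x ∈ T, ¬ z ≤ x) →
      11 + ∑ x ∈ T, ez 4 (h8 Y θ) z' x ≤
        ∑ x, max (ez 4 (h8 Y θ) z x) (ez 4 (h8 Y θ) z' x) := by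
    intro T hT
    have e1 : cst 4 (h8 Y θ) z = ∑ x, ez 4 (h8 Y θ) z x := rfl
    rw [← hc, e1, ← Finset.sum_add_sum_compl T (fun x => max (ez 4 (h8 Y θ) z x) _),
      ← Finset.sum_add_sum_compl T (fun x => ez 4 (h8 Y θ) z x)]
    have e2 : ∑ x ∈ T, ez 4 (h8 Y θ) z x = 0 := by
      refine Finset.sum_eq_zero fun x hx => ?_
      unfold ez
      rw [if_neg (hT x hx)]
    have e3 : ∑ x ∈ Tᶜ, ez 4 (h8 Y θ) z x ≤
        ∑ x ∈ Tᶜ, max (ez 4 (h8 Y θ) z x) (ez 4 (h8 Y θ) z' x) :=
      Finset.sum_le_sum fun x _ => le_max_left _ _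
    have e4 : ∑ x ∈ T, ez 4 (h8 Y θ) z' x ≤
        ∑ x ∈ T, max (ez 4 (h8 Y θ) z x) (ez 4 (h8 Y θ) z' x) :=
      Finset.sum_le_sum fun x _ => le_max_right _ _
    omega
  rcases Nat.lt_or_ge (h8 Y θ z') 2 with h2 | h2
  swap
  · have h3 := hsum {z'} (fun x hx => by rw [mem_singleton.mp hx]; exact hle)
    rw [Finset.sum_singleton, h1] at h3
    omega
  have h3 : h8 Y θ z' = 1 := by omega
  -- a cover which is not above `z`
  have hcov : ∃ y, z' ⋖ y ∧ ¬ z ≤ y ∧ 5 ≤ lev y := by
    by_contra hcon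
    push Not at hcon
    obtain ⟨x, hx, hzx, hh⟩ := hcan_spec (θ := th8 θ) hz'
    have hh' : h8 Y θ z' = θ (topOf x) x + 1 := hh
    have hlx := (H.covBy_iff.mp hzx).2
    have hx8 : lev x = 8 := by
      rcases W.nat_cases hx with h4 | h4
      · omega
      · have := (W.td (topOf x)).Yth x h4
        omega
    have hly : ∀ y, z' ⋖ y → lev y = 8 := fun y hy => by
      have := (H.covBy_iff.mp hy).2
      omega
    have hFS : ∀ y, z' ⋖ y → y = F ∨ y = S := by
      intro y hy
      have h5 : z ≤ y := by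
        by_contra h6
        have := hcon y hy h6
        have := hly y hy
        omega
      have h6 : z < y := lt_of_le_of_ne h5 (by
        rintro rfl
        have := hly z hy
        omega)
      have hyl := hly y hy
      rcases C.lt_iff.mp h6 with h7 | h7
      · left
        rcases eq_or_lt_of_le h7 with h8 | h8
        · exact h8.symm
        · have := lev_strictAnti h8
          have := C.lev_F
          omega
      · right
        rcases eq_or_lt_of_le h7 with h8 | h8
        · exact h8.symm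
        · have := lev_strictAnti h8
          have := C.lev_S
          omega
    by_cases hp : ∀ y, z' ⋖ y → y = x
    · -- a pendant with label one
      have hn : ∀ k, k ≤ 8 → nab k z' = nab k x := fun k hk =>
        nab_pend (⟨hzx, hp⟩ : Pend z' x) (by omega)
      have hl9 : lev z' = 9 := by omega
      have n8 : nab 8 z' = 1 := by
        rw [hn 8 le_rfl]
        have := nab_self (z := x)
        rwa [hx8] at this
      have hcz := cst_one hl9 h3
      have n5 := W.no5 z' hz'
      have n7 := W.no7 z' hz'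
      rcases (W.td (topOf x)).pend x z' (le_topOf x) hx8 hzx hp with h5 | ⟨h5, h6⟩ | ⟨h5, h6⟩
      · omega
      · rcases h6 with ⟨g4, g5, g6, g7⟩ | ⟨g4, g5, g6, g7⟩
        · rw [← hn _ (by norm_num)] at g4 g5 g6 g7
          omega
        · rw [← hn _ (by norm_num)] at g4 g5 g6 g7
          omega
      · omega
    · -- the same covers
      push Not at hp
      obtain ⟨y, hzy, hyx⟩ := hp
      apply hne
      rw [mem_fam]
      refine ⟨hz', ?_⟩
      have hFz : z' ⋖ F ∧ z' ⋖ S := by
        rcases hFS x hzx with h5 | h5 <;> rcases hFS y hzy with h6 | h6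
        · exact absurd (h6.trans h5.symm) hyx
        · rw [h5] at hzx; rw [h6] at hzy; exact ⟨hzx, hzy⟩
        · rw [h5] at hzx; rw [h6] at hzy; exact ⟨hzy, hzx⟩
        · exact absurd (h6.trans h5.symm) hyx
      refine up_of_cov fun v => ?_
      constructor
      · intro hv
        rcases C.only v hv with h5 | h5
        · rw [h5]; exact hFz.1
        · rw [h5]; exact hFz.2
      · intro hv
        rcases hFS v hv with h5 | h5
        · rw [h5]; exact C.zF
        · rw [h5]; exact C.zS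
  obtain ⟨y, hy1, hy2, hy3⟩ := hcov
  have hyz : z' ≠ y := hy1.1.ne
  have h4 := hsum {z', y} (fun x hx => by
    rw [mem_insert, mem_singleton] at hx
    rcases hx with rfl | rfl
    · exact hle
    · exact hy2)
  rw [Finset.sum_pair hyz, h1] at h4
  have h5 : ez 4 (h8 Y θ) z' y = 1 := by
    unfold ez
    rw [if_pos hy1.1.le, h3]
    omega
  omega

end

end Pool.Agent.GaussPoset.J8
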