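import Pool.Agent.W_448dd_h67.DdI
import Pool.Agent.W_448fc_h67.FcL

/-!
Window sums at the energy of the first pole: ladder data, lead values (MP_448cb3_co).
-/

namespace Pool.Agent.GaussPoset.J8

set_option linter.unusedSectionVars false

open Polynomial Finset Dd

universe u

/-! ### lead values -/

/-- `p` is `(1 + X) ^ (B - 1) * s` up to multiples of `(1 + X) ^ B`, with `s (-1) = c` -/
def Lv (B : ℕ) (p : ℤ[X]) (c : ℤ) : Prop :=
  ∃ s : ℤ[X], (1 + X : ℤ[X]) ^ B ∣ p - (1 + X) ^ (B - 1) * s ∧ s.eval (-1) = c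

lemma Lv.add {B : ℕ} {p q : ℤ[X]} {c d : ℤ} (hp : Lv B p c) (hq : Lv B q d) :
    Lv B (p + q) (c + d) := by
  obtain ⟨s, h1, h2⟩ := hp
  obtain ⟨s', h1', h2'⟩ := hq
  refine ⟨s + s', ?_, by rw [eval_add, h2, h2']⟩
  have := dvd_add h1 h1'
  refine this.trans (dvd_of_eq ?_)
  ring

lemma Lv.zero {B : ℕ} {p : ℤ[X]} (h : (1 + X : ℤ[X]) ^ B ∣ p) : Lv B p 0 :=
  ⟨0, by rw [mul_zero, sub_zero]; exact h, by simp⟩

lemma Lv.sum {ι : Type*} {B : ℕ} (S : Finset ι) {p : ι → ℤ[X]} {c : ι → ℤ}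
    (h : ∀ k ∈ S, Lv B (p k) (c k)) : Lv B (∑ k ∈ S, p k) (∑ k ∈ S, c k) := by
  classical
  induction S using Finset.induction_on with
  | empty => exact Lv.zero (by simp)
  | insert a S ha ih =>
    rw [Finset.sum_insert ha, Finset.sum_insert ha]
    exact (h a (mem_insert_self a S)).add (ih fun k hk => h k (mem_insert_of_mem hk))

lemma Lv.congr {B : ℕ} {p q : ℤ[X]} {c : ℤ} (h : (1 + X : ℤ[X]) ^ B ∣ p - q) (hq : Lv B q c) :
    Lv B p c := by
  have := hq.add (Lv.zero h)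
  rwa [add_sub_cancel, add_zero] at this

lemma Lv.mono (B a : ℕ) : Lv B (X ^ a * (1 + X) ^ (B - 1)) ((-1) ^ a) :=
  ⟨X ^ a, by rw [mul_comm, sub_self]; exact dvd_zero _, by simp⟩

lemma Lv.eq_zero {B : ℕ} (hB : 1 ≤ B) {p : ℤ[X]} {c : ℤ} (h : Lv B p c)
    (hd : (1 + X : ℤ[X]) ^ B ∣ p) : c = 0 := by
  obtain ⟨s, h1, h2⟩ := h
  have h3 : (1 + X : ℤ[X]) ^ B ∣ (1 + X) ^ (B - 1) * s := by
    have := dvd_sub hd h1
    rwa [sub_sub_cancel] at this
  obtain ⟨c', rfl⟩ : ∃ c', B = c' + 1 := ⟨B - 1, by omega⟩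
  rw [Nat.add_sub_cancel, pow_succ] at h3
  obtain ⟨w, hw⟩ := (mul_dvd_mul_iff_left (one_add_X_pow_ne c')).mp h3
  rw [← h2, hw, eval_mul, eval_add, eval_one, eval_X, add_neg_cancel, zero_mul]

/-- a first pole from the orders up to the energy `n0` -/
lemma Pl.of_low {n0 b : ℕ} {f : Polynomial (PowerSeries ℤ)} (hb : 1 ≤ b) {m : ℕ}
    (h : ∀ n ≤ n0, (1 + X : ℤ[X]) ^ b ∣ exq n f) (h0 : exq 0 f = X ^ m * (1 + X) ^ b) :
    Pl n0 b 0 f := by
  refine ⟨fun n hn => h n hn.le, hb, X ^ m, 0, by rw [h0, mul_comm], ?_, ?_, ?_⟩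
  · rw [eval_pow, eval_X]
    exact pow_ne_zero _ (by norm_num)
  · rw [mul_zero, sub_zero]
    exact h n0 le_rfl
  · rw [eval_zero, zero_mul]

/-! ### the dangerous part -/

variable {P : Type u} [Fintype P] [PartialOrder P] [DecidableEq P]

lemma DG_eq_RB {i : ℕ} {R : Finset P} {h : P → ℕ} (hlev : ∀ x ∈ R, i < lev x) (n : ℕ) :
    DG i R h n = RB i R (fun g => ∃ z ∈ bdR R, h z ≤ g z) n := by
  classical
  unfold DG RB
  refine Finset.sum_congr rfl fun F _ => Finset.sum_congr ?_ (fun _ _ => rfl)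
  ext e
  simp only [mem_filter]
  refine and_congr_right fun _ => ?_
  refine and_congr_right fun hV => ?_
  constructor
  · rintro ⟨z, hz, hd | hd⟩
    · exact Or.inl ⟨z, (mem_filter.mp hz).1, hd⟩
    · refine Or.inr ⟨z, hz, ?_⟩
      rw [lbl_of (mem_filter.mp hz).1]
      exact hd
  · intro hb
    by_contra hcon
    push Not at hcon
    have h2 := not_mem_of_not_dg hlev hV hcon
    rcases hb with ⟨x, hx, hxF⟩ | ⟨z, hz, hz2⟩
    · exact h2 x hx hxF
    · refine hcon z hz (Or.inr ?_)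
      rwa [lbl_of (mem_filter.mp hz).1] at hz2

/-- the dangerous part: families and leading terms -/
theorem DG_eval {i : ℕ} {R : Finset P} {h : P → ℕ} {n : ℕ} (Fam : Finset (Finset P))
    (hgr : GradedBelow P) (hlev : ∀ x ∈ R, i < lev x)
    (hFam : ∀ A ∈ Fam, ∀ z ∈ A, z ∈ bdR R)
    (h1 : ∀ z ∈ bdR R, (∀ A ∈ Fam, z ∉ A) → 1 ≤ h z ∧ h z ≤ lev z - i)
    (hn : ∀ z ∈ bdR R, (∀ A ∈ Fam, z ∉ A) → n ≤ cst i h z)
    (hpair : ∀ A ∈ Fam, ∀ z ∈ A, ∀ z' ∈ bdR R, z' ∉ A →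
      n < ∑ x, max (ez i h z x) (ez i h z' x))
    (hdis : ∀ A ∈ Fam, ∀ A' ∈ Fam, A ≠ A' → ∀ z ∈ A, z ∉ A') :
    DG i R h n = ∑ A ∈ Fam, ZF i h A n +
      ∑ z ∈ (bdR R).filter (fun z => (∀ A ∈ Fam, z ∉ A) ∧ cst i h z = n), Lt i h z := by
  classical
  have hpair' : ∀ A ∈ Fam, ∀ z ∈ A, ∀ z' ∈ bdR R, z' ∉ A → ∀ e F, Vd i e F → ∑ x, e x = n →
      Dgz h e F z → Dgz h e F z' → False := by
    intro A hA z hz z' hz' hne e F hV hs hd hd'
    have h2 := ez_le hV (hlev z (mem_filter.mp (hFam A hA z hz)).1) hd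
    have h3 := ez_le hV (hlev z' (mem_filter.mp hz').1) hd'
    have h4 : ∑ x, max (ez i h z x) (ez i h z' x) ≤ ∑ x, e x :=
      Finset.sum_le_sum fun x _ => max_le (h2 x) (h3 x)
    have := hpair A hA z hz z' hz' hne
    omega
  set T2 : Finset P := (bdR R).filter (fun z => ∀ A ∈ Fam, z ∉ A) with hT2
  rw [DG_eq_RB hlev]
  have hev := RB_evalF (i := i) (R := R) (bad := fun g => ∃ z ∈ bdR R, h z ≤ g z) (n := n) h Fam
    T2 ?_ ?_ ?_ ?_ ?_ ?_
  · rw [hev]
    have h6 : ∑ z ∈ (bdR R).filter (fun z => (∀ A ∈ Fam, z ∉ A) ∧ cst i h z = n), Lt i h z =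
        ∑ z ∈ T2.filter (fun z => cst i h z = n),
        (if Adm i (ez i h z) then
        (X : ℤ[X]) ^ (nf i (ez i h z)) * (1 + X) ^ (Pk i (ez i h z)).card else 0) := by
      rw [hT2, Finset.filter_filter]
      refine Finset.sum_congr rfl fun z hz => ?_
      rw [mem_filter] at hz
      have h7 := h1 z hz.1 hz.2.1
      exact (lead_eq hgr h7.1 h7.2).symm
    rw [h6]
  · intro z hz
    rw [hT2, mem_filter] at hz
    exact h1 z hz.1 hz.2
  · intro A hA z hz e F _ _ hd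
    have hzR := (mem_filter.mp (hFam A hA z hz)).1
    rcases hd with hd | hd
    · exact Or.inl ⟨z, hzR, hd⟩
    · refine Or.inr ⟨z, hFam A hA z hz, ?_⟩
      rw [lbl_of hzR]
      exact hd
  · intro z hz _
    rw [hT2, mem_filter] at hz
    refine ⟨z, hz.1, ?_⟩
    rw [lbl_of (mem_filter.mp hz.1).1, ez_self (h1 z hz.1 hz.2).2]
  · intro e F hV hs hb
    have hd : ∃ z ∈ bdR R, Dgz h e F z := by
      by_contra hcon
      push Not at hcon
      have h2 := not_mem_of_not_dg hlev hV hcon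
      rcases hb with ⟨x, hx, hxF⟩ | ⟨z, hz, hz2⟩
      · exact h2 x hx hxF
      · refine hcon z hz (Or.inr ?_)
        rwa [lbl_of (mem_filter.mp hz).1] at hz2
    obtain ⟨z, hz, hd⟩ := hd
    by_cases hz1 : ∃ A ∈ Fam, z ∈ A
    · obtain ⟨A, hA, hzA⟩ := hz1
      exact Or.inl ⟨A, hA, z, hzA, hd⟩
    · right
      push Not at hz1
      refine ⟨z, by rw [hT2, mem_filter]; exact ⟨hz, hz1⟩, ?_⟩
      have h4 : ∀ x, ez i h z x ≤ e x := ez_le hV (hlev z (mem_filter.mp hz).1) hd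
      have h6 : cst i h z ≤ n := by
        rw [← hs]; exact Finset.sum_le_sum fun x _ => h4 x
      have h7 : cst i h z = n := le_antisymm h6 (hn z hz hz1)
      funext x
      have h9 : ∑ x, ez i h z x = ∑ x, e x := by
        rw [hs]; exact h7
      exact ((Finset.sum_eq_sum_iff_of_le (fun x _ => h4 x)).mp h9 x (mem_univ x)).symm
  · intro A hA A' hA' hne z hz z' hz' e F hV hs hd hd'
    exact hpair' A hA z hz z' (hFam A' hA' z' hz') (hdis A' hA' A hA (Ne.symm hne) z' hz') e F hV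
      hs hd hd'
  · intro A hA z hz z' hz' hc F hV hd
    rw [hT2, mem_filter] at hz'
    refine hpair' A hA z hz z' hz'.1 (hz'.2 A hA) _ F hV hc hd (Or.inr ?_)
    rw [ez_self (h1 z' hz'.1 hz'.2).2]

/-! ### ladder data -/

/-- natural sets, orders below the energy `n0` -/
structure Lad (i n0 : ℕ) (R : Finset P) (b : Tops P → ℕ) (θ : P → ℕ) (B : P → Prop) : Prop where
  gr : GradedBelow P
  low : ∀ x y, x ≤ y → y ∈ R → x ∈ R
  lev : ∀ x ∈ R, i < Pool.Agent.GaussPoset.lev x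
  cp : ∀ x y, x ≤ y → x ∉ R → topOf x = topOf y
  base : ∀ x ∈ R, ¬ B x
  data : ∀ t, CompDataL R topOf t i (b t) n0 θ B

section Lad

variable {i n0 : ℕ} {R : Finset P} {b : Tops P → ℕ} {θ : P → ℕ} {B : P → Prop}

theorem Lad.farT (L : Lad i n0 R b θ B) : FarT P i R (∑ t, b t) (hcan R θ) n0 :=
  farT_L L.low L.lev topOf L.cp b θ B L.base L.data L.gr

lemma Lad.one_le (_L : Lad i n0 R b θ B) {z : P} (hz : z ∈ bdR R) : 1 ≤ hcan R θ z := by
  obtain ⟨x, -, -, hx⟩ := hcan_spec (θ := θ) hz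
  omega

lemma Lad.le_lev (L : Lad i n0 R b θ B) {z : P} (hz : z ∈ bdR R) :
    hcan R θ z ≤ Pool.Agent.GaussPoset.lev z - i := L.farT.le_lev z hz

/-- **The window sum at the energy `n ≤ n0`.** -/
theorem Lad.plus0 (L : Lad i n0 R b θ B) {n : ℕ} (hn0 : n ≤ n0) (Fam : Finset (Finset P))
    (hFam : ∀ A ∈ Fam, ∀ z ∈ A, z ∈ bdR R)
    (hn : ∀ z ∈ bdR R, (∀ A ∈ Fam, z ∉ A) → n ≤ cst i (hcan R θ) z)
    (hpair : ∀ A ∈ Fam, ∀ z ∈ A, ∀ z' ∈ bdR R, z' ∉ A →
      n < ∑ x, max (ez i (hcan R θ) z x) (ez i (hcan R θ) z' x))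
    (hdis : ∀ A ∈ Fam, ∀ A' ∈ Fam, A ≠ A' → ∀ z ∈ A, z ∉ A') :
    (1 + X : ℤ[X]) ^ (∑ t, b t) ∣ Z P i n - (Z {x : P // x ∉ R} i n +
      (∑ A ∈ Fam, ZF i (hcan R θ) A n +
      ∑ z ∈ (bdR R).filter (fun z => (∀ A ∈ Fam, z ∉ A) ∧ cst i (hcan R θ) z = n),
        Lt i (hcan R θ) z)) := by
  classical
  rw [Z_split i R (hcan R θ) n, DG_eval Fam L.gr L.lev hFam
    (fun z hz _ => ⟨L.one_le hz, L.le_lev hz⟩) hn hpair hdis, ← ZB_off L.low L.lev,
    add_sub_add_right_eq_sub]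
  refine ND_sub L.lev (fun z hz => L.one_le hz) _ n ?_
  intro g hg0 hg hs
  refine labelsL L.low L.lev topOf L.cp b θ B L.base L.data g hg0 ?_ n (by omega)
  intro y hy x hx hyx
  have h1 : y ∈ bdR R := mem_filter.mpr ⟨hy, x, hx, hyx⟩
  have h2 := hg y h1
  have h3 := hcan_le (θ := θ) hx hyx
  omega

/-- the natural part below `n0` -/
theorem Lad.nat_low (L : Lad i n0 R b θ B) {n : ℕ} (hn : n < n0) :
    (1 + X : ℤ[X]) ^ (∑ t, b t) ∣ Z {x : P // x ∉ R} i n := by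
  classical
  have hgood : Good i R B R := ⟨L.low, Subset.refl R, L.lev, L.base⟩
  have h1 := clean_good topOf L.cp b θ B L.data hgood n hn
  rwa [ZB_off L.low L.lev] at h1

/-- the natural part at `n0` -/
theorem Lad.nat_lv (L : Lad i n0 R b θ B) (h0 : 1 ≤ n0) (hb : ∀ t, 1 ≤ b t)
    (hne : Nonempty (Tops P)) (hsum : ∑ t, b t = (lv P i).card) (ρ : Tops P → ℤ)
    (hpl : ∀ t, (ρ t = 0 ∧ (1 + X : ℤ[X]) ^ b t ∣
        Z {x : {x : P // x ∉ R} // topOf (x : P) = t} i n0) ∨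
      ∀ f, (∀ n, exq n f = Z {x : {x : P // x ∉ R} // topOf (x : P) = t} i n) →
        Pl n0 (b t) (ρ t) f) :
    Lv (lv P i).card (Z {x : P // x ∉ R} i n0) ((∑ t, ρ t) * (-1) ^ below P i) := by
  classical
  have hc : ∀ x y : {x : P // x ∉ R}, x ≤ y → topOf (x : P) = topOf (y : P) := fun x y hxy =>
    L.cp x y hxy x.2
  choose f hf hf' using fun k => exists_norm {x : {x : P // x ∉ R} // topOf (x : P) = k} i
  have hprod := Z_prod (fun x : {x : P // x ∉ R} => topOf (x : P)) hc i f hf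
  have hR' : ∀ x : {x : P // x ∉ R}, Pool.Agent.GaussPoset.lev x =
      Pool.Agent.GaussPoset.lev (x : P) :=
    lev_subtype (p := fun x => x ∉ R) (fun x y hxy hx => fun h => hx (L.low x y hxy h))
  have hcount : ∀ g : ℕ → Prop, ∀ _ : DecidablePred g, (∀ l, g l → l ≤ i) →
      (univ.filter (fun x : P => g (Pool.Agent.GaussPoset.lev x))).card =
      (univ.filter (fun x : {x : P // x ∉ R} => g (Pool.Agent.GaussPoset.lev x))).card := by
    intro g _ hg
    refine (Finset.card_bij (fun (x : {x : P // x ∉ R}) _ => (x : P)) ?_ ?_ ?_).symm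
    · intro x hx
      rw [mem_filter] at hx ⊢
      rw [← hR']
      exact ⟨mem_univ _, hx.2⟩
    · intro x _ y _ h
      exact Subtype.ext h
    · intro x hx
      rw [mem_filter] at hx
      have hxR : x ∉ R := fun h => by
        have := L.lev x h
        have := hg _ hx.2
        omega
      exact ⟨⟨x, hxR⟩, by rw [mem_filter, hR']; exact ⟨mem_univ _, hx.2⟩, rfl⟩
  have hlv : (lv P i).card = (lv {x : P // x ∉ R} i).card :=
    hcount (fun l => l = i) inferInstance (fun l hl => hl.le)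
  have hbel : below P i = below {x : P // x ∉ R} i :=
    hcount (fun l => l < i) inferInstance (fun l hl => le_of_lt hl)
  have hlv2 := card_lv_prod (fun x : {x : P // x ∉ R} => topOf (x : P)) hc i
  have hz0 : ∀ k, exq 0 (f k) =
      X ^ (below {x : {x : P // x ∉ R} // topOf (x : P) = k} i) *
        (1 + X) ^ (lv {x : {x : P // x ∉ R} // topOf (x : P) = k} i).card := fun k => by
    rw [hf', Z_zero]
  have hgood : Good i R B R := ⟨L.low, Subset.refl R, L.lev, L.base⟩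
  have hle : ∀ k ∈ (univ : Finset (Tops P)), b k ≤
      (lv {x : {x : P // x ∉ R} // topOf (x : P) = k} i).card := by
    intro k _
    have h4 := (L.data k).clean R hgood inferInstance 0 (by omega)
    rw [Z_zero] at h4
    exact le_of_pow_dvd h4
  have heq := (Finset.sum_eq_sum_iff_of_le hle).mp (by rw [hsum, hlv, hlv2])
  obtain ⟨t0⟩ := hne
  have hP : Pl n0 (∑ k, b k) (∑ k, ρ k) (∏ k, f k) := by
    refine Pl.prod h0 univ ⟨t0, mem_univ _⟩ fun k hk => ?_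
    rcases hpl k with ⟨h4, h5⟩ | h4
    · rw [h4]
      refine Pl.of_low (hb k) (fun n hn => ?_) (m := below
        {x : {x : P // x ∉ R} // topOf (x : P) = k} i) ?_
      · rw [hf']
        rcases Nat.lt_or_ge n n0 with h6 | h6
        · exact (L.data k).clean R hgood inferInstance n h6
        · obtain rfl : n = n0 := by omega
          exact h5
      · rw [hz0, heq k hk]
    · exact h4 (f k) (hf' k)
  obtain ⟨v, s, hv, -, hs, hs1⟩ := hP.ex
  rw [← hprod, hsum] at hs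
  rw [← hprod, Z_zero, ← hbel, ← hlv, hsum, mul_comm] at hv
  have hvv : v = X ^ below P i := (mul_left_cancel₀ (one_add_X_pow_ne _) hv).symm
  refine ⟨s, hs, ?_⟩
  rw [hs1, hvv, eval_pow, eval_X]

end Lad

end Pool.Agent.GaussPoset.J8
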