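import Pool.Agent.W_448fc_h67.FcQ
import Pool.Agent.W_448j8_h67.JaE

/-!
The pole of a common child of the fold end and the straight end of a stair, truncated data of
the other components (MP_448cb3_co).
-/

namespace Pool.Agent.GaussPoset.J8

set_option linter.unusedSectionVars false

open Polynomial Finset Dd

universe u

variable {P : Type u} [Fintype P] [PartialOrder P] [DecidableEq P] {r m g u : ℕ}

/-- a dangerous element costs -/
lemma SC_low_zero {Q : Type u} [Fintype Q] [PartialOrder Q] [DecidableEq Q] {i k : ℕ}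
    {Sd : Finset Q} {z' : Q} (hz : z' ∈ Sd) (hiz : i < lev z') {n : ℕ}
    (hn : n < cst i (fun _ => k) z') :
    SC (fun (e : Q → ℕ) F => Vd i e F ∧ Sd ⊆ upL i k e F) n = 0 := by
  classical
  rw [SC_eq_cfg]
  refine Finset.sum_eq_zero fun x hx => ?_
  exfalso
  rw [mem_cfg] at hx
  obtain ⟨he, hV, hS⟩ := hx
  obtain ⟨F, e⟩ := x
  simp only at he hV hS
  have hd : z' ∈ F ∨ k ≤ e z' := by
    rcases mem_upL.mp (hS hz) with h | h
    · exact Or.inl h
    · right
      rw [rho_of_lt hiz] at h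
      exact_mod_cast h
  have h1 : cst i (fun _ => k) z' ≤ ∑ x, e x :=
    Finset.sum_le_sum fun x _ => ez_le (h := fun _ => k) hV hiz hd x
  omega

/-- the other components, truncated -/
theorem dvd_restL {i n0 : ℕ} {N : Tops P → Finset P} {b : Tops P → ℕ} {θ : P → ℕ}
    {B : P → Prop} (L : Lad i n0 (unnat N) b θ B) (HN : NatSys N) (t0 : Tops P) {n : ℕ}
    (hn : n < n0) :
    (1 + X : ℤ[X]) ^ (∑ t ∈ univ.erase t0, b t) ∣
      Z {x : {x : P // x ∉ offN N t0} // ¬ (x : P) ∈ onlyB t0} i n := by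
  classical
  have hmemN : ∀ x : {x : {x : P // x ∉ offN N t0} // ¬ (x : P) ∈ onlyB t0},
      (x : P) ∈ N (topOf (x : P)) := by
    intro x
    refine mem_of_not_offN x.1.2 ?_ (le_topOf _)
    intro h
    refine x.2 (onlyB_of_not_offN HN x.1.2 ?_)
    have h1 := le_topOf (x : P)
    rw [h] at h1
    exact h1
  have hs : ∑ t ∈ univ.erase t0, b t = ∑ t, (if t = t0 then 0 else b t) := by
    rw [← Finset.add_sum_erase univ _ (mem_univ t0), if_pos rfl, zero_add]
    exact Finset.sum_congr rfl fun t ht => by rw [if_neg (ne_of_mem_erase ht)]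
  rw [hs]
  have hc : ∀ x y : {x : {x : P // x ∉ offN N t0} // ¬ (x : P) ∈ onlyB t0}, x ≤ y →
      topOf (x : P) = topOf (y : P) := by
    intro x y hxy
    exact HN.cp x y hxy fun h => mem_unnat.mp h _ (hmemN x)
  choose f hf hf' using fun k => exists_norm
    {x : {x : {x : P // x ∉ offN N t0} // ¬ (x : P) ∈ onlyB t0} // topOf (x : P) = k} i
  rw [Z_prod (fun x : {x : {x : P // x ∉ offN N t0} // ¬ (x : P) ∈ onlyB t0} =>
    topOf (x : P)) hc i f hf n]
  refine Lo.prod (n0 := n0) univ (fun k _ n' hn' => ?_) n hn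
  by_cases hk : k = t0
  · rw [if_pos hk, pow_zero]
    exact one_dvd _
  · rw [if_neg hk, hf']
    have h2 := (L.data k).clean (unnat N) ⟨L.low, Finset.Subset.refl _, L.lev, L.base⟩
      inferInstance n' hn'
    have e : {x : {x : {x : P // x ∉ offN N t0} // ¬ (x : P) ∈ onlyB t0} // topOf (x : P) = k} ≃o
        {x : {x : P // x ∉ unnat N} // topOf (x : P) = k} :=
      { toFun := fun x => ⟨⟨x.1.1.1, fun h => mem_unnat.mp h _ (hmemN x.1)⟩, x.2⟩
        invFun := fun x => ⟨⟨⟨x.1.1, fun h => x.1.2 (offN_sub HN h)⟩, fun h => by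
          have h3 : (x.1.1 : P) ∈ N k := HN.mem_iff.mpr ⟨x.1.2, x.2⟩
          exact hk (Subtype.ext (mem_onlyB.mp h k k.2 (HN.le_t k _ h3)))⟩, x.2⟩
        left_inv := fun x => rfl
        right_inv := fun x => rfl
        map_rel_iff' := Iff.rfl }
    rw [Z_iso e]
    exact h2

section CEl

variable {t0 : Tops P} {Nc : Finset P} {co : P → ℕ × ℕ} {z F S : P}
  {N : Tops P → Finset P}

/-- **The pole.** -/
theorem poleT (C : CEl t0 Nc co m z F S) (H : Gr P r) {b : Tops P → ℕ} (HN : NatSys N)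
    (hlow : ∀ x ∈ unnat N, 2 * m < lev x)
    (hrest' : ∀ n ≤ (u + 1) ^ 2, (1 + X : ℤ[X]) ^ (∑ t ∈ univ.erase t0, b t) ∣
      Z {x : {x : P // x ∉ offN N t0} // ¬ (x : P) ∈ onlyB t0} m n)
    (hm : m = 2 * g + u) (hu : u ≤ 1) (hg : 1 ≤ g) (hgu : g = 1 → u = 0) {Sd : Finset P}
    (hzS : z ∈ Sd) (hSd : ∀ x ∈ Sd, x ∈ onlyB t0) :
    (∀ n < (u + 1) ^ 2 + cst m (fun _ => u + 1) z,
      (1 + X : ℤ[X]) ^ (g + 1 + ∑ t ∈ univ.erase t0, b t) ∣ ZB m ∅ 0 (sgs Sd (u + 1)) n) ∧
    ((∃ x ∈ Sd, ¬ z ≤ x) → (1 + X : ℤ[X]) ^ (g + 1 + ∑ t ∈ univ.erase t0, b t) ∣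
      ZB m ∅ 0 (sgs Sd (u + 1)) ((u + 1) ^ 2 + cst m (fun _ => u + 1) z)) ∧
    ((∀ x ∈ Sd, z ≤ x) → (1 + X : ℤ[X]) ^ (g + 1 + ∑ t ∈ univ.erase t0, b t) ∣
      ZB m ∅ 0 (sgs Sd (u + 1)) ((u + 1) ^ 2 + cst m (fun _ => u + 1) z) -
      X ^ (below P m + (u + 1) * g) * (1 + X) ^ ((lv P m).card - 1)) := by
  classical
  have hgr := H.gradedBelow
  have E := C.emb hgr HN hlow
  have hzo := C.z_only hgr HN hlow
  have hzl := C.lev_z hgr
  set E0 := cst m (fun _ => u + 1) z with hE0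
  have hsq : (u + 1) ^ 2 < m + 1 := by
    rcases Nat.le_one_iff_eq_zero_or_eq_one.mp hu with h | h
    · subst h; simp; omega
    · subst h
      have : g ≠ 1 := fun h => by have := hgu h; omega
      have : (1 + 1) ^ 2 = 4 := by norm_num
      omega
  have hred : ∀ n ≤ (u + 1) ^ 2 + E0, ZB m ∅ 0 (sgs Sd (u + 1)) n = ∑ ab ∈ antidiagonal n,
      SC (fun (e : {x : {x : P // x ∉ offN N t0} // (x : P) ∈ onlyB t0} → ℕ) F => Vd m e F ∧
        (univ.filter (fun x : {x : {x : P // x ∉ offN N t0} // (x : P) ∈ onlyB t0} =>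
          (x : P) ∈ Sd)) ⊆ upL m (u + 1) e F) ab.1 *
      Z {x : {x : P // x ∉ offN N t0} // ¬ (x : P) ∈ onlyB t0} m ab.2 := by
    intro n hn
    refine ZB_reduce HN (fun x hx => by have := hlow x hx; omega) hSd ?_
    intro e F' hV hS hs x hx
    have hz1 : z ∈ F' ∨ u + 1 ≤ e z := by
      rcases mem_upL.mp (hS hzS) with h | h
      · exact Or.inl h
      · right
        rw [rho_of_lt (by omega)] at h
        exact_mod_cast h
    by_contra hcon
    have hd : x ∈ F' ∨ 1 ≤ e x := by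
      by_contra h
      push Not at h
      exact hcon ⟨h.1, by omega⟩
    have := C.cost hgr HN hlow hV hz1 hx hd
    omega
  set Sd0 := univ.filter (fun x : {x : {x : P // x ∉ offN N t0} // (x : P) ∈ onlyB t0} =>
          (x : P) ∈ Sd) with hSd0
  have hmS : ∀ x, x ∈ Sd0 ↔ (x : P) ∈ Sd := by
    intro x
    rw [hSd0, mem_filter]
    simp only [mem_univ, true_and]
  set zQ : {x : {x : P // x ∉ offN N t0} // (x : P) ∈ onlyB t0} :=
    ⟨⟨z, not_offN_of_onlyB hzo⟩, hzo⟩ with hzQ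
  have key := C.comp H E hm hu hg hgu Sd0 (z' := zQ) rfl ((hmS _).mpr hzS)
  have hsum := CEl.sum_upz (m := m) E (u + 1)
  have hcstQ : cst m (fun _ => u + 1) zQ = E0 := by
    rw [hE0, ← hsum]
    unfold cst ez
    rw [← Finset.sum_filter]
    refine Finset.sum_congr ?_ (fun _ _ => rfl)
    ext x
    rw [mem_filter, CEl.mem_upz]
    simp only [mem_univ, true_and]
    rfl
  have hzQl : m < lev zQ := by
    rw [E.lev]
    show m < lev z
    omega
  have hz0 : ∀ n < E0, SC (fun (e : {x : {x : P // x ∉ offN N t0} //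
      (x : P) ∈ onlyB t0} → ℕ) F => Vd m e F ∧ Sd0 ⊆ upL m (u + 1) e F) n = 0 :=
    fun n hn => SC_low_zero ((hmS _).mpr hzS) hzQl (by rw [hcstQ]; exact hn)
  rw [hsum, ← hE0] at key
  obtain ⟨k1, k2, k3⟩ := key
  -- the products
  have hprod : ∀ ab : ℕ × ℕ, ab.1 + ab.2 ≤ (u + 1) ^ 2 + E0 →
      (1 + X : ℤ[X]) ^ (g + 1) ∣ SC (fun (e : {x : {x : P // x ∉ offN N t0} //
        (x : P) ∈ onlyB t0} → ℕ) F => Vd m e F ∧ Sd0 ⊆ upL m (u + 1) e F) ab.1 →
      (1 + X : ℤ[X]) ^ (g + 1 + ∑ t ∈ univ.erase t0, b t) ∣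
        SC (fun (e : {x : {x : P // x ∉ offN N t0} // (x : P) ∈ onlyB t0} → ℕ) F => Vd m e F ∧
          Sd0 ⊆ upL m (u + 1) e F) ab.1 *
        Z {x : {x : P // x ∉ offN N t0} // ¬ (x : P) ∈ onlyB t0} m ab.2 := by
    intro ab hab hd
    rcases Nat.lt_or_ge ab.1 E0 with h | h
    · rw [hz0 ab.1 h, zero_mul]
      exact dvd_zero _
    · rw [pow_add _ (g + 1)]
      exact mul_dvd_mul hd (hrest' _ (by omega))
  have hp1 : ∀ n < (u + 1) ^ 2 + E0, (1 + X : ℤ[X]) ^ (g + 1 + ∑ t ∈ univ.erase t0, b t) ∣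
      ZB m ∅ 0 (sgs Sd (u + 1)) n := by
    intro n hn
    rw [hred n hn.le]
    refine Finset.dvd_sum fun ab hab => ?_
    rw [HasAntidiagonal.mem_antidiagonal] at hab
    exact hprod ab (by omega) (k1 ab.1 (by omega))
  refine ⟨hp1, ?_, ?_⟩
  · rintro ⟨x, hx, hzx⟩
    rw [hred _ le_rfl]
    refine Finset.dvd_sum fun ab hab => ?_
    rw [HasAntidiagonal.mem_antidiagonal] at hab
    refine hprod ab hab.le ?_
    rcases Nat.lt_or_ge ab.1 ((u + 1) ^ 2 + E0) with h | h
    · exact k1 ab.1 h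
    · have h1 : ab.1 = (u + 1) ^ 2 + E0 := by omega
      rw [h1]
      refine k2 ⟨⟨⟨x, not_offN_of_onlyB (hSd x hx)⟩, hSd x hx⟩, (hmS _).mpr hx, hzx⟩
  · intro hall
    have k3' := k3 (fun x hx => hall _ ((hmS x).mp hx))
    rw [hred _ le_rfl]
    have hmem : (((u + 1) ^ 2 + E0, 0) : ℕ × ℕ) ∈ antidiagonal ((u + 1) ^ 2 + E0) := by
      rw [HasAntidiagonal.mem_antidiagonal]
      exact Nat.add_zero _
    rw [← Finset.add_sum_erase _ _ hmem]
    obtain ⟨a, ha, hcore⟩ := C.core_eq hgr E hm hu hg hgu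
    have hT := C.triS_tz E
    have e1 := hT.below_eq hm hu hg
    have e2 := hT.card_lv_low (l := m) (by omega) (by omega)
    have e3 : below P m = below {x // x ∈ CEl.tz z (fun x : {x : {x : P // x ∉ offN N t0} //
        (x : P) ∈ onlyB t0} => (x : P))} m +
        below {x : {x : P // x ∉ offN N t0} // ¬ (x : P) ∈ onlyB t0} m :=
      C.card_split hgr HN (by omega) hlow (fun l => l < m) (by omega)
    have e4 : (lv P m).card = (lv {x // x ∈ CEl.tz z (fun x : {x : {x : P // x ∉ offN N t0} //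
        (x : P) ∈ onlyB t0} => (x : P))} m).card +
        (lv {x : {x : P // x ∉ offN N t0} // ¬ (x : P) ∈ onlyB t0} m).card :=
      C.card_split hgr HN (by omega) hlow (fun l => l = m) (by omega)
    have h0 := hrest' 0 (Nat.zero_le _)
    rw [Z_zero] at h0
    simp only
    rw [Z_zero]
    have e5 : below P m + (u + 1) * g = a +
        below {x : {x : P // x ∉ offN N t0} // ¬ (x : P) ∈ onlyB t0} m := by omega
    have e6 : (lv P m).card - 1 = g +
        (lv {x : {x : P // x ∉ offN N t0} // ¬ (x : P) ∈ onlyB t0} m).card := by omega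
    rw [e5, e6]
    have h1 := dvd_add k3' hcore
    have h2 := mul_dvd_mul h1 h0
    rw [← pow_add] at h2
    have h3 : (1 + X : ℤ[X]) ^ (g + 1 + ∑ t ∈ univ.erase t0, b t) ∣
        ∑ ab ∈ (antidiagonal ((u + 1) ^ 2 + E0)).erase ((u + 1) ^ 2 + E0, 0),
        SC (fun (e : {x : {x : P // x ∉ offN N t0} // (x : P) ∈ onlyB t0} → ℕ) F => Vd m e F ∧
          Sd0 ⊆ upL m (u + 1) e F) ab.1 *
        Z {x : {x : P // x ∉ offN N t0} // ¬ (x : P) ∈ onlyB t0} m ab.2 := by
      refine Finset.dvd_sum fun ab hab => ?_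
      rw [mem_erase, HasAntidiagonal.mem_antidiagonal] at hab
      refine hprod ab hab.2.le (k1 ab.1 ?_)
      by_contra hcon
      apply hab.1
      exact Prod.ext (by simp only; omega) (by simp only; omega)
    have h4 := dvd_add h2 h3
    refine h4.trans (dvd_of_eq ?_)
    rw [pow_add X a, pow_add (1 + X) g]
    ring

/-- the pole of a family of (C) elements with the same covers -/
theorem fam_poleT (C : CEl t0 Nc co m z F S) (H : Gr P r) {b : Tops P → ℕ} (HN : NatSys N)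
    (hlow : ∀ x ∈ unnat N, 2 * m < lev x)
    (hrest' : ∀ n ≤ (u + 1) ^ 2, (1 + X : ℤ[X]) ^ (∑ t ∈ univ.erase t0, b t) ∣
      Z {x : {x : P // x ∉ offN N t0} // ¬ (x : P) ∈ onlyB t0} m n)
    (hm : m = 2 * g + u) (hu : u ≤ 1) (hg : 1 ≤ g) (hgu : g = 1 → u = 0) (hb : b t0 = g + 1)
    {h : P → ℕ} {A : Finset P} (hzA : z ∈ A) (hA : ∀ y ∈ A, ∀ w, z < w ↔ y < w)
    (hh' : ∀ y ∈ A, h y = u + 1) :
    (∀ n < E0 m + hh m ^ 2, (1 + X : ℤ[X]) ^ (∑ t, b t) ∣ ZF m h A n) ∧
    (1 + X : ℤ[X]) ^ (∑ t, b t) ∣ ZF m h A (E0 m + hh m ^ 2) -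
      ∑ _y ∈ A, X ^ (below P m + (u + 1) * g) * (1 + X) ^ ((lv P m).card - 1) := by
  classical
  have hgr := H.gradedBelow
  have hs : ∑ t, b t = g + 1 + ∑ t ∈ univ.erase t0, b t := by
    rw [← hb]
    exact (Finset.add_sum_erase univ b (mem_univ t0)).symm
  have hhu : hh m = u + 1 := by unfold hh; omega
  have hE : (u + 1) ^ 2 + E0 m = E0 m + hh m ^ 2 := by rw [hhu]; omega
  have hfam : ∀ y ∈ A, CEl t0 Nc co m y F S ∧ lev y = 2 * m + 1 ∧
      cst m (fun _ => u + 1) y = E0 m := by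
    intro y hy
    have hyF := (cov_of_up (hA y hy)).mp C.zF
    have hyS := (cov_of_up (hA y hy)).mp C.zS
    have C' : CEl t0 Nc co m y F S := ⟨C.chart, C.strip, C.F_mem, C.S_mem, C.co_F, C.co_S, hyF,
      hyS, fun w hw => C.only w ((cov_of_up (hA y hy)).mpr hw)⟩
    refine ⟨C', C'.lev_z hgr, ?_⟩
    rw [← hhu]
    exact C'.cst_eq hgr (by omega)
  have hsingle : ∀ y ∈ A, (∀ n < (u + 1) ^ 2 + cst m (fun _ => u + 1) y,
      (1 + X : ℤ[X]) ^ (∑ t, b t) ∣ ZD m y (u + 1) n) ∧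
      (1 + X : ℤ[X]) ^ (∑ t, b t) ∣ ZD m y (u + 1) ((u + 1) ^ 2 + cst m (fun _ => u + 1) y) -
      X ^ (below P m + (u + 1) * g) * (1 + X) ^ ((lv P m).card - 1) := by
    intro y hy
    have key := poleT (hfam y hy).1 H HN hlow hrest' hm hu hg hgu (Sd := {y})
      (mem_singleton_self y) (by
        intro x hx
        rw [mem_singleton.mp hx]
        exact (hfam y hy).1.z_only hgr HN hlow)
    rw [sgs_single, ← hs] at key
    exact ⟨key.1, key.2.2 fun x hx => by rw [mem_singleton.mp hx]⟩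
  have hlz := (hfam z hzA).2.1
  by_cases hone : A = {z}
  · have h1 := hfam z hzA
    have f2 := hsingle z hzA
    rw [h1.2.2, hE] at f2
    constructor
    · intro n hn
      rw [hone, ZF_singleton (by omega), hh' z hzA]
      exact f2.1 n hn
    · rw [hone, ZF_singleton (by omega), hh' z hzA, Finset.sum_singleton]
      exact f2.2
  · obtain ⟨y, hy, hyz⟩ : ∃ y ∈ A, y ≠ z := by
      by_contra hcon
      push Not at hcon
      apply hone
      ext x
      rw [mem_singleton]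
      exact ⟨fun h => hcon x h, fun h => h ▸ hzA⟩
    have htwo : A = {z, y} := by
      ext x
      rw [mem_insert, mem_singleton]
      constructor
      · intro hx
        by_contra hcon
        push Not at hcon
        exact Win.dc_three H (hfam x hx).1.zF C.zF (hfam y hy).1.zF hcon.1 hcon.2 hyz.symm
      · rintro (h | h)
        · rw [h]; exact hzA
        · rw [h]; exact hy
    have h1 := hfam z hzA
    have f2 := hsingle z hzA
    have g1 := hfam y hy
    have g2 := hsingle y hy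
    have hzy : ¬ z ≤ y := by
      intro h
      have := lev_strictAnti (lt_of_le_of_ne h hyz.symm)
      omega
    have hP : ∀ n ≤ (u + 1) ^ 2 + cst m (fun _ => u + 1) z,
        (1 + X : ℤ[X]) ^ (∑ t, b t) ∣ ZB m ∅ 0 (sgs {z, y} (u + 1)) n := by
      intro n hn
      have key := poleT h1.1 H HN hlow hrest' hm hu hg hgu (Sd := {z, y}) (by simp) (by
        intro x hx
        rw [mem_insert, mem_singleton] at hx
        rcases hx with rfl | rfl
        · exact h1.1.z_only hgr HN hlow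
        · exact g1.1.z_only hgr HN hlow)
      rw [← hs] at key
      rcases Nat.lt_or_ge n ((u + 1) ^ 2 + cst m (fun _ => u + 1) z) with h | h
      · exact key.1 n h
      · rw [show n = (u + 1) ^ 2 + cst m (fun _ => u + 1) z by omega]
        exact key.2.1 ⟨y, by simp, hzy⟩
    rw [h1.2.2, hE] at f2
    rw [g1.2.2, hE] at g2
    rw [h1.2.2, hE] at hP
    have key : ∀ n, ZF m h {z, y} n = ZD m z (u + 1) n + ZD m y (u + 1) n -
        ZB m ∅ 0 (sgs {z, y} (u + 1)) n := by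
      intro n
      have h3 := ZF_pair (i := m) (h := h) (z := z) (z' := y) (by omega) (by omega) n
      rw [ZP_eq_sgs (by omega) (by omega) (hh' z hzA) (hh' y hy), hh' z hzA, hh' y hy] at h3
      rw [← h3]
      ring
    constructor
    · intro n hn
      rw [htwo, key]
      exact dvd_sub (dvd_add (f2.1 n hn) (g2.1 n hn)) (hP n hn.le)
    · rw [htwo, key, Finset.sum_pair hyz.symm]
      have h5 := dvd_sub (dvd_add f2.2 g2.2) (hP _ le_rfl)
      refine h5.trans (dvd_of_eq ?_)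
      ring

end CEl

end Pool.Agent.GaussPoset.J8
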