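import Pool.Agent.W_448j8_h67.JaG
import Pool.Agent.W_448j8_h67.JaF
import Pool.Agent.W_448s8f_h61.TK
import Pool.Agent.W_448cl_h67.ClS

/-!
The components at the window 4, level 8: data of one component; light and rectangle-like
components, quadric, `E6` (MP_448cb3_co).
-/

namespace Pool.Agent.GaussPoset.J8

set_option linter.unusedSectionVars false

open Polynomial Finset Dd Wd Cl

universe u

variable {P : Type u} [Fintype P] [PartialOrder P] [DecidableEq P] {r : ℕ}
variable {t : Tops P} {lo hi : ℕ → ℕ} {e : ℕ → ℕ → P}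

/-- numbers of elements of the levels 4, ..., 7 above `x`: the fold end -/
def Fp (x : P) : Prop := nab 4 x = 3 ∧ nab 5 x = 2 ∧ nab 6 x = 2 ∧ nab 7 x = 1

/-- one element on the levels 5, ..., 7, two on the level 4 -/
def Qp (x : P) : Prop := nab 4 x = 2 ∧ nab 5 x = 1 ∧ nab 6 x = 1 ∧ nab 7 x = 1

/-- two elements on the levels 4, 5, 6 -/
def Dp (x : P) : Prop := nab 4 x = 2 ∧ nab 5 x = 2 ∧ nab 6 x = 2 ∧ nab 7 x = 1

/-- `z` covers exactly the fold end and the straight end of the stair `t` -/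
def IsCx (t : Tops P) (b : ℕ) (θ : P → ℕ) (z : P) : Prop :=
  ∃ Nc co F S, CEl (P := P) t Nc co 4 z F S ∧ b = 3 ∧ θ F = 0

/-- data of one component; `w` = the number of its poles at the energy 12 -/
structure TD (t : Tops P) (b w : ℕ) (Y : Finset P) (θ : P → ℕ) (B : P → Prop) : Prop where
  b_one : 1 ≤ b
  w_le : w ≤ 1
  Ylev : ∀ y ∈ Y, lev y = 9
  Ycov : ∀ y ∈ Y, ∀ v, y ⋖ v → v ≤ (t : P)
  Yth : ∀ y ∈ Y, θ y = 1
  Ytwo : ∀ y ∈ Y, 2 ≤ nab 8 y
  pend : ∀ x z, x ≤ (t : P) → lev x = 8 → z ⋖ x → (∀ y, z ⋖ y → y = x) →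
    3 ≤ θ x ∨ (θ x = 0 ∧ (Fp x ∨ Qp x)) ∨ (θ x = 1 ∧ (Dp x ∨ (2 ≤ nab 6 x ∧ 2 ≤ nab 7 x)))
  own : ∀ x x' z, x ≠ x' → x ≤ (t : P) → x' ≤ (t : P) → lev x = 8 → lev x' = 8 → z ⋖ x →
    z ⋖ x' → z ∉ Y → (3 ≤ θ x ∧ 3 ≤ θ x') ∨ (1 ≤ θ x ∧ 1 ≤ θ x' ∧ 2 ≤ nab 7 z) ∨
      (∀ l, 5 ≤ l → l ≤ 8 → 10 - l ≤ nab l z) ∨ IsCx t b θ z
  ends : ∀ x ≤ (t : P), lev x = 8 → θ x = 0 → (Win.uc x).card = 1 → Fp x ∨ Qp x
  data : ∀ N : Tops P → Finset P, NatSys N → (∀ s : Tops P, lowPart 8 (s : P) ⊆ N s) →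
    N t = lowPart 8 (t : P) ∪ Y → ∀ θ' B', (∀ x ∈ N t, θ' x = θ x) →
    (∀ x ∈ N t, (B' x ↔ B x)) → CompDataL (unnat N) topOf t 4 b (13 - w) θ' B'
  full : w = 1 → ∀ N : Tops P → Finset P, NatSys N → N t = lowPart 8 (t : P) ∪ Y →
    ∀ f, (∀ n, exq n f = Z {x : {x : P // x ∉ unnat N} // topOf (x : P) = t} 4 n) →
    Pl 12 b 1 f

/-- light components -/
theorem tdLight (h : Win.GoodTo P r 8) (C : Cp.Comp 8 (t : P) lo hi e) :
    TD t 1 0 ∅ (fun x => lev x - 4) (fun _ => False) where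
  b_one := le_rfl
  w_le := Nat.zero_le _
  Ylev := fun y hy => absurd hy (Finset.notMem_empty _)
  Ycov := fun y hy => absurd hy (Finset.notMem_empty _)
  Yth := fun y hy => absurd hy (Finset.notMem_empty _)
  Ytwo := fun y hy => absurd hy (Finset.notMem_empty _)
  pend := fun x z _ hl _ _ => Or.inl (by show 3 ≤ lev x - 4; omega)
  own := fun x x' z _ _ _ hl hl' _ _ _ =>
    Or.inl ⟨by show 3 ≤ lev x - 4; omega, by show 3 ≤ lev x' - 4; omega⟩
  ends := fun x _ hl h0 _ => by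
    have h0' : lev x - 4 = 0 := h0
    omega
  data := by
    intro N HN hlow hN θ' B' hθ hB
    have H := exists_light (t := t) C h.H h.good h.H.gradedBelow (i := 4) (by norm_num)
    refine compL_nat HN H ?_ (fun x _ hx => absurd hx (by simp)) hθ hB 13
    intro x hx
    rw [hN, Finset.union_empty, mem_lowPart] at hx
    exact only_low h x hx.1 hx.2
  full := fun h => absurd h (by norm_num)

/-- above an element which is not below the cell `(4, 4)` -/
lemma rect_extra {Nc : Finset P} {co : P → ℕ × ℕ} (C : Chart (t : P) (fun _ => True) Nc co)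
    {x x' : P} (hx : x ∈ Nc) (hx' : x' ∈ Nc) (hcx : co x = (4, 4)) (hlx' : lev x' = 8)
    (hne : x ≠ x') {l : ℕ} (h5 : 5 ≤ l) (h8 : l ≤ 8) :
    ∃ u, x' ≤ u ∧ lev u = l ∧ ¬ x ≤ u := by
  have hl := C.lev x' hx'
  have hne' : co x' ≠ (4, 4) := fun h => hne (C.inj x hx x' hx' (by rw [hcx, h]))
  have key : 5 ≤ (co x').1 ∨ 5 ≤ (co x').2 := by
    by_contra hcon
    push Not at hcon
    exact hne' (Prod.ext (by simp only; omega) (by simp only; omega))
  rcases key with hk | hk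
  · obtain ⟨u, hu, hcu⟩ := C.low x' hx' (min l (co x').1, l - min l (co x').1)
      ⟨by simp only; omega, by simp only; omega⟩ trivial
    refine ⟨u, ?_, ?_, ?_⟩
    · rw [C.le_iff x' hx' u hu, hcu]
      exact ⟨by simp only; omega, by simp only; omega⟩
    · rw [C.lev u hu, hcu]
      simp only
      omega
    · rw [C.le_iff x hx u hu, hcu, hcx]
      rintro ⟨h1, -⟩
      simp only at h1
      omega
  · obtain ⟨u, hu, hcu⟩ := C.low x' hx' (l - min l (co x').2, min l (co x').2)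
      ⟨by simp only; omega, by simp only; omega⟩ trivial
    refine ⟨u, ?_, ?_, ?_⟩
    · rw [C.le_iff x' hx' u hu, hcu]
      exact ⟨by simp only; omega, by simp only; omega⟩
    · rw [C.lev u hu, hcu]
      simp only
      omega
    · rw [C.le_iff x hx u hu, hcu, hcx]
      rintro ⟨-, h1⟩
      simp only at h1
      omega

lemma nab_extra {l : ℕ} {z x u : P} (hzx : z ≤ x) (hzu : z ≤ u) (hu : lev u = l) (hxu : ¬ x ≤ u) :
    nab l x + 1 ≤ nab l z := by
  classical
  unfold nab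
  have h1 : u ∉ (lv P l).filter (fun y => x ≤ y) := fun h => hxu (mem_filter.mp h).2
  rw [← Finset.card_insert_of_notMem h1]
  refine Finset.card_le_card fun y hy => ?_
  rw [mem_insert] at hy
  rw [mem_filter, mem_lv]
  rcases hy with rfl | hy
  · exact ⟨hu, hzu⟩
  · rw [mem_filter, mem_lv] at hy
    exact ⟨hy.1, hzx.trans hy.2⟩

/-- an element of the first row or column is not junk otherwise -/
lemma not_junk {S : ℕ × ℕ → Prop} {Nc : Finset P} {co : P → ℕ × ℕ} {t' : P}
    (C : Chart t' S Nc co) {x : P} (hx : x ∈ Nc) (h1 : 1 ≤ (co x).1) : x ∉ junk S Nc co := by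
  intro h
  obtain ⟨x1, H, hz⟩ := mem_junk.mp h
  have := (H.tail C hx (mem_jset.mp hz).1).1
  omega

/-- rectangle-like components -/
theorem tdRect (h : Win.GoodTo P r 8) (C : Cp.Comp 8 (t : P) lo hi e)
    (h1 : lo 1 = 0 ∧ hi 1 = 1) (S : RectShape 8 lo hi) :
    ∃ θ B, TD t (hi 4 - lo 4 + 1) 0 ∅ θ B := by
  classical
  have H := h.H
  have hg := h.good
  have hlt : lo 4 < hi 4 := by
    have g1 := C.lo_mono (l := 1) (d := 3) (by norm_num)
    have g2 := C.hi_mono (l := 1) (d := 3) (by norm_num)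
    norm_num at g1 g2
    by_contra hcon
    have g3 := C.lo_le 4 (by norm_num)
    have g4 := shape_lo C S.lo (l := 4) (by omega) 4 (by norm_num)
    have g5 := shape_hi C S.hi (l := 4) (by omega) 4 (by norm_num)
    have g6 := C.lo_le (4 + 4) (by norm_num)
    omega
  obtain ⟨Nc, co, R, -⟩ := exists_rect C H hg H.gradedBelow S (i := 4) (by norm_num) hlt
  have hnop : ∀ x z : P, x ≤ (t : P) → lev x = 8 → (Win.uc x).card = 2 → z ⋖ x →
      (∀ y, z ⋖ y → y = x) → False := fun x z hxt hxl hx2 hzx honly =>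
    rectShape_no_pendant (i := 7) h (by norm_num) t.2 C S hxl hxt hx2 hzx honly
  have hR := R.natTop H.gradedBelow (by norm_num)
  have hmem : ∀ x, x ≤ (t : P) → lev x = 8 → x ∈ Nc := fun x hx hl =>
    R.strip (mem_lowPart.mpr ⟨hx, hl.le⟩)
  have hb := R.b_le
  have hth : ∀ x ∈ Nc, lev x = 8 → thR 4 (hi 4 - lo 4 + 1) Nc co x = 4 ∨
      thR 4 (hi 4 - lo 4 + 1) Nc co x =
        ((co x).1 - (hi 4 - lo 4 + 1 - 1)) + ((co x).2 - 4) := by
    intro x hx hl
    unfold thR
    split_ifs with hj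
    · left; omega
    · right; rfl
  refine ⟨thR 4 (hi 4 - lo 4 + 1) Nc co, fun x => x ∈ Nc ∧ co x = (hi 4 - lo 4 + 1 - 1, 4), ?_⟩
  constructor
  · omega
  · omega
  · exact fun y hy => absurd hy (Finset.notMem_empty _)
  · exact fun y hy => absurd hy (Finset.notMem_empty _)
  · exact fun y hy => absurd hy (Finset.notMem_empty _)
  · exact fun y hy => absurd hy (Finset.notMem_empty _)
  · intro x z hxt hl hzx honly
    left
    have hx := hmem x hxt hl
    have hlc := R.chart.lev x hx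
    rcases hth x hx hl with h2 | h2
    · omega
    · rw [h2]
      by_cases h3 : 1 ≤ (co x).1 ∧ 1 ≤ (co x).2
      · exact (hnop x z hxt hl (chart_inner_uc R.chart H hx h3.1 h3.2) hzx honly).elim
      · omega
  · intro x x' z hne hxt hxt' hl hl' hzx hzx' _
    have hx := hmem x hxt hl
    have hx' := hmem x' hxt' hl'
    have hlc := R.chart.lev x hx
    have hlc' := R.chart.lev x' hx'
    -- the cell (4, 4)
    have h44 : ∀ y ∈ Nc, lev y = 8 → thR 4 (hi 4 - lo 4 + 1) Nc co y = 0 → co y = (4, 4) := by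
      intro y hy hyl h0
      have := R.chart.lev y hy
      rcases hth y hy hyl with h2 | h2
      · omega
      · exact Prod.ext (by simp only; omega) (by simp only; omega)
    have case0 : ∀ y y' : P, y ∈ Nc → y' ∈ Nc → lev y' = 8 → y ≠ y' → z ⋖ y → z ⋖ y' →
        co y = (4, 4) → ∀ l, 5 ≤ l → l ≤ 8 → 10 - l ≤ nab l z := by
      intro y y' hy hy' hly' hyy hzy hzy' hc l h5 h8
      obtain ⟨u, hu1, hu2, hu3⟩ := rect_extra R.chart hy hy' hc hly' hyy h5 h8
      have h2 := nab_extra hzy.1.le (hzy'.1.le.trans hu1) hu2 hu3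
      have h3 := nab_chart R.chart hy l
      have h4 := card_cellsAt_true (l := l) (p := co y) (by rw [hc]; simp only; omega)
      rw [hc] at h3 h4
      simp only at h4
      omega
    by_cases h0 : thR 4 (hi 4 - lo 4 + 1) Nc co x = 0
    · right; right; left
      exact case0 x x' hx hx' hl' hne hzx hzx' (h44 x hx hl h0)
    by_cases h0' : thR 4 (hi 4 - lo 4 + 1) Nc co x' = 0
    · right; right; left
      exact case0 x' x hx' hx hl (Ne.symm hne) hzx' hzx (h44 x' hx' hl' h0')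
    right; left
    refine ⟨by omega, by omega, ?_⟩
    by_cases h3 : 1 ≤ (co x).1 ∧ 1 ≤ (co x).2
    · exact (chart_inner_nab R.chart hx h3.1 h3.2 (k := 7) (by norm_num) (by omega)).trans
        (nab_mono hzx.1.le)
    by_cases h3' : 1 ≤ (co x').1 ∧ 1 ≤ (co x').2
    · exact (chart_inner_nab R.chart hx' h3'.1 h3'.2 (k := 7) (by norm_num) (by omega)).trans
        (nab_mono hzx'.1.le)
    -- two ends
    have key : ∀ y ∈ Nc, lev y = 8 → ¬ (1 ≤ (co y).1 ∧ 1 ≤ (co y).2) → ∃ u ∈ Nc, y ≤ u ∧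
        lev u = 7 ∧ ((co y = (0, 8) ∧ co u = (0, 7)) ∨ (co y = (8, 0) ∧ co u = (7, 0))) := by
      intro y hy hyl hc
      have hly := R.chart.lev y hy
      have hc2 : co y = (0, 8) ∨ co y = (8, 0) := by
        rcases Nat.eq_zero_or_pos (co y).1 with h4 | h4
        · exact Or.inl (Prod.ext h4 (by simp only; omega))
        · have : (co y).2 = 0 := by
            by_contra h5
            exact hc ⟨h4, by omega⟩
          exact Or.inr (Prod.ext (by simp only; omega) this)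
      rcases hc2 with h4 | h4
      · obtain ⟨u, hu, hcu⟩ := R.chart.low y hy (0, 7) (by rw [h4]; decide) trivial
        exact ⟨u, hu, (R.chart.le_iff y hy u hu).mpr (by rw [h4, hcu]; decide), by
          rw [R.chart.lev u hu, hcu]; rfl, Or.inl ⟨h4, hcu⟩⟩
      · obtain ⟨u, hu, hcu⟩ := R.chart.low y hy (7, 0) (by rw [h4]; decide) trivial
        exact ⟨u, hu, (R.chart.le_iff y hy u hu).mpr (by rw [h4, hcu]; decide), by
          rw [R.chart.lev u hu, hcu]; rfl, Or.inr ⟨h4, hcu⟩⟩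
    obtain ⟨u, hu, hxu, hul, hc⟩ := key x hx hl h3
    obtain ⟨u', hu', hxu', hul', hc'⟩ := key x' hx' hl' h3'
    refine two_le_nab (hzx.1.le.trans hxu) (hzx'.1.le.trans hxu') hul hul' ?_
    rintro rfl
    refine hne (R.chart.inj x hx x' hx' ?_)
    rcases hc with ⟨c1, c2⟩ | ⟨c1, c2⟩ <;> rcases hc' with ⟨c1', c2'⟩ | ⟨c1', c2'⟩
    · rw [c1, c1']
    · rw [c2] at c2'
      exact absurd c2' (by decide)
    · rw [c2] at c2'
      exact absurd c2' (by decide)
    · rw [c1, c1']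
  · intro x hxt hl h0 hu
    exfalso
    have hx := hmem x hxt hl
    have hlc := R.chart.lev x hx
    rcases hth x hx hl with h2 | h2
    · omega
    · have h3 : 1 ≤ (co x).1 ∧ 1 ≤ (co x).2 := by omega
      have := chart_inner_uc R.chart H hx h3.1 h3.2
      omega
  · intro N HN hlow hN θ' B' hθ hB
    refine compL_nat HN hR ?_ ?_ hθ hB 13
    · intro x hx
      rw [hN, Finset.union_empty] at hx
      exact mem_natR.mpr (Or.inl (R.strip hx))
    · rintro x - ⟨hx, hcx⟩
      rw [hN, Finset.union_empty, mem_lowPart]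
      refine ⟨R.chart.le_t x hx, ?_⟩
      rw [R.chart.lev x hx, hcx]
      simp only
      omega
  · exact fun h => absurd h (by norm_num)

end Pool.Agent.GaussPoset.J8
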