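import Pool.Agent.W_448j8_h67.JaJ

/-!
The components at the window 4, level 8: stair-like components (MP_448cb3_co).
-/

namespace Pool.Agent.GaussPoset.J8

set_option linter.unusedSectionVars false

open Polynomial Finset Dd Wd Cl

universe u

variable {P : Type u} [Fintype P] [PartialOrder P] [DecidableEq P] {r : ℕ}
variable {t : Tops P} {lo hi : ℕ → ℕ} {e : ℕ → ℕ → P}

/-- the own elements below the fold end and its neighbour -/
noncomputable def Ys (Nc : Finset P) (co : P → ℕ × ℕ) : Finset P := by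
  classical exact univ.filter (fun y => ∃ F ∈ Nc, co F = (4, 4) ∧ y ⋖ F ∧
    ∃ G ∈ Nc, co G = (3, 5) ∧ y ⋖ G)

lemma mem_Ys {Nc : Finset P} {co : P → ℕ × ℕ} {y : P} : y ∈ Ys Nc co ↔
    ∃ F ∈ Nc, co F = (4, 4) ∧ y ⋖ F ∧ ∃ G ∈ Nc, co G = (3, 5) ∧ y ⋖ G := by
  classical
  unfold Ys
  simp

/-- thresholds of a stair with the additional elements -/
noncomputable def thY (Nc : Finset P) (co : P → ℕ × ℕ) (x : P) : ℕ := by
  classical exact if x ∈ Ys Nc co then 1 else thS 4 Nc co x

section

variable {Nc : Finset P} {co : P → ℕ × ℕ}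

lemma Ys_lev (C : Chart (t : P) (fun c => c.1 ≤ c.2) Nc co) (H : Gr P r) {y : P}
    (hy : y ∈ Ys Nc co) : lev y = 9 := by
  obtain ⟨F, hF, hcF, hyF, -⟩ := mem_Ys.mp hy
  have h1 := (H.covBy_iff.mp hyF).2
  rw [C.lev F hF, hcF] at h1
  simp only at h1
  omega

lemma thY_low (C : Chart (t : P) (fun c => c.1 ≤ c.2) Nc co) (H : Gr P r) {x : P}
    (hl : lev x ≤ 8) : thY Nc co x = thS 4 Nc co x := by
  unfold thY
  rw [if_neg]
  intro h
  have := Ys_lev C H h
  omega

/-- the value on the level 8 -/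
lemma thY_eq (C : Chart (t : P) (fun c => c.1 ≤ c.2) Nc co) (H : Gr P r) {x : P}
    (hl : lev x = 8) : thY Nc co x = 4 ∨
      thY Nc co x = ((co x).1 - 4) + ((co x).2 - 4) := by
  rw [thY_low C H hl.le]
  unfold thS
  split_ifs with hj
  · left; omega
  · right; rfl

lemma thY_F (C : Chart (t : P) (fun c => c.1 ≤ c.2) Nc co) (H : Gr P r) {x : P} (hx : x ∈ Nc)
    (hc : co x = (4, 4)) : thY Nc co x = 0 := by
  have hl := C.lev x hx
  rw [hc] at hl
  rw [thY_low C H (by rw [hl]; decide)]
  unfold thS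
  rw [if_neg (not_junk C hx (by rw [hc]; norm_num)), hc]
  rfl

/-- the profile of the fold end -/
lemma fold_prof (C : Chart (t : P) (fun c => c.1 ≤ c.2) Nc co) {x : P} (hx : x ∈ Nc)
    (hc : co x = (4, 4)) : Fp x := by
  have q : ∀ l, l ≤ 8 → nab l x + (l - 4) = min (l / 2) 4 + 1 := by
    intro l hl
    have h3 := nab_chart C hx l
    have h4 := card_cellsAt_shift (l := l) (p := co x) (by rw [hc]) (by rw [hc]; exact hl)
    rw [hc] at h3 h4
    simp only at h4
    rw [← h3] at h4
    exact h4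
  have q4 := q 4 (by norm_num)
  have q5 := q 5 (by norm_num)
  have q6 := q 6 (by norm_num)
  have q7 := q 7 (by norm_num)
  norm_num at q4 q5 q6 q7
  exact ⟨by omega, by omega, by omega, by omega⟩

/-- own elements of level 9 -/
theorem stair_own (h : Win.GoodTo P r 8) (R : StairNat 8 4 t Nc co)
    (hu : ∀ x ∈ Nc, lev x = 8 → (Win.uc x).card = 1 → co x = (4, 4) ∨ co x = (0, 8))
    {x x' z : P} (hx : x ∈ Nc) (hx' : x' ∈ Nc) (hl : lev x = 8) (hl' : lev x' = 8)
    (hne : x ≠ x') (hzx : z ⋖ x) (hzx' : z ⋖ x') (hz : z ∉ Ys Nc co) (hc : co x = (4, 4)) :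
    IsCx t 3 (thY Nc co) z := by
  classical
  have H := h.H
  have C := R.chart
  have hlz : lev z = 7 + 2 := by
    have := (H.covBy_iff.mp hzx).2
    omega
  have huc : ∀ y, z ⋖ y → y = x ∨ y = x' := fun y hy => uc_pair H hzx hzx' hne hy
  rcases (Win.near_level' (i := 7) h (by norm_num)).1 z x x' hlz hzx hzx' hne with
    h6 | ⟨-, h6, -⟩
  · exfalso
    obtain ⟨u, hu1, hu2⟩ := Win.exists_of_ucv (v := x) (v' := x') (by rw [h6]; exact one_pos)
    have huN := C.up x hx u hu1.1.le
    have p1 := (chart_cov C H hx huN).mp hu1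
    have p2 := (chart_cov C H hx' huN).mp hu2
    have hm : (co u).1 ≤ (co u).2 := C.mem u huN
    have hm' : (co x').1 ≤ (co x').2 := C.mem x' hx'
    rw [hc] at p1
    have hne' : co x' ≠ (4, 4) := fun hh => hne (C.inj x hx x' hx' (by rw [hc, hh]))
    have hcu : co u = (3, 4) := by
      unfold Prd at p1
      simp only at p1
      exact Prod.ext (by simp only; omega) (by simp only; omega)
    rw [hcu] at p2
    have hcx' : co x' = (3, 5) := by
      unfold Prd at p2
      simp only at p2
      rcases p2 with p2 | p2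
      · exact absurd (Prod.ext p2.1 p2.2) hne'
      · exact Prod.ext p2.1 p2.2
    exact hz (mem_Ys.mpr ⟨x, hx, hc, hzx, x', hx', hcx', hzx'⟩)
  · have hcx' : co x' = (0, 8) := by
      rcases hu x' hx' hl' h6 with h7 | h7
      · exact absurd (C.inj x hx x' hx' (by rw [hc, h7])) hne
      · exact h7
    exact ⟨Nc, co, x, x', ⟨C, R.strip, hx, hx', hc, hcx', hzx, hzx', huc⟩, rfl,
      thY_F C H hx hc⟩

/-- the data of a stair -/
theorem stair_data (h : Win.GoodTo P r 8) (R : StairNat 8 4 t Nc co) {N : Tops P → Finset P}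
    (HN : NatSys N) (hlow : ∀ s : Tops P, lowPart 8 (s : P) ⊆ N s)
    (hN : N t = lowPart 8 (t : P) ∪ Ys Nc co) {θ' : P → ℕ} {B' : P → Prop}
    (hθ : ∀ x ∈ N t, θ' x = thY Nc co x)
    (hB : ∀ x ∈ N t, (B' x ↔ x ∈ Nc ∧ co x = (4, 4))) :
    CompDataL (unnat N) topOf t 4 3 13 θ' B' := by
  classical
  have H := h.H
  have C := R.chart
  have hS := R.natTop H.gradedBelow (by norm_num) (by norm_num)
  have hbase : ∀ x ∈ natS Nc co, (x ∈ Nc ∧ co x = (4, 4)) → x ∈ N t := by
    rintro x - ⟨hx, hcx⟩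
    rw [hN, mem_union, mem_lowPart]
    refine Or.inl ⟨C.le_t x hx, ?_⟩
    rw [C.lev x hx, hcx]
    decide
  have hN' : ∀ x, x ∈ N t ↔ x ∈ lowPart 8 (t : P) ∨ x ∈ Ys Nc co := by
    intro x
    rw [hN, mem_union]
  have hlN : ∀ x ∈ lowPart 8 (t : P), x ∈ natS Nc co := fun x hx =>
    mem_natS.mpr (Or.inl (R.strip hx))
  by_cases hsub : ∀ y ∈ Ys Nc co, y ∈ natS Nc co
  · -- no additional element
    refine compL_nat HN hS ?_ hbase ?_ hB 13
    · intro x hx
      rcases (hN' x).mp hx with h1 | h1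
      · exact hlN x h1
      · exact hsub x h1
    · intro x hx
      rw [hθ x hx]
      unfold thY
      split_ifs with hY
      · -- the natural element
        obtain ⟨F, hF, hcF, hyF, G, hG, hcG, hyG⟩ := mem_Ys.mp hY
        have hxN : x ∈ Nc := by
          rcases mem_natS.mp (hsub x hY) with h1 | h1
          · exact h1
          · exfalso
            obtain ⟨x1, E1, hz⟩ := mem_junk.mp h1
            rcases (mem_jset.mp hz).2 F hyF.1.le with h2 | h2
            · have h3 := (C.le_iff F hF x1 E1.mem).mp h2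
              have h4 := E1.lt F hF (by rw [hcF]; norm_num)
              have h5 : (co x1).2 ≤ (co F).2 := h3.2
              omega
            · have h3 := (C.le_iff x1 E1.mem F hF).mp h2
              have h4 : (co F).1 ≤ (co x1).1 := h3.1
              rw [hcF, E1.fst] at h4
              exact absurd h4 (by norm_num)
        have p1 := (chart_cov C H hxN hF).mp hyF
        have p2 := (chart_cov C H hxN hG).mp hyG
        rw [hcF] at p1
        rw [hcG] at p2
        have hcx : co x = (4, 5) := by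
          unfold Prd at p1 p2
          simp only at p1 p2
          exact Prod.ext (by simp only; omega) (by simp only; omega)
        unfold thS
        rw [if_neg (not_junk C hxN (by rw [hcx]; norm_num)), hcx]
        rfl
      · rfl
  · -- one additional twin
    push Not at hsub
    obtain ⟨y2, hy2, hy2N⟩ := hsub
    obtain ⟨F, hF, hcF, hyF, G, hG, hcG, hyG⟩ := mem_Ys.mp hy2
    have hy2Nc : y2 ∉ Nc := fun h => hy2N (mem_natS.mpr (Or.inl h))
    obtain ⟨y1, hy1, hc1, hy1F, hy1G, hy12⟩ := max_pair C R.max H hy2Nc hF hG hyF hyG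
      (s := 3) (c := 4) hcF hcG (by norm_num)
    have hFG : F ≠ G := by
      rintro rfl
      rw [hcF] at hcG
      exact absurd hcG (by decide)
    have hup12 : ∀ y, y1 < y ↔ y2 < y := by
      refine up_of_cov fun w => ?_
      constructor
      · intro hw
        rcases uc_pair H hy1F hy1G hFG hw with h1 | h1
        · rw [h1]; exact hyF
        · rw [h1]; exact hyG
      · intro hw
        rcases uc_pair H hyF hyG hFG hw with h1 | h1
        · rw [h1]; exact hy1F
        · rw [h1]; exact hy1G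
    have hlF : lev F = 8 := by rw [C.lev F hF, hcF]; rfl
    have hl1 : lev y1 = 9 := by
      have := (H.covBy_iff.mp hy1F).2
      omega
    have hY1 : y1 ∈ Ys Nc co := mem_Ys.mpr ⟨F, hF, hcF, hy1F, G, hG, hcG, hy1G⟩
    have hY2 : ∀ y ∈ Ys Nc co, y = y1 ∨ y = y2 := by
      intro y hy
      obtain ⟨F', hF', hcF', hyF', -⟩ := mem_Ys.mp hy
      have hFF : F' = F := C.inj F' hF' F hF (by rw [hcF', hcF])
      rw [hFF] at hyF'
      by_contra hcon
      push Not at hcon
      exact Win.dc_three H hyF' hy1F hyF hcon.1 hcon.2 hy12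
    have hth1 : thS 4 Nc co y1 = 1 := by
      unfold thS
      rw [if_neg (not_junk C hy1 (by rw [hc1]; norm_num)), hc1]
      rfl
    have hfp := fold_prof C hF hcF
    obtain ⟨s1, s2⟩ := fold_sum hy1F.1 hlF hfp.2.1 hfp.2.2.1 hfp.2.2.2
    have hBy2 : y2 ∈ N t := (hN' y2).mpr (Or.inr hy2)
    refine compL_twin HN (i := 4) (j := 8) (by norm_num) hlow hS (y1 := y1) (y2 := y2) ?_ ?_
      hbase ((hN' y1).mpr (Or.inr hY1)) hBy2 (mem_natS.mpr (Or.inl hy1)) hy2N ?_ ?_ ?_ ?_ ?_ ?_
    · intro x hx
      rcases (hN' x).mp hx with h1 | h1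
      · exact Or.inl (hlN x h1)
      · rcases hY2 x h1 with h2 | h2
        · rw [h2]; exact Or.inl (mem_natS.mpr (Or.inl hy1))
        · exact Or.inr h2
    · intro x hx hl
      exact hlN x (mem_lowPart.mpr ⟨hx, hl⟩)
    · intro x hx hne
      rw [hθ x hx]
      unfold thY
      split_ifs with hY
      · rcases hY2 x hY with h2 | h2
        · rw [h2, hth1]
        · exact absurd h2 hne
      · rfl
    · rw [hθ y2 hBy2]
      unfold thY
      rw [if_pos hy2]
    · intro x hx _
      exact hB x hx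
    · intro hb
      exact hy2Nc ((hB y2 hBy2).mp hb).1
    · refine ⟨hy12, hup12, ?_, ?_, ?_, ?_, ?_⟩
      · simp only [hy12, if_false]
        exact hth1.ge
      · simp only [hy12, if_false, if_true]
        exact hth1.symm
      · simp only [hy12, if_false]
        rw [hth1, hl1]
        norm_num
      · simp only [hy12, if_false, hth1]
        omega
      · simp only [hy12, if_false, hth1]
        omega
    · rw [hl1]; norm_num

end

end Pool.Agent.GaussPoset.J8
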