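import Pool.Agent.W_448j8_h67.JaN

/-!
Level 8, window 4: the first steps of the ladder (MP_448cb3_co).
-/

namespace Pool.Agent.GaussPoset.J8

set_option linter.unusedSectionVars false

open Polynomial Finset Dd Wd Cl

universe u

variable {P : Type u} [Fintype P] [PartialOrder P] [DecidableEq P] {r : ℕ}

/-- leading terms of one sign exclude the elements of a cost -/
theorem Lad.step {i n0 : ℕ} {R : Finset P} {b : Tops P → ℕ} {θ : P → ℕ} {B : P → Prop}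
    (L : Lad i n0 R b θ B) (hq : IsGaussian P) (hsum : ∑ t, b t = (lv P i).card)
    {n a : ℕ} (hn : n < n0) (hcost : ∀ z ∈ bdR R, n ≤ cst i (hcan R θ) z)
    (hLt : ∀ z ∈ bdR R, cst i (hcan R θ) z = n → 1 ≤ (lv P i).card ∧
      Lt i (hcan R θ) z = X ^ a * (1 + X) ^ ((lv P i).card - 1)) :
    ∀ z ∈ bdR R, cst i (hcan R θ) z ≠ n := by
  classical
  intro z hz hzn
  have h1 := L.farT.dvd_lead (n := n) hn hcost
  rw [hsum] at h1
  have h2 := dvd_Z hq i n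
  have h3 := dvd_sub h2 h1
  rw [sub_sub_cancel] at h3
  set S := (bdR R).filter (fun z => cst i (hcan R θ) z = n) with hS
  have hzS : z ∈ S := mem_filter.mpr ⟨hz, hzn⟩
  have h4 : Lv (lv P i).card (∑ z ∈ S, Lt i (hcan R θ) z) (∑ _z ∈ S, (-1) ^ a) := by
    refine Lv.sum S fun y hy => ?_
    obtain ⟨hy1, hy2⟩ := mem_filter.mp hy
    rw [(hLt y hy1 hy2).2]
    exact Lv.mono _ _
  have h5 := h4.eq_zero (hLt z hz hzn).1 h3
  rw [Finset.sum_const, nsmul_eq_mul] at h5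
  have h6 : (S.card : ℤ) ≠ 0 := by
    have := Finset.card_pos.mpr ⟨z, hzS⟩
    omega
  exact mul_ne_zero h6 (pow_ne_zero _ (by norm_num)) h5

section

variable {lo hi : Tops P → ℕ → ℕ} {e : Tops P → ℕ → ℕ → P} {w : Tops P → ℕ}
  {Y : Tops P → Finset P} {θ : Tops P → P → ℕ} {B : Tops P → P → Prop}

/-- the cost of a (C) element -/
lemma cx_cost (hgr : GradedBelow P) {t : Tops P} {b : ℕ} {θ : P → ℕ} {h : P → ℕ} {z : P}
    (h0 : h z = 1) (hx : IsCx t b θ z) : cst 4 h z = 11 := by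
  obtain ⟨Nc, co, F, S, C, -⟩ := hx
  have h1 := C.cst_eq hgr (by norm_num)
  have h2 : hh 4 = 1 := rfl
  rw [h2] at h1
  rw [cst_ct h0]
  have h3 : E0 4 = 11 := by decide +kernel
  rw [← h3]
  exact h1

lemma lt_one {h : P → ℕ} {z : P} {a b : ℕ} (hh : h z = 1) (h4 : nab 4 z = a + 1)
    (h5 : nab 5 z = a) : 1 ≤ (lv P 4).card ∧
      Lt 4 h z = X ^ (below P 4 + (a + 1)) * (1 + X) ^ ((lv P 4).card - 1) := by
  have hB : a + 1 ≤ (lv P 4).card := by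
    have := nab_le z 4
    omega
  refine ⟨by omega, ?_⟩
  unfold Lt
  rw [nst_one hh, hh, h4, h5]
  congr 2
  omega

/-- no pendants with the profile of a quadric or of `E7` -/
lemma C8.no5 (W : C8 P r lo hi e w Y θ B) : ∀ z ∈ bdR (unnat (N8 Y)), cst 4 (h8 Y θ) z ≠ 5 := by
  refine Lad.step W.lad W.K.gt.H.gauss W.sum_b (a := below P 4 + (1 + 1)) (by norm_num) ?_ ?_
  · intro z hz
    show 5 ≤ cst 4 (h8 Y θ) z
    rcases W.kind hz with h | ⟨-, h, -⟩ | ⟨-, h, -⟩ | ⟨-, h, -⟩ | ⟨-, h, -⟩ | ⟨t, g, h⟩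
    · omega
    · omega
    · omega
    · omega
    · omega
    · rw [cx_cost W.K.gt.H.gradedBelow g h]
      norm_num
  · intro z hz hc
    have hc' : cst 4 (h8 Y θ) z = 5 := hc
    rcases W.kind hz with h | ⟨g, h, h4, h5⟩ | ⟨-, h, -⟩ | ⟨-, h, -⟩ | ⟨-, h, -⟩ | ⟨t, g, h⟩
    · omega
    · exact lt_one (b := 0) g h4 h5
    · omega
    · omega
    · omega
    · rw [cx_cost W.K.gt.H.gradedBelow g h] at hc'
      omega

/-- no pendants below fold ends -/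
lemma C8.no7 (W : C8 P r lo hi e w Y θ B) : ∀ z ∈ bdR (unnat (N8 Y)), cst 4 (h8 Y θ) z ≠ 7 := by
  refine Lad.step W.lad W.K.gt.H.gauss W.sum_b (a := below P 4 + (2 + 1)) (by norm_num) ?_ ?_
  · intro z hz
    show 7 ≤ cst 4 (h8 Y θ) z
    have h0 := W.no5 z hz
    rcases W.kind hz with h | ⟨-, h, -⟩ | ⟨-, h, -⟩ | ⟨-, h, -⟩ | ⟨-, h, -⟩ | ⟨t, g, h⟩
    · omega
    · exact absurd h h0
    · omega
    · omega
    · omega
    · rw [cx_cost W.K.gt.H.gradedBelow g h]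
      norm_num
  · intro z hz hc
    have hc' : cst 4 (h8 Y θ) z = 7 := hc
    rcases W.kind hz with h | ⟨-, h, -⟩ | ⟨g, h, h4, h5⟩ | ⟨-, h, -⟩ | ⟨-, h, -⟩ | ⟨t, g, h⟩
    · omega
    · omega
    · exact lt_one (b := 0) g h4 h5
    · omega
    · omega
    · rw [cx_cost W.K.gt.H.gradedBelow g h] at hc'
      omega

/-- the remaining kinds -/
lemma C8.kind' (W : C8 P r lo hi e w Y θ B) {z : P} (hz : z ∈ bdR (unnat (N8 Y))) :
    13 ≤ cst 4 (h8 Y θ) z ∨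
    (h8 Y θ z = 2 ∧ cst 4 (h8 Y θ) z = 12 ∧ nab 4 z = 2 ∧ nab 6 z = 2) ∨
    (h8 Y θ z = 1 ∧ cst 4 (h8 Y θ) z = 12 ∧ nab 4 z = 4 ∧ nab 5 z = 3) ∨
    (h8 Y θ z = 1 ∧ cst 4 (h8 Y θ) z = 11 ∧ ∃ t, IsCx t (b8 lo hi t) (θ t) z) := by
  have h5 := W.no5 z hz
  have h7 := W.no7 z hz
  rcases W.kind hz with h | ⟨-, h, -⟩ | ⟨-, h, -⟩ | ⟨g, h, h4, h6⟩ | ⟨g, h, h4, h6⟩ | ⟨t, g, h⟩
  · exact Or.inl h
  · exact absurd h h5
  · exact absurd h h7
  · exact Or.inr (Or.inl ⟨g, h, h4, h6⟩)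
  · exact Or.inr (Or.inr (Or.inl ⟨g, h, h4, h6⟩))
  · exact Or.inr (Or.inr (Or.inr ⟨g, cx_cost W.K.gt.H.gradedBelow g h, t, h⟩))

end

end Pool.Agent.GaussPoset.J8
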