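import Pool.Agent.W_448dd_h67.DdH
import Pool.Agent.W_448rr_h67.RrA
import Pool.Agent.W_448tw_h76.TwF
import Pool.Agent.W_448s8_h76.SaT

/-!
Cleanness of the up-sets of a natural set with one additional twin (MP_448cb3_co).
-/

namespace Pool.Agent.GaussPoset.J8

set_option linter.unusedSectionVars false

open Polynomial Finset

universe u

variable {P : Type u} [Fintype P] [PartialOrder P] [DecidableEq P]

/-- cleanness of the up-sets of a natural set -/
theorem natClean {i b : ℕ} {t : Tops P} {N : Finset P} {θ : P → ℕ} {B : P → Prop}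
    (H : NatTop i t b N θ B) {M : Tops P → Finset P} (HM : NatSys M) (hM : M t = N)
    (hMlow : ∀ x ∈ unnat M, i < lev x) {U : Finset P} (hUN : U ⊆ N)
    (hup : ∀ x ∈ U, ∀ y, x ≤ y → y ∈ U) (hlow : ∀ x ∈ N, lev x ≤ i → x ∈ U)
    (hB : ∀ x ∈ N, B x → x ∈ U) (n : ℕ) : (1 + X : ℤ[X]) ^ b ∣ Z {x : P // x ∈ U} i n := by
  classical
  have hC := H.data M HM hM θ (fun x => x ∈ N ∧ B x) (fun _ _ => rfl)
    (fun x hx => ⟨fun h => h.2, fun h => ⟨hx, h⟩⟩)
  have hNM : ∀ {x}, x ∈ N → x ∉ unnat M := fun {x} hx h => mem_unnat.mp h t (by rw [hM]; exact hx)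
  have hmemN : ∀ {x}, x ∉ unnat M → topOf x = t → x ∈ N := fun {x} hx h => by
    rw [← hM]; exact HM.mem_iff.mpr ⟨hx, h⟩
  have hgood : Good i (unnat M) (fun x => x ∈ N ∧ B x) (unnat M ∪ (N \ U)) := by
    refine ⟨?_, subset_union_left, ?_, ?_⟩
    · intro x y hxy hy
      rw [mem_union, mem_sdiff] at hy ⊢
      by_cases hx : x ∈ unnat M
      · exact Or.inl hx
      · right
        rcases hy with hy | hy
        · exact absurd (HM.lower x y hxy hy) hx
        · have h1 : topOf x = t := by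
            rw [HM.cp x y hxy hx]
            exact HM.topOf_eq (by rw [hM]; exact hy.1)
          exact ⟨hmemN hx h1, fun h => hy.2 (hup x h y hxy)⟩
    · intro x hx
      rw [mem_union, mem_sdiff] at hx
      rcases hx with hx | hx
      · exact hMlow x hx
      · by_contra hcon
        exact hx.2 (hlow x hx.1 (by omega))
    · rintro x hx ⟨h1, h2⟩
      rw [mem_union, mem_sdiff] at hx
      rcases hx with hx | hx
      · exact hNM h1 hx
      · exact hx.2 (hB x h1 h2)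
  have h1 := hC.clean _ hgood inferInstance
  have e : {x : {x : P // x ∉ unnat M ∪ (N \ U)} // topOf (x : P) = t} ≃o {x : P // x ∈ U} :=
    { toFun := fun x => ⟨x.1.1, by
        have h2 := x.1.2
        rw [mem_union, mem_sdiff, not_or] at h2
        by_contra h3
        exact h2.2 ⟨hmemN h2.1 x.2, h3⟩⟩
      invFun := fun x => ⟨⟨x.1, by
        rw [mem_union, mem_sdiff, not_or]
        exact ⟨hNM (hUN x.2), fun h => h.2 x.2⟩⟩, HM.topOf_eq (by rw [hM]; exact hUN x.2)⟩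
      left_inv := fun x => rfl
      right_inv := fun x => rfl
      map_rel_iff' := Iff.rfl }
  rw [W_iso e] at h1
  exact dvd_Z_of_dvd_W h1 n

section Tw

variable {i n0 : ℕ} {p : ℤ[X]} {N : Finset P} {B : P → Prop} {θ : P → ℕ} {y1 y2 : P}

/-- covers in an up-set -/
lemma covSub {V : Finset P} (hup : ∀ x ∈ V, ∀ y, x ≤ y → y ∈ V) {x y : {x // x ∈ V}} :
    x ⋖ y ↔ (x : P) ⋖ (y : P) := by
  constructor
  · intro h
    refine ⟨h.1, fun w h1 h2 => ?_⟩
    exact h.2 (c := ⟨w, hup _ x.2 w h1.le⟩) h1 h2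
  · intro h
    exact ⟨h.1, fun w h1 h2 => h.2 h1 h2⟩

lemma levSub {V : Finset P} (hup : ∀ x ∈ V, ∀ y, x ≤ y → y ∈ V) (x : {x // x ∈ V}) :
    lev x = lev (x : P) :=
  lev_subtype (p := fun x => x ∈ V) (fun x y hxy hx => hup x hx y hxy) x

/-- exchange of twins -/
lemma exch {V : Finset P} (hup : ∀ x ∈ V, ∀ y, x ≤ y → y ∈ V) (h2 : y2 ∈ V) (h1 : y1 ∉ V)
    (up : ∀ y, y1 < y ↔ y2 < y) (hnb : ∀ y ∈ V, y ≤ y2 → y = y2) (hnb1 : ∀ y ∈ V, ¬ y ≤ y1) :
    Nonempty ({x // x ∈ V} ≃o {x // x ∈ insert y1 (V.erase y2)}) := by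
  classical
  let f : {x // x ∈ V} → {x // x ∈ insert y1 (V.erase y2)} := fun x =>
    if h : (x : P) = y2 then ⟨y1, mem_insert_self _ _⟩ else
      ⟨(x : P), mem_insert_of_mem (mem_erase.mpr ⟨h, x.2⟩)⟩
  have fc : ∀ x : {x // x ∈ V}, (x : P) = y2 → (f x : P) = y1 := by
    intro x hx
    simp only [f, dif_pos hx]
  have fn : ∀ x : {x // x ∈ V}, (x : P) ≠ y2 → (f x : P) = x := by
    intro x hx
    simp only [f, dif_neg hx]
  have hle : ∀ x y, f x ≤ f y ↔ x ≤ y := by
    intro x y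
    have e1 : f x ≤ f y ↔ (f x : P) ≤ (f y : P) := Iff.rfl
    have e2 : x ≤ y ↔ (x : P) ≤ (y : P) := Iff.rfl
    rw [e1, e2]
    by_cases hx : (x : P) = y2
    · rw [fc x hx]
      by_cases hy : (y : P) = y2
      · rw [fc y hy, hx, hy]
        simp
      · rw [fn y hy, hx]
        have hn1 : (y : P) ≠ y1 := fun h => h1 (h ▸ y.2)
        constructor
        · intro h
          exact ((up _).mp (lt_of_le_of_ne h hn1.symm)).le
        · intro h
          exact ((up _).mpr (lt_of_le_of_ne h (Ne.symm hy))).le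
    · rw [fn x hx]
      by_cases hy : (y : P) = y2
      · rw [fc y hy, hy]
        constructor
        · intro h
          exact absurd h (hnb1 x x.2)
        · intro h
          exact absurd (hnb x x.2 h) hx
      · rw [fn y hy]
  have hbij : Function.Bijective f := by
    constructor
    · intro x y hxy
      exact le_antisymm ((hle x y).mp hxy.le) ((hle y x).mp hxy.ge)
    · intro y
      rcases mem_insert.mp y.2 with h | h
      · exact ⟨⟨y2, h2⟩, Subtype.ext (by rw [fc _ rfl, h])⟩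
      · rw [mem_erase] at h
        exact ⟨⟨y, h.2⟩, Subtype.ext (by rw [fn _ h.1])⟩
  exact ⟨{ Equiv.ofBijective f hbij with map_rel_iff' := fun {x y} => hle x y }⟩

/-- one of the twins is missing -/
lemma brClean (hN : ∀ x ∈ N, ∀ y, x ≤ y → y ∈ N) (h1 : y1 ∈ N) (h2 : y2 ∉ N)
    (up : ∀ y, y1 < y ↔ y2 < y)
    (hclean : ∀ U ⊆ N, (∀ x ∈ U, ∀ y, x ≤ y → y ∈ U) → (∀ x ∈ N, lev x ≤ i → x ∈ U) →
      (∀ x ∈ N, B x → x ∈ U) → ∀ n < n0, p ∣ Z {x : P // x ∈ U} i n)
    {V : Finset P} (hV : V ⊆ insert y2 N) (hup : ∀ x ∈ V, ∀ y, x ≤ y → y ∈ V)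
    (hlow : ∀ x ∈ N, lev x ≤ i → x ∈ V) (hBV : ∀ x ∈ N, B x → x ∈ V)
    (hbr : y1 ∉ V ∨ y2 ∉ V) : ∀ n < n0, p ∣ Z {x : P // x ∈ V} i n := by
  classical
  by_cases hy2 : y2 ∈ V
  swap
  · exact hclean V (fun x hx => by
      rcases mem_insert.mp (hV hx) with h | h
      · exact absurd (h ▸ hx) hy2
      · exact h) hup hlow hBV
  have hy1 : y1 ∉ V := hbr.resolve_right (fun h => h hy2)
  have hnb : ∀ y ∈ V, y ≤ y2 → y = y2 := by
    intro y hy hyy
    rcases mem_insert.mp (hV hy) with h | h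
    · exact h
    · exact absurd (hN y h y2 hyy) h2
  obtain ⟨e⟩ := exch hup hy2 hy1 up hnb (fun y hy h => hy1 (hup y hy y1 h))
  intro n hn
  rw [Z_iso e]
  refine hclean _ ?_ ?_ ?_ ?_ n hn
  · intro x hx
    rcases mem_insert.mp hx with h | h
    · rw [h]; exact h1
    · rw [mem_erase] at h
      exact (mem_insert.mp (hV h.2)).resolve_left h.1
  · intro x hx y hxy
    rcases mem_insert.mp hx with h | h
    · subst h
      rcases eq_or_lt_of_le hxy with h3 | h3
      · rw [← h3]; exact mem_insert_self _ _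
      · have h4 := (up y).mp h3
        exact mem_insert_of_mem (mem_erase.mpr ⟨h4.ne', hup _ hy2 y h4.le⟩)
    · rw [mem_erase] at h
      refine mem_insert_of_mem (mem_erase.mpr ⟨?_, hup x h.2 y hxy⟩)
      rintro rfl
      exact h.1 (hnb x h.2 hxy)
  · intro x hx hl
    refine mem_insert_of_mem (mem_erase.mpr ⟨?_, hlow x hx hl⟩)
    rintro rfl
    exact h2 hx
  · intro x hx hb
    refine mem_insert_of_mem (mem_erase.mpr ⟨?_, hBV x hx hb⟩)
    rintro rfl
    exact h2 hx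

/-- one additional twin -/
theorem twClean (hN : ∀ x ∈ N, ∀ y, x ≤ y → y ∈ N) (h1 : y1 ∈ N) (h2 : y2 ∉ N) (hB2 : ¬ B y2)
    (TP : TwinPair i θ n0 y1 y2) (hy : i < lev y1)
    (hclean : ∀ U ⊆ N, (∀ x ∈ U, ∀ y, x ≤ y → y ∈ U) → (∀ x ∈ N, lev x ≤ i → x ∈ U) →
      (∀ x ∈ N, B x → x ∈ U) → ∀ n < n0, p ∣ Z {x : P // x ∈ U} i n)
    (hlev : ∀ x ∈ N, 1 ≤ θ x → i < lev x)
    (hbase : ∀ x ∈ N, 1 ≤ θ x → ∀ y ∈ N, y ≤ x → ¬ B y)
    (hstep : ∀ x ∈ N, 1 ≤ θ x → ∀ y ∈ N, y ≤ x → ∀ x', y ⋖ x' → ¬ x' ≤ x → θ x ≤ θ x' + 1)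
    {V : Finset P} (hV : V ⊆ insert y2 N) (hup : ∀ x ∈ V, ∀ y, x ≤ y → y ∈ V)
    (hlow : ∀ x ∈ N, lev x ≤ i → x ∈ V) (hBV : ∀ x ∈ N, B x → x ∈ V) :
    ∀ n < n0, p ∣ Z {x : P // x ∈ V} i n := by
  classical
  have hl2 : lev y1 = lev y2 := lev_eq_of_up TP.up
  have hnb : ∀ y ∈ V, y ≤ y2 → y = y2 := by
    intro y hy hyy
    rcases mem_insert.mp (hV hy) with h | h
    · exact h
    · exact absurd (hN y h y2 hyy) h2
  by_cases hbr : y1 ∉ V ∨ y2 ∉ V
  · exact brClean hN h1 h2 TP.up hclean hV hup hlow hBV hbr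
  push Not at hbr
  obtain ⟨hy1, hy2⟩ := hbr
  -- the poset on `V`
  let Q := {x : P // x ∈ V}
  have hVN : ∀ x : Q, (x : P) ≠ y2 → (x : P) ∈ N := fun x hx =>
    (mem_insert.mp (hV x.2)).resolve_left hx
  have hlQ : ∀ x : Q, lev x = lev (x : P) := levSub hup
  have hcQ : ∀ {x y : Q}, x ⋖ y ↔ (x : P) ⋖ (y : P) := fun {x y} => covSub hup
  intro n hn
  rw [show Z {x : P // x ∈ V} i n = ZB (P := Q) i ∅ 0 0 n from Z_eq_ZB i n]
  set DD : Set (Finset Q) := {D | (∀ x y : Q, x ≤ y → y ∈ D → x ∈ D) ∧ (∀ x ∈ D, i < lev x) ∧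
    ∀ x ∈ D, ¬ B (x : P)} with hDD
  set a : Q := ⟨y1, hy1⟩ with ha
  set c : Q := ⟨y2, hy2⟩ with hc
  have hne : y1 ≠ y2 := TP.ne
  refine dvd_ZB_bounds_twins (P := Q) i p n0 DD (fun x => θ (x : P)) {(a, c)}
    (fun D hD => hD.1) (fun D hD => hD.2.1) ?_ ?_ ?_ ?_ ?_ ?_ ∅ ?_ 0
    (fun x _ => Nat.zero_le _) n hn
  · intro x hx
    rw [hlQ]
    by_cases hxy : (x : P) = y2
    · rw [hxy, ← hl2]; exact hy
    · exact hlev _ (hVN x hxy) hx
  · intro D hD hbr n hn
    obtain ⟨d1, d2, d3⟩ := hD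
    have hbr := hbr (a, c) (mem_singleton_self _)
    simp only at hbr
    rw [ZB_off d1 d2]
    -- the rest as an up-set of `P`
    set U : Finset P := (univ.filter (fun x : Q => x ∉ D)).image (fun x : Q => (x : P)) with hU
    have hmU : ∀ x, x ∈ U ↔ ∃ h : x ∈ V, (⟨x, h⟩ : Q) ∉ D := by
      intro x
      rw [hU, mem_image]
      constructor
      · rintro ⟨y, hy, rfl⟩
        exact ⟨y.2, (mem_filter.mp hy).2⟩
      · rintro ⟨h, h'⟩
        exact ⟨⟨x, h⟩, mem_filter.mpr ⟨mem_univ _, h'⟩, rfl⟩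
    have e : {x : Q // x ∉ D} ≃o {x : P // x ∈ U} :=
      { toFun := fun x => ⟨(x : Q), (hmU _).mpr ⟨x.1.2, x.2⟩⟩
        invFun := fun x => ⟨⟨x.1, ((hmU _).mp x.2).1⟩, ((hmU _).mp x.2).2⟩
        left_inv := fun x => rfl
        right_inv := fun x => rfl
        map_rel_iff' := Iff.rfl }
    rw [Z_iso e]
    refine brClean hN h1 h2 TP.up hclean ?_ ?_ ?_ ?_ ?_ n hn
    · intro x hx
      exact hV ((hmU x).mp hx).1
    · intro x hx y hxy
      obtain ⟨h, h'⟩ := (hmU x).mp hx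
      exact (hmU y).mpr ⟨hup x h y hxy, fun h3 => h' (d1 ⟨x, h⟩ ⟨y, hup x h y hxy⟩ hxy h3)⟩
    · intro x hx hl
      refine (hmU x).mpr ⟨hlow x hx hl, fun h => ?_⟩
      have := d2 _ h
      rw [hlQ] at this
      simp only at this
      omega
    · intro x hx hb
      exact (hmU x).mpr ⟨hBV x hx hb, fun h => d3 _ h hb⟩
    · rcases hbr with h | h
      · left
        intro h3
        obtain ⟨h4, h5⟩ := (hmU _).mp h3
        exact h5 h
      · right
        intro h3
        obtain ⟨h4, h5⟩ := (hmU _).mp h3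
        exact h5 h
  · intro D hD x hx hθx
    obtain ⟨d1, d2, d3⟩ := hD
    have hlx : i < lev x := by
      rw [hlQ]
      by_cases hxy : (x : P) = y2
      · rw [hxy, ← hl2]; exact hy
      · exact hlev _ (hVN x hxy) hθx
    refine ⟨?_, ?_, ?_⟩
    · intro u v huv hv
      rw [mem_union, mem_dnf] at hv ⊢
      rcases hv with hv | hv
      · exact Or.inl (d1 u v huv hv)
      · exact Or.inr (huv.trans hv)
    · intro u hu
      rw [mem_union, mem_dnf] at hu
      rcases hu with hu | hu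
      · exact d2 u hu
      · rcases eq_or_lt_of_le hu with h | h
        · rw [h]; exact hlx
        · have := lev_strictAnti h; omega
    · intro u hu hb
      rw [mem_union, mem_dnf] at hu
      rcases hu with hu | hu
      · exact d3 u hu hb
      · by_cases hxy : (x : P) = y2
        · have h3 : (u : P) = y2 := hnb _ u.2 (by rw [← hxy]; exact hu)
          rw [h3] at hb
          exact hB2 hb
        · by_cases huy : (u : P) = y2
          · rw [huy] at hb
            exact hB2 hb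
          · exact hbase _ (hVN x hxy) hθx _ (hVN u huy) hu hb
  · intro D hD x hx hθx u hux huD x' hux' hx'x
    have hux'' := hcQ.mp hux'
    by_cases hxy : (x : P) = y2
    · have h3 : (u : P) = y2 := hnb _ u.2 (by rw [← hxy]; exact hux)
      rw [h3] at hux''
      have h4 : y1 ⋖ (x' : P) := (cov_of_up TP.up).mpr hux''
      have h5 := hstep y1 h1 TP.one_le y1 h1 le_rfl x' h4 (not_le_of_gt h4.1)
      rw [hxy, TP.eq]
      exact h5
    · have hxN := hVN x hxy
      have hx'x2 : ¬ (x' : P) ≤ x := hx'x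
      by_cases huy : (u : P) = y2
      · rw [huy] at hux''
        have h4 : y1 ⋖ (x' : P) := (cov_of_up TP.up).mpr hux''
        have h5 : y1 ≤ (x : P) := by
          refine ((TP.up _).mpr (lt_of_le_of_ne ?_ (Ne.symm hxy))).le
          rw [← huy]; exact hux
        exact hstep x hxN hθx y1 h1 h5 x' h4 hx'x2
      · exact hstep x hxN hθx u (hVN u huy) hux x' hux'' hx'x2
  · intro s hs
    rw [mem_singleton] at hs
    subst hs
    refine ⟨fun h => hne (congrArg Subtype.val h), ?_, TP.one_le, TP.eq, ?_, ?_, ?_⟩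
    · intro y
      exact TP.up (y : P)
    · rw [hlQ]
      exact TP.le
    · refine TP.costF.trans (Nat.add_le_add_right (le_of_eq ?_) _)
      rw [← Finset.sum_filter, ← Finset.sum_filter]
      symm
      refine Finset.sum_bij (fun (x : Q) _ => (x : P)) ?_ ?_ ?_ ?_
      · intro x hx
        rw [mem_filter] at hx ⊢
        exact ⟨mem_univ _, hx.2⟩
      · intro x _ y _ h
        exact Subtype.ext h
      · intro y hy
        rw [mem_filter] at hy
        exact ⟨⟨y, hup _ hy1 y hy.2⟩, mem_filter.mpr ⟨mem_univ _, hy.2⟩, rfl⟩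
      · intro x _
        rw [hlQ]
    · refine TP.costT.trans (Nat.add_le_add_right (le_of_eq ?_) _)
      rw [← Finset.sum_filter, ← Finset.sum_filter]
      symm
      refine Finset.sum_bij (fun (x : Q) _ => (x : P)) ?_ ?_ ?_ ?_
      · intro x hx
        rw [mem_filter] at hx ⊢
        exact ⟨mem_univ _, hx.2⟩
      · intro x _ y _ h
        exact Subtype.ext h
      · intro y hy
        rw [mem_filter] at hy
        exact ⟨⟨y, hup _ hy1 y hy.2.le⟩, mem_filter.mpr ⟨mem_univ _, hy.2⟩, rfl⟩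
      · intro x _
        rw [hlQ]
  · intro s hs D hD y hyy
    rw [mem_singleton] at hs
    subst hs
    exfalso
    have h3 : (y : P) = y2 := hnb _ y.2 hyy.le
    exact absurd (Subtype.ext h3) hyy.ne
  · exact ⟨fun x y _ h => absurd h (Finset.notMem_empty _), fun x h =>
      absurd h (Finset.notMem_empty _), fun x h => absurd h (Finset.notMem_empty _)⟩

end Tw

end Pool.Agent.GaussPoset.J8
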