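import Pool.Agent.W_448j8_h67.JaB

/-!
Coded strips with at most two additional elements: order two of all up-sets, first pole of the
complete set (MP_448cb3_co).
-/

namespace Pool.Agent.GaussPoset.J8

set_option linter.unusedSectionVars false

open Polynomial Finset Cl Dd

universe u

/-- covers of the extended code -/
def cvX (cv0 ex : List ℕ) (a : ℕ) : ℕ := (cv0 ++ ex).getD a 0

/-- levels of the extended code -/
def lvX (lv0 ex : List ℕ) (a : ℕ) : ℕ := (lv0 ++ ex.map (fun _ => 9)).getD a 0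

/-- the check of all up-sets above the mask -/
def xChk (cv0 lv0 : List ℕ) (i0 n0 bm : ℕ) (ex : List ℕ) : Bool :=
  usChk (cv0.length + ex.length) (cvX cv0 ex) (mkUs (cvX cv0 ex) (cv0.length + ex.length)) &&
  polChk 0 (cv0.length + ex.length) (2 ^ 80) 12 (mkUs (cvX cv0 ex) (cv0.length + ex.length)) i0
    (mkL (cv0.length + ex.length) i0 n0 bm (lvX lv0 ex)
      (mkUs (cvX cv0 ex) (cv0.length + ex.length))) &&
  (mkL (cv0.length + ex.length) i0 n0 bm (lvX lv0 ex)
    (mkUs (cvX cv0 ex) (cv0.length + ex.length))).all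
    (numChk (cv0.length + ex.length) 12 i0 n0 (lvX lv0 ex))

/-- the check of the complete set: first pole at `n0`, value one -/
def fChk (cv0 lv0 : List ℕ) (i0 n0 : ℕ) (ex : List ℕ) : Bool :=
  polChk 1 (cv0.length + ex.length) (2 ^ 80) 12 (mkUs (cvX cv0 ex) (cv0.length + ex.length)) i0
    [mkE (cv0.length + ex.length) i0 n0 (lvX lv0 ex) (2 ^ (cv0.length + ex.length) - 1)] &&
  numChk (cv0.length + ex.length) 12 i0 n0 (lvX lv0 ex)
    (mkE (cv0.length + ex.length) i0 n0 (lvX lv0 ex) (2 ^ (cv0.length + ex.length) - 1)) &&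
  (mkUs (cvX cv0 ex) (cv0.length + ex.length)).contains (2 ^ (cv0.length + ex.length) - 1) &&
  decide (sgn (mkE (cv0.length + ex.length) i0 n0 (lvX lv0 ex)
    (2 ^ (cv0.length + ex.length) - 1)).2.1 (mkE (cv0.length + ex.length) i0 n0 (lvX lv0 ex)
    (2 ^ (cv0.length + ex.length) - 1)).2.2.1 i0 = 1)

variable {P : Type u} [Fintype P] [PartialOrder P] [DecidableEq P]
variable {cv0 lv0 : List ℕ} {c0 : ℕ → P} {i0 n0 bm : ℕ}

/-- the lists of additional masks -/
def exL (m1 m2 : ℕ) : List (List ℕ) := [[], [m1], [m2], [m1, m1], [m1, m2], [m2, m2]]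

/-- an additional element: covers given by one of two masks -/
def AddE (N0 : ℕ) (c0 : ℕ → P) (m1 m2 : ℕ) (y : P) : Prop := lev y = 9 ∧
  ((∀ w, y ⋖ w ↔ ∃ b < N0, m1.testBit b = true ∧ c0 b = w) ∨
    (∀ w, y ⋖ w ↔ ∃ b < N0, m2.testBit b = true ∧ c0 b = w))

lemma getD_append_left' {l l' : List ℕ} {a : ℕ} (h : a < l.length) :
    (l ++ l').getD a 0 = l.getD a 0 := by
  simp [List.getD, List.getElem?_append_left h]

/-- the code with no additional elements -/
lemma cod0 (C : Cod cv0.length (fun a => cv0.getD a 0) (fun a => lv0.getD a 0) c0)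
    (hl : lv0.length = cv0.length) :
    Cod (cv0.length + ([] : List ℕ).length) (cvX cv0 []) (lvX lv0 []) c0 := by
  refine Cod.congr C (fun a ha => ?_) (fun a ha => ?_) (fun _ _ => rfl)
  · unfold cvX
    rw [List.append_nil]
  · unfold lvX
    rw [List.map_nil, List.append_nil]

/-- one more additional element -/
lemma codS {ex : List ℕ} {c : ℕ → P}
    (C : Cod (cv0.length + ex.length) (cvX cv0 ex) (lvX lv0 ex) c)
    (hl : lv0.length = cv0.length)
    (hcv : ∀ a < cv0.length + ex.length, cvX cv0 ex a < 2 ^ (cv0.length + ex.length))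
    (hc : ∀ a < cv0.length, c a = c0 a) {y : P} {m : ℕ} (hm : m < 2 ^ cv0.length)
    (hy : ∀ a < cv0.length + ex.length, c a ≠ y) (hly : lev y = 9)
    (hcov : ∀ w, y ⋖ w ↔ ∃ b < cv0.length, m.testBit b = true ∧ c0 b = w) :
    Cod (cv0.length + (ex ++ [m]).length) (cvX cv0 (ex ++ [m])) (lvX lv0 (ex ++ [m]))
      (fun a => if a = cv0.length + ex.length then y else c a) := by
  have hlen : cv0.length + (ex ++ [m]).length = cv0.length + ex.length + 1 := by
    rw [List.length_append, List.length_singleton]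
    omega
  rw [hlen]
  have hp : (2 : ℕ) ^ cv0.length ≤ 2 ^ (cv0.length + ex.length) :=
    Nat.pow_le_pow_right (by norm_num) (by omega)
  have h1 := Cod.extend C hcv (y := y) (m := m) (l := 9) hy (by omega) (by
    intro w
    rw [hcov w]
    constructor
    · rintro ⟨b, hb, h, h'⟩
      exact ⟨b, by omega, h, by rw [hc b hb]; exact h'⟩
    · rintro ⟨b, hb, h, h'⟩
      have hbn : b < cv0.length := by
        by_contra hcon
        rw [Nat.testBit_lt_two_pow (lt_of_lt_of_le hm (Nat.pow_le_pow_right (by norm_num)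
          (by omega)))] at h
        exact absurd h (by simp)
      exact ⟨b, hbn, h, by rw [← hc b hbn]; exact h'⟩) hly
  refine Cod.congr h1 (fun a ha => ?_) (fun a ha => ?_) (fun _ _ => rfl)
  · unfold cvX
    rw [← List.append_assoc]
    by_cases h : a = cv0.length + ex.length
    · rw [if_pos h, h, ← List.length_append]
      simp [List.getD]
    · rw [if_neg h, getD_append_left' (by rw [List.length_append]; omega)]
  · unfold lvX
    rw [List.map_append, List.map_singleton, ← List.append_assoc]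
    by_cases h : a = cv0.length + ex.length
    · rw [if_pos h, h]
      have h2 : cv0.length + ex.length = (lv0 ++ ex.map (fun _ => 9)).length := by
        rw [List.length_append, List.length_map, hl]
      rw [h2]
      simp [List.getD]
    · rw [if_neg h, getD_append_left' (by
        rw [List.length_append, List.length_map]; omega)]

/-- codes for all sets of at most two additional elements -/
theorem exists_codX (C : Cod cv0.length (fun a => cv0.getD a 0) (fun a => lv0.getD a 0) c0)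
    (hl : lv0.length = cv0.length) (hcv : ∀ a < cv0.length, cv0.getD a 0 < 2 ^ a) {m1 m2 : ℕ}
    (hm1 : m1 < 2 ^ cv0.length) (hm2 : m2 < 2 ^ cv0.length) {Y : Finset P} (hY2 : Y.card ≤ 2)
    (hY : ∀ y ∈ Y, (∀ a < cv0.length, c0 a ≠ y) ∧ AddE cv0.length c0 m1 m2 y) :
    ∃ ex ∈ exL m1 m2, ∃ c : ℕ → P,
      Cod (cv0.length + ex.length) (cvX cv0 ex) (lvX lv0 ex) c ∧
      (∀ a < cv0.length, c a = c0 a) ∧
      ∀ x, x ∈ Y ↔ ∃ a, cv0.length ≤ a ∧ a < cv0.length + ex.length ∧ c a = x := by
  have C0 := cod0 C hl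
  have hcv' : ∀ ex : List ℕ, (∀ m ∈ ex, m < 2 ^ cv0.length) →
      ∀ a < cv0.length + ex.length, cvX cv0 ex a < 2 ^ (cv0.length + ex.length) := by
    intro ex hex a ha
    have hp : (2 : ℕ) ^ cv0.length ≤ 2 ^ (cv0.length + ex.length) :=
      Nat.pow_le_pow_right (by norm_num) (by omega)
    unfold cvX
    by_cases h : a < cv0.length
    · rw [getD_append_left' h]
      have h1 := hcv a h
      have h2 : (2 : ℕ) ^ a ≤ 2 ^ cv0.length := Nat.pow_le_pow_right (by norm_num) h.le
      omega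
    · have h1 : (cv0 ++ ex).getD a 0 = ex.getD (a - cv0.length) 0 := by
        simp [List.getD, List.getElem?_append_right (not_lt.mp h)]
      rw [h1]
      have h2 : a - cv0.length < ex.length := by omega
      have h3 : ex.getD (a - cv0.length) 0 ∈ ex := by
        rw [List.getD_eq_getElem _ _ h2]
        exact List.getElem_mem h2
      exact lt_of_lt_of_le (hex _ h3) hp
  -- one element
  have one : ∀ y, (∀ a < cv0.length, c0 a ≠ y) → ∀ m, m < 2 ^ cv0.length → lev y = 9 →
      (∀ w, y ⋖ w ↔ ∃ b < cv0.length, m.testBit b = true ∧ c0 b = w) →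
      Cod (cv0.length + [m].length) (cvX cv0 [m]) (lvX lv0 [m])
        (fun a => if a = cv0.length then y else c0 a) := by
    intro y hy m hm hly hcov
    exact codS C0 hl (hcv' [] (by simp)) (fun _ _ => rfl) hm hy hly hcov
  have two : ∀ y y', y ≠ y' → (∀ a < cv0.length, c0 a ≠ y) → (∀ a < cv0.length, c0 a ≠ y') →
      ∀ m m', m < 2 ^ cv0.length → m' < 2 ^ cv0.length → lev y = 9 → lev y' = 9 →
      (∀ w, y ⋖ w ↔ ∃ b < cv0.length, m.testBit b = true ∧ c0 b = w) →
      (∀ w, y' ⋖ w ↔ ∃ b < cv0.length, m'.testBit b = true ∧ c0 b = w) →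
      Cod (cv0.length + [m, m'].length) (cvX cv0 [m, m']) (lvX lv0 [m, m'])
        (fun a => if a = cv0.length + 1 then y' else if a = cv0.length then y else c0 a) := by
    intro y y' hne hy hy' m m' hm hm' hly hly' hcov hcov'
    refine codS (ex := [m]) (one y hy m hm hly hcov) hl (hcv' [m] (by simpa using hm))
      (fun a ha => ?_) hm' ?_ hly' hcov'
    · rw [if_neg (by omega)]
    · intro a ha
      rw [List.length_singleton] at ha
      by_cases h : a = cv0.length
      · rw [if_pos h]; exact hne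
      · rw [if_neg h]; exact hy' a (by omega)
  -- assembly
  rcases Nat.lt_or_ge Y.card 1 with h0 | h0
  · have hYe : Y = ∅ := Finset.card_eq_zero.mp (by omega)
    refine ⟨[], by unfold exL; simp, c0, C0, fun _ _ => rfl, fun x => ?_⟩
    rw [hYe]
    constructor
    · intro h; exact absurd h (Finset.notMem_empty _)
    · rintro ⟨a, h1, h2, -⟩
      rw [List.length_nil] at h2
      omega
  rcases Nat.lt_or_ge Y.card 2 with h1 | h1
  · obtain ⟨y, hYy⟩ := Finset.card_eq_one.mp (show Y.card = 1 by omega)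
    obtain ⟨g1, g2, g3⟩ := hY y (by rw [hYy]; exact mem_singleton_self y)
    have key : ∀ m, m < 2 ^ cv0.length → [m] ∈ exL m1 m2 →
        (∀ w, y ⋖ w ↔ ∃ b < cv0.length, m.testBit b = true ∧ c0 b = w) →
        ∃ ex ∈ exL m1 m2, ∃ c : ℕ → P,
      Cod (cv0.length + ex.length) (cvX cv0 ex) (lvX lv0 ex) c ∧
      (∀ a < cv0.length, c a = c0 a) ∧
      ∀ x, x ∈ Y ↔ ∃ a, cv0.length ≤ a ∧ a < cv0.length + ex.length ∧ c a = x := by
      intro m hm hmem hcov
      refine ⟨[m], hmem, _, one y g1 m hm g2 hcov, fun a ha => if_neg (by omega), fun x => ?_⟩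
      rw [hYy, mem_singleton, List.length_singleton]
      constructor
      · rintro rfl
        exact ⟨cv0.length, le_rfl, by omega, if_pos rfl⟩
      · rintro ⟨a, h3, h4, h5⟩
        rw [if_pos (show a = cv0.length by omega)] at h5
        exact h5.symm
    rcases g3 with g3 | g3
    · exact key m1 hm1 (by unfold exL; simp) g3
    · exact key m2 hm2 (by unfold exL; simp) g3
  · obtain ⟨y, y', hne, hYy⟩ := Finset.card_eq_two.mp (show Y.card = 2 by omega)
    obtain ⟨g1, g2, g3⟩ := hY y (by rw [hYy]; simp)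
    obtain ⟨g1', g2', g3'⟩ := hY y' (by rw [hYy]; simp)
    have key : ∀ z z' : P, z ≠ z' → Y = {z, z'} → (∀ a < cv0.length, c0 a ≠ z) →
        (∀ a < cv0.length, c0 a ≠ z') → lev z = 9 → lev z' = 9 → ∀ m m', m < 2 ^ cv0.length →
        m' < 2 ^ cv0.length → [m, m'] ∈ exL m1 m2 →
        (∀ w, z ⋖ w ↔ ∃ b < cv0.length, m.testBit b = true ∧ c0 b = w) →
        (∀ w, z' ⋖ w ↔ ∃ b < cv0.length, m'.testBit b = true ∧ c0 b = w) →
        ∃ ex ∈ exL m1 m2, ∃ c : ℕ → P,
      Cod (cv0.length + ex.length) (cvX cv0 ex) (lvX lv0 ex) c ∧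
      (∀ a < cv0.length, c a = c0 a) ∧
      ∀ x, x ∈ Y ↔ ∃ a, cv0.length ≤ a ∧ a < cv0.length + ex.length ∧ c a = x := by
      intro z z' hzz hYz k1 k2 k3 k4 m m' hm hm' hmem hcov hcov'
      refine ⟨[m, m'], hmem, _, two z z' hzz k1 k2 m m' hm hm' k3 k4 hcov hcov', fun a ha => ?_,
        fun x => ?_⟩
      · rw [if_neg (by omega), if_neg (by omega)]
      · rw [hYz, mem_insert, mem_singleton]
        have hlen : [m, m'].length = 2 := rfl
        rw [hlen]
        constructor
        · rintro (rfl | rfl)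
          · exact ⟨cv0.length, le_rfl, by omega, by rw [if_neg (by omega), if_pos rfl]⟩
          · exact ⟨cv0.length + 1, by omega, by omega, if_pos rfl⟩
        · rintro ⟨a, h3, h4, h5⟩
          rcases show a = cv0.length ∨ a = cv0.length + 1 by omega with h6 | h6
          · rw [if_neg (by omega), if_pos h6] at h5
            exact Or.inl h5.symm
          · rw [if_pos h6] at h5
            exact Or.inr h5.symm
    rcases g3 with g3 | g3
    · rcases g3' with g3' | g3'
      · exact key y y' hne hYy g1 g1' g2 g2' m1 m1 hm1 hm1 (by unfold exL; simp) g3 g3'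
      · exact key y y' hne hYy g1 g1' g2 g2' m1 m2 hm1 hm2 (by unfold exL; simp) g3 g3'
    · rcases g3' with g3' | g3'
      · exact key y' y hne.symm (by rw [hYy, Finset.pair_comm]) g1' g1 g2' g2 m1 m2 hm1 hm2
          (by unfold exL; simp) g3' g3
      · exact key y y' hne hYy g1 g1' g2 g2' m2 m2 hm2 hm2 (by unfold exL; simp) g3 g3'

/-- **Order two of all up-sets up to `n0`.** -/
theorem xtr_low (C : Cod cv0.length (fun a => cv0.getD a 0) (fun a => lv0.getD a 0) c0)
    (hl : lv0.length = cv0.length) (hcv : ∀ a < cv0.length, cv0.getD a 0 < 2 ^ a) {m1 m2 : ℕ}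
    (hm1 : m1 < 2 ^ cv0.length) (hm2 : m2 < 2 ^ cv0.length)
    (hchk : ∀ ex ∈ exL m1 m2, xChk cv0 lv0 i0 n0 bm ex = true) {Y : Finset P}
    (hY2 : Y.card ≤ 2) (hY : ∀ y ∈ Y, (∀ a < cv0.length, c0 a ≠ y) ∧
      AddE cv0.length c0 m1 m2 y) {U : Finset P}
    (hU : ∀ x ∈ U, (∃ a < cv0.length, c0 a = x) ∨ x ∈ Y) (hup : ∀ x ∈ U, ∀ y, x ≤ y → y ∈ U)
    (hbm : bm < 2 ^ cv0.length) (hb : ∀ a < cv0.length, bm.testBit a = true → c0 a ∈ U) :
    ∀ n < n0 + 1, (1 + X : ℤ[X]) ^ 2 ∣ Z {x : P // x ∈ U} i0 n := by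
  obtain ⟨ex, hex, c, hC, hc, hYc⟩ := exists_codX C hl hcv hm1 hm2 hY2 hY
  have h := hchk ex hex
  unfold xChk at h
  rw [Bool.and_eq_true, Bool.and_eq_true, List.all_eq_true] at h
  obtain ⟨⟨h1, h2⟩, h3⟩ := h
  have hUs := usOK_of_chk h1
  obtain ⟨J, hJ, hJn, hJU⟩ := hC.exists_code hUs le_rfl (fun x hx => by
    rcases hU x hx with ⟨a, ha, h4⟩ | h4
    · exact ⟨a, by omega, by rw [hc a ha]; exact h4⟩
    · obtain ⟨a, -, h5, h6⟩ := (hYc x).mp h4
      exact ⟨a, h5, h6⟩) hup
  have hmask : Nat.land bm J = bm := by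
    rw [land_iff (n := cv0.length) hbm]
    intro a ha h4
    rw [← hC.mem_iff (show a < cv0.length + ex.length by omega), hJU, hc a ha]
    exact hb a ha h4
  have hmem := mkL_mem (N := cv0.length + ex.length) (i0 := i0) (n0 := n0) (lv := lvX lv0 ex)
    hJ hmask
  have h5 := cod_low hC hUs le_rfl h2 hmem hJ hJn (h3 _ hmem)
  intro n hn
  have h6 := h5 n hn
  have h7 : (mkE (cv0.length + ex.length) i0 n0 (lvX lv0 ex) J).1 = J := rfl
  rw [h7, hJU] at h6
  exact h6

/-- **The first pole of the complete set.** -/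
theorem xtr_full (C : Cod cv0.length (fun a => cv0.getD a 0) (fun a => lv0.getD a 0) c0)
    (hl : lv0.length = cv0.length) (hcv : ∀ a < cv0.length, cv0.getD a 0 < 2 ^ a) {m1 m2 : ℕ}
    (hm1 : m1 < 2 ^ cv0.length) (hm2 : m2 < 2 ^ cv0.length)
    (hchk : ∀ ex ∈ exL m1 m2, xChk cv0 lv0 i0 (n0 - 1) bm ex = true)
    (hful : ∀ ex ∈ exL m1 m2, fChk cv0 lv0 i0 n0 ex = true) {Y : Finset P}
    (hY2 : Y.card ≤ 2) (hY : ∀ y ∈ Y, (∀ a < cv0.length, c0 a ≠ y) ∧
      AddE cv0.length c0 m1 m2 y) {U : Finset P}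
    (hU : ∀ x, x ∈ U ↔ (∃ a < cv0.length, c0 a = x) ∨ x ∈ Y)
    (hi9 : i0 < 9) (hb0 : ((range cv0.length).filter
      (fun a => decide (lv0.getD a 0 = i0) = true)).card = 2)
    (hb1 : Even ((range cv0.length).filter (fun a => decide (lv0.getD a 0 < i0) = true)).card)
    (hup : ∀ x ∈ U, ∀ y, x ≤ y → y ∈ U) {f : Polynomial (PowerSeries ℤ)}
    (hf : ∀ n, exq n f = Z {x : P // x ∈ U} i0 n) : Pl n0 2 1 f := by
  obtain ⟨ex, hex, c, hC, hc, hYc⟩ := exists_codX C hl hcv hm1 hm2 hY2 hY
  have h := hchk ex hex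
  unfold xChk at h
  rw [Bool.and_eq_true, Bool.and_eq_true, List.all_eq_true] at h
  obtain ⟨⟨h1, h2⟩, h3⟩ := h
  have hUs := usOK_of_chk h1
  have g := hful ex hex
  unfold fChk at g
  rw [Bool.and_eq_true, Bool.and_eq_true, Bool.and_eq_true] at g
  obtain ⟨⟨⟨g1, g2⟩, g3⟩, g4⟩ := g
  have g3' : 2 ^ (cv0.length + ex.length) - 1 ∈ mkUs (cvX cv0 ex) (cv0.length + ex.length) := by
    simpa using g3
  have g4' := of_decide_eq_true g4
  have hpos : 0 < 2 ^ (cv0.length + ex.length) := by positivity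
  have h5 := cod_pole hC hUs le_rfl g1 (List.mem_singleton_self _) g3' (by
    show 2 ^ (cv0.length + ex.length) - 1 < 2 ^ (cv0.length + ex.length)
    omega) g2
  have hS : toS (cv0.length + ex.length) c (mkE (cv0.length + ex.length) i0 n0 (lvX lv0 ex)
      (2 ^ (cv0.length + ex.length) - 1)).1 = U := by
    ext x
    rw [mem_toS]
    show (∃ a < cv0.length + ex.length, (2 ^ (cv0.length + ex.length) - 1).testBit a = true ∧
      c a = x) ↔ x ∈ U
    rw [hU]
    constructor
    · rintro ⟨a, ha, -, rfl⟩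
      by_cases h6 : a < cv0.length
      · exact Or.inl ⟨a, h6, (hc a h6).symm⟩
      · exact Or.inr ((hYc _).mpr ⟨a, by omega, ha, rfl⟩)
    · rintro (⟨a, ha, h6⟩ | h6)
      · exact ⟨a, by omega, by simp [Nat.testBit_two_pow_sub_one]; omega, by rw [hc a ha]; exact h6⟩
      · obtain ⟨a, -, h7, h8⟩ := (hYc x).mp h6
        exact ⟨a, h7, by simp [Nat.testBit_two_pow_sub_one]; omega, h8⟩
  rw [hS, g4'] at h5
  obtain ⟨h11, s, h12, h13⟩ := h5
  have hlv : ∀ x : {x : P // x ∈ U}, GaussPoset.lev x = GaussPoset.lev (x : P) :=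
    lev_subtype (p := fun x => x ∈ U) (fun x y hxy hx => hup x hx y hxy)
  have hcount : ∀ g : ℕ → Prop, ∀ _ : DecidablePred g, (∀ l, g l → l < 9) →
      (univ.filter (fun x : {x : P // x ∈ U} => g (GaussPoset.lev x))).card =
      ((range cv0.length).filter (fun a => decide (g (lv0.getD a 0)) = true)).card := by
    intro g _ hg
    have e1 : (univ.filter (fun x : {x : P // x ∈ U} => g (GaussPoset.lev x))).card =
        ∑ x : {x : P // x ∈ U}, (if g (GaussPoset.lev x) then 1 else 0) := by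
      rw [Finset.card_filter]
    have e2 : ∑ x : {x : P // x ∈ U}, (if g (GaussPoset.lev x) then 1 else 0) =
        ∑ x ∈ U, (if g (GaussPoset.lev x) then 1 else 0) := by
      rw [← Finset.sum_coe_sort U]
      exact Finset.sum_congr rfl fun x _ => by rw [hlv]
    rw [e1, e2, ← Finset.card_filter]
    symm
    refine Finset.card_bij (fun a _ => c0 a) ?_ ?_ ?_
    · intro a ha
      rw [mem_filter, mem_range, decide_eq_true_eq] at ha
      rw [mem_filter, hU]
      exact ⟨Or.inl ⟨a, ha.1, rfl⟩, by rw [C.lev a ha.1]; exact ha.2⟩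
    · intro a ha a' ha' h
      rw [mem_filter, mem_range] at ha ha'
      exact C.inj a ha.1 a' ha'.1 h
    · intro x hx
      rw [mem_filter, hU] at hx
      rcases hx with ⟨⟨a, ha, rfl⟩ | hx, h6⟩
      · refine ⟨a, ?_, rfl⟩
        rw [mem_filter, mem_range, decide_eq_true_eq]
        exact ⟨ha, by rw [← C.lev a ha]; exact h6⟩
      · have h7 := (hY x hx).2.1
        have h8 := hg _ h6
        omega
  have hcd : (lv {x : P // x ∈ U} i0).card = 2 := by
    rw [← hb0]
    exact hcount (fun l => l = i0) inferInstance (fun l hl => by omega)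
  have hbl : Even (below {x : P // x ∈ U} i0) := by
    have h6 := hcount (fun l => l < i0) inferInstance (fun l hl => by omega)
    unfold below
    rw [h6]
    exact hb1
  have h0 : exq 0 f = X ^ (below {x : P // x ∈ U} i0) * (1 + X) ^ 2 := by
    rw [hf, Z_zero, hcd]
  refine ⟨fun n hn => ?_, by norm_num, X ^ (below {x : P // x ∈ U} i0), s * (X : ℤ[X]) ^ 0, by
    rw [h0, mul_comm], ?_, ?_, ?_⟩
  · rw [hf]
    exact h11 n hn
  · rw [eval_pow, eval_X]
    exact pow_ne_zero _ (by norm_num)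
  · rw [hf, h12]
    simp
  · rw [eval_mul, h13, eval_pow, eval_pow, eval_X, hbl.neg_one_pow]
    norm_num

end Pool.Agent.GaussPoset.J8
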