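import Pool.Agent.W_448j8_h67.JaC

/-!
The words `OC CO CO OO` and `OC OO CO OO` at level 8, window 4, with additional elements of
level 9 (MP_448cb3_co).
-/

namespace Pool.Agent.GaussPoset.J8

set_option linter.unusedSectionVars false

open Polynomial Finset Cl Dd Wd

universe u

/-- the flip word -/
def w8 : List Ltr := [OC, OO, CO, OO]

def A7cv : List ℕ := [0, 1, 2, 4, 8, 8, 16, 48, 192, 128, 768, 512, 1024, 3072, 2048]
def A7lv : List ℕ := [0, 1, 2, 3, 4, 4, 5, 5, 6, 6, 7, 7, 8, 8, 8]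
def A7sl : List ℕ := [0, 0, 0, 0, 0, 1, 0, 1, 1, 2, 2, 3, 2, 3, 4]
def A7nn : List ℕ := [1, 2, 3, 4, 6, 8, 10, 12, 15]

theorem A7_strip : StripOK 15 8 (losW 4 w7) (hisW 4 w7) (fun a => A7lv.getD a 0)
    (fun a => A7sl.getD a 0) (fun a => A7cv.getD a 0) (fun j => A7nn.getD j 0) :=
  stripOK_of_chk (by decide +kernel)

theorem A7_b : baseChk 15 8 4 14 19135 (fun a => A7lv.getD a 0) (fun a => A7cv.getD a 0)
    (fun j => A7nn.getD j 0) = true := by decide +kernel

theorem A7_chk : ∀ ex ∈ exL 24576 20480, xChk A7cv A7lv 4 12 19135 ex = true := by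
  decide +kernel

def A8cv : List ℕ := [0, 1, 2, 4, 8, 8, 16, 48, 64, 192, 128, 768, 1536, 1024, 2048, 6144, 12288,
  8192]
def A8lv : List ℕ := [0, 1, 2, 3, 4, 4, 5, 5, 6, 6, 6, 7, 7, 7, 8, 8, 8, 8]
def A8sl : List ℕ := [0, 0, 0, 0, 0, 1, 0, 1, 0, 1, 2, 1, 2, 3, 1, 2, 3, 4]
def A8nn : List ℕ := [1, 2, 3, 4, 6, 8, 11, 14, 18]

theorem A8_strip : StripOK 18 8 (losW 4 w8) (hisW 4 w8) (fun a => A8lv.getD a 0)
    (fun a => A8sl.getD a 0) (fun a => A8cv.getD a 0) (fun j => A8nn.getD j 0) :=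
  stripOK_of_chk (by decide +kernel)

theorem A8_b : baseChk 18 8 4 17 140479 (fun a => A8lv.getD a 0) (fun a => A8cv.getD a 0)
    (fun j => A8nn.getD j 0) = true := by decide +kernel

theorem A8_chk : ∀ ex ∈ exL 196608 147456, xChk A8cv A8lv 4 11 140479 ex = true := by
  decide +kernel

theorem A8_ful : ∀ ex ∈ exL 196608 147456, fChk A8cv A8lv 4 12 ex = true := by
  decide +kernel

variable {P : Type u} [Fintype P] [PartialOrder P] [DecidableEq P]
variable {r : ℕ} {t : P} {lo hi : ℕ → ℕ} {e : ℕ → ℕ → P}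

/-- additional elements below `v` and one of `w1`, `w2` -/
structure Add (v w1 w2 : P) (Y : Finset P) : Prop where
  card : Y.card ≤ 2
  lev : ∀ y ∈ Y, Pool.Agent.GaussPoset.lev y = 9
  cov : ∀ y ∈ Y, (∀ w, y ⋖ w ↔ w = v ∨ w = w1) ∨ (∀ w, y ⋖ w ↔ w = v ∨ w = w2)

lemma mask_iff {N0 : ℕ} {c0 : ℕ → P} {m p q : ℕ} (hp : p < N0) (hq : q < N0)
    (hm : ∀ b < N0, m.testBit b = true ↔ b = p ∨ b = q) {v v' : P} (hv : c0 p = v)
    (hv' : c0 q = v') (w : P) :
    (w = v ∨ w = v') ↔ ∃ b < N0, m.testBit b = true ∧ c0 b = w := by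
  constructor
  · rintro (h | h)
    · exact ⟨p, hp, (hm p hp).mpr (Or.inl rfl), by rw [hv, h]⟩
    · exact ⟨q, hq, (hm q hq).mpr (Or.inr rfl), by rw [hv', h]⟩
  · rintro ⟨b, hb, h1, rfl⟩
    rcases (hm b hb).mp h1 with rfl | rfl
    · exact Or.inl hv
    · exact Or.inr hv'

section E7

variable (D : WordD 8 4 w7 lo hi) (C : Cp.Comp 8 t lo hi e) (H : Gr P r)
  (hg : ∀ l, l < 8 → Win.Good P l) (ht : lev t = 0)

include D C H hg ht

lemma A7_cod : Cod A7cv.length (fun a => A7cv.getD a 0) (fun a => A7lv.getD a 0)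
    (fun a => e (A7lv.getD a 0) (A7sl.getD a 0)) := by
  obtain ⟨h1, h2⟩ := D.rows C
  exact A7_strip.cod C H hg ht le_rfl h1 h2

/-- order two up to the energy 12 -/
theorem e7_low {Y : Finset P} (hY : Add (e 8 4) (e 8 3) (e 8 2) Y) {U : Finset P}
    (hU : ∀ x ∈ U, x ∈ lowPart 8 t ∨ x ∈ Y) (hup : ∀ x ∈ U, ∀ y, x ≤ y → y ∈ U)
    (hlow : ∀ x ∈ lowPart 8 t, lev x ≤ 4 → x ∈ U) (hbase : e 8 4 ∈ U) :
    ∀ n < 13, (1 + X : ℤ[X]) ^ 2 ∣ Z {x : P // x ∈ U} 4 n := by
  have hC := A7_cod D C H hg ht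
  obtain ⟨h1, h2⟩ := D.rows C
  obtain ⟨h6, h7⟩ := A7_strip.base_mem C H hg ht le_rfl h1 h2 A7_b (by decide) hup hlow hbase
  have hl : ∀ a < A7cv.length, A7lv.getD a 0 ≤ 8 := by decide +kernel
  refine xtr_low (n0 := 12) hC rfl (by decide +kernel) (by decide +kernel) (by decide +kernel)
    A7_chk hY.card ?_ ?_ hup (by decide +kernel) h7
  · intro y hy
    have hly := hY.lev y hy
    refine ⟨fun a ha h => ?_, hly, ?_⟩
    · have h3 := hC.lev a ha
      have h4 := hl a ha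
      rw [h, hly] at h3
      omega
    · rcases hY.cov y hy with h | h
      · left
        intro w
        rw [h w]
        exact mask_iff (N0 := A7cv.length)
          (c0 := fun a => e (A7lv.getD a 0) (A7sl.getD a 0)) (m := 24576) (p := 14) (q := 13) (by decide) (by decide)
          (by decide +kernel) rfl rfl w
      · right
        intro w
        rw [h w]
        exact mask_iff (N0 := A7cv.length)
          (c0 := fun a => e (A7lv.getD a 0) (A7sl.getD a 0)) (m := 20480) (p := 14) (q := 12) (by decide) (by decide)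
          (by decide +kernel) rfl rfl w
  · intro x hx
    rcases hU x hx with h | h
    · exact Or.inl (A7_strip.surj' C le_rfl h1 h2 h)
    · exact Or.inr h

end E7

section W8

variable (D : WordD 8 4 w8 lo hi) (C : Cp.Comp 8 t lo hi e) (H : Gr P r)
  (hg : ∀ l, l < 8 → Win.Good P l) (ht : lev t = 0)

include D C H hg ht

lemma A8_cod : Cod A8cv.length (fun a => A8cv.getD a 0) (fun a => A8lv.getD a 0)
    (fun a => e (A8lv.getD a 0) (A8sl.getD a 0)) := by
  obtain ⟨h1, h2⟩ := D.rows C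
  exact A8_strip.cod C H hg ht le_rfl h1 h2

lemma A8_add {Y : Finset P} (hY : Add (e 8 4) (e 8 3) (e 8 1) Y) : ∀ y ∈ Y,
    (∀ a < A8cv.length, e (A8lv.getD a 0) (A8sl.getD a 0) ≠ y) ∧
      AddE A8cv.length (fun a => e (A8lv.getD a 0) (A8sl.getD a 0)) 196608 147456 y := by
  have hC := A8_cod D C H hg ht
  have hl : ∀ a < A8cv.length, A8lv.getD a 0 ≤ 8 := by decide +kernel
  intro y hy
  have hly := hY.lev y hy
  refine ⟨fun a ha h => ?_, hly, ?_⟩
  · have h3 := hC.lev a ha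
    have h4 := hl a ha
    rw [h, hly] at h3
    omega
  · rcases hY.cov y hy with h | h
    · left
      intro w
      rw [h w]
      exact mask_iff (N0 := A8cv.length)
        (c0 := fun a => e (A8lv.getD a 0) (A8sl.getD a 0)) (m := 196608) (p := 17) (q := 16) (by decide) (by decide)
        (by decide +kernel) rfl rfl w
    · right
      intro w
      rw [h w]
      exact mask_iff (N0 := A8cv.length)
        (c0 := fun a => e (A8lv.getD a 0) (A8sl.getD a 0)) (m := 147456) (p := 17) (q := 14) (by decide) (by decide)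
        (by decide +kernel) rfl rfl w

/-- order two up to the energy 11 -/
theorem w8_low {Y : Finset P} (hY : Add (e 8 4) (e 8 3) (e 8 1) Y) {U : Finset P}
    (hU : ∀ x ∈ U, x ∈ lowPart 8 t ∨ x ∈ Y) (hup : ∀ x ∈ U, ∀ y, x ≤ y → y ∈ U)
    (hlow : ∀ x ∈ lowPart 8 t, lev x ≤ 4 → x ∈ U) (hbase : e 8 4 ∈ U) :
    ∀ n < 12, (1 + X : ℤ[X]) ^ 2 ∣ Z {x : P // x ∈ U} 4 n := by
  have hC := A8_cod D C H hg ht
  obtain ⟨h1, h2⟩ := D.rows C
  obtain ⟨h6, h7⟩ := A8_strip.base_mem C H hg ht le_rfl h1 h2 A8_b (by decide) hup hlow hbase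
  refine xtr_low (n0 := 11) hC rfl (by decide +kernel) (by decide +kernel) (by decide +kernel)
    A8_chk hY.card (A8_add D C H hg ht hY) ?_ hup (by decide +kernel) h7
  intro x hx
  rcases hU x hx with h | h
  · exact Or.inl (A8_strip.surj' C le_rfl h1 h2 h)
  · exact Or.inr h

/-- the first pole of the complete component -/
theorem w8_full {Y : Finset P} (hY : Add (e 8 4) (e 8 3) (e 8 1) Y) {U : Finset P}
    (hU : ∀ x, x ∈ U ↔ x ∈ lowPart 8 t ∨ x ∈ Y) {f : Polynomial (PowerSeries ℤ)}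
    (hf : ∀ n, exq n f = Z {x : P // x ∈ U} 4 n) : Pl 12 2 1 f := by
  have hC := A8_cod D C H hg ht
  obtain ⟨h1, h2⟩ := D.rows C
  have hsurj : ∀ x, x ∈ lowPart 8 t ↔ ∃ a < A8cv.length,
      e (A8lv.getD a 0) (A8sl.getD a 0) = x := by
    intro x
    constructor
    · exact fun h => A8_strip.surj' C le_rfl h1 h2 h
    · rintro ⟨a, ha, rfl⟩
      have hr := A8_strip.row a ha
      have hla : A8lv.getD a 0 ≤ 8 := by
        have h : ∀ a < A8cv.length, A8lv.getD a 0 ≤ 8 := by decide +kernel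
        exact h a ha
      rw [← h1 _ hla, ← h2 _ hla] at hr
      rw [mem_lowPart, C.lev_e _ _ hla hr.1 hr.2]
      exact ⟨C.le_t _ _ hla hr.1 hr.2, hla⟩
  have hup : ∀ x ∈ lowPart 8 t, ∀ y, x ≤ y → y ∈ lowPart 8 t := by
    intro x hx y hxy
    rw [mem_lowPart] at hx ⊢
    refine ⟨Cp.up_le H hg ht hx.1 hx.2 hxy, ?_⟩
    rcases eq_or_lt_of_le hxy with h | h
    · rw [← h]; exact hx.2
    · have := lev_strictAnti h; omega
  have hcell : ∀ s, 1 ≤ s → s ≤ 4 → e 8 s ∈ lowPart 8 t := by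
    intro s hs hs4
    have hr : losW 4 w8 8 = 1 ∧ hisW 4 w8 8 = 4 := by decide +kernel
    rw [← h1 8 le_rfl, ← h2 8 le_rfl] at hr
    rw [mem_lowPart, C.lev_e 8 s le_rfl (by omega) (by omega)]
    exact ⟨C.le_t 8 s le_rfl (by omega) (by omega), le_rfl⟩
  refine xtr_full (bm := 140479) (m1 := 196608) (m2 := 147456) hC rfl (by decide +kernel)
    (by decide +kernel) (by decide +kernel) A8_chk A8_ful hY.card (A8_add D C H hg ht hY)
    (U := U) (fun x => by rw [hU, hsurj]) (by norm_num) (by decide +kernel) (by decide +kernel)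
    ?_ hf
  intro x hx y hxy
  rw [hU] at hx ⊢
  rcases hx with hx | hx
  · exact Or.inl (hup x hx y hxy)
  · rcases eq_or_lt_of_le hxy with h | h
    · rw [← h]; exact Or.inr hx
    · obtain ⟨v, hv, hvy⟩ := Hul.exists_cov h
      have h3 : v ∈ lowPart 8 t := by
        rcases hY.cov x hx with h4 | h4
        · rcases (h4 v).mp hv with h5 | h5
          · rw [h5]; exact hcell 4 (by norm_num) le_rfl
          · rw [h5]; exact hcell 3 (by norm_num) (by norm_num)
        · rcases (h4 v).mp hv with h5 | h5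
          · rw [h5]; exact hcell 4 (by norm_num) le_rfl
          · rw [h5]; exact hcell 1 le_rfl (by norm_num)
      exact Or.inl (hup v h3 y hvy)

end W8

end Pool.Agent.GaussPoset.J8
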