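import Pool.Agent.W_448j8_h67.JaA
import Pool.Agent.W_448j8_h67.JaE

/-!
Component data from natural sets with a twin (MP_448cb3_co).
-/

namespace Pool.Agent.GaussPoset.J8

set_option linter.unusedSectionVars false

open Polynomial Finset Dd

universe u

variable {P : Type u} [Fintype P] [PartialOrder P] [DecidableEq P]

/-- one natural set is replaced -/
noncomputable def upd (N : Tops P → Finset P) (t : Tops P) (N' : Finset P) (s : Tops P) :
    Finset P := if s = t then N' else N s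

lemma upd_self (N : Tops P → Finset P) (t : Tops P) (N' : Finset P) : upd N t N' t = N' :=
  if_pos rfl

lemma upd_ne (N : Tops P → Finset P) {t s : Tops P} (N' : Finset P) (h : s ≠ t) :
    upd N t N' s = N s := if_neg h

lemma natSys_upd {N : Tops P → Finset P} (HN : NatSys N) {i b : ℕ} {t : Tops P} {N' : Finset P}
    {θ : P → ℕ} {B : P → Prop} (H : NatTop i t b N' θ B) : NatSys (upd N t N') where
  up := by
    intro s
    by_cases h : s = t
    · subst h
      rw [upd_self]
      exact H.up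
    · rw [upd_ne N N' h]
      exact HN.up s
  le_t := by
    intro s
    by_cases h : s = t
    · subst h
      rw [upd_self]
      exact H.le_t
    · rw [upd_ne N N' h]
      exact HN.le_t s

lemma unnat_upd_sub {N : Tops P → Finset P} {t : Tops P} {N' : Finset P}
    (hN' : ∀ x ∈ N t, x ∈ N') : unnat (upd N t N') ⊆ unnat N := by
  intro x hx
  rw [mem_unnat] at hx ⊢
  intro s hs
  refine hx s ?_
  by_cases h : s = t
  · subst h
    rw [upd_self]
    exact hN' x hs
  · rw [upd_ne N N' h]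
    exact hs

lemma CompDataL.of_le {ι : Type*} {R : Finset P} {cp : P → ι} {k : ι} {i b n0 n1 : ℕ}
    {θ : P → ℕ} {B : P → Prop} (H : CompDataL R cp k i b n0 θ B) (h : n1 ≤ n0) :
    CompDataL R cp k i b n1 θ B where
  clean := fun D hD hdec n hn => H.clean D hD hdec n (by omega)
  lev := H.lev
  base := H.base
  step := H.step
  le := H.le

section Nat

variable {N : Tops P → Finset P} (HN : NatSys N) {i j b : ℕ} (hij : i ≤ j)
  (hlow : ∀ s : Tops P, lowPart j (s : P) ⊆ N s) {t : Tops P} {N' : Finset P} {θ' : P → ℕ}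
  {B' : P → Prop} (H : NatTop i t b N' θ' B') {θ : P → ℕ} {B : P → Prop}

include HN hij hlow in
lemma unnat_lev {x : P} (hx : x ∈ unnat N) : i < lev x := by
  by_contra hcon
  refine mem_unnat.mp hx (topOf x) (hlow _ (mem_lowPart.mpr ⟨le_topOf x, by omega⟩))

include HN H in
/-- the natural set may be larger -/
theorem compL_nat (hN' : ∀ x ∈ N t, x ∈ N') (hB' : ∀ x ∈ N', B' x → x ∈ N t)
    (hθ : ∀ x ∈ N t, θ x = θ' x) (hB : ∀ x ∈ N t, B x ↔ B' x) (n0 : ℕ) :
    CompDataL (unnat N) topOf t i b n0 θ B := by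
  have HM := natSys_upd HN H
  have hC := H.data _ HM (upd_self N t N') θ' (fun x => x ∈ N' ∧ B' x) (fun _ _ => rfl)
    (fun x hx => ⟨fun h => h.2, fun h => ⟨hx, h⟩⟩)
  have hC2 := CompData.mono hC (unnat_upd_sub hN')
  have hmem : ∀ {x}, x ∉ unnat N → topOf x = t → x ∈ N t := fun {x} h1 h2 =>
    HN.mem_iff.mpr ⟨h1, h2⟩
  constructor
  · intro D hD hdec n _
    refine dvd_Z_of_dvd_W (hC2.clean D ⟨hD.1, hD.2.1, hD.2.2.1, ?_⟩ hdec) n
    rintro x hx ⟨h1, h2⟩
    have h3 := hB' x h1 h2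
    exact hD.2.2.2 x hx ((hB x h3).mpr h2)
  · intro x hx hk h1
    rw [hθ x (hmem hx hk)] at h1
    exact hC2.lev x hx hk h1
  · intro x hx hk h1 y hyx hy hBy
    rw [hθ x (hmem hx hk)] at h1
    have hyN : y ∈ N t := hmem hy ((HN.cp y x hyx hy).trans hk)
    exact hC2.base x hx hk h1 y hyx hy ⟨hN' y hyN, (hB y hyN).mp hBy⟩
  · intro x hx hk h1 y hyx hy x' hx' hyx' hn
    rw [hθ x (hmem hx hk)] at h1 ⊢
    have hyt : topOf y = t := (HN.cp y x hyx hy).trans hk
    have hx't : topOf x' = t := (HN.cp y x' hyx'.1.le hy).symm.trans hyt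
    rw [hθ x' (hmem hx' hx't)]
    exact hC2.step x hx hk h1 y hyx hy x' hx' hyx' hn
  · intro x hx hk
    rw [hθ x (hmem hx hk)]
    exact hC2.le x hx hk

include HN hij hlow H in
/-- the natural set may be larger, with one additional twin `y2` of `y1` -/
theorem compL_twin {y1 y2 : P} (hN' : ∀ x ∈ N t, x ∈ N' ∨ x = y2)
    (hN'low : ∀ x, x ≤ (t : P) → Pool.Agent.GaussPoset.lev x ≤ j → x ∈ N')
    (hB' : ∀ x ∈ N', B' x → x ∈ N t)
    (h1N : y1 ∈ N t) (h2N : y2 ∈ N t) (h1 : y1 ∈ N') (h2 : y2 ∉ N')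
    (hθ : ∀ x ∈ N t, x ≠ y2 → θ x = θ' x) (hθ2 : θ y2 = 1)
    (hB : ∀ x ∈ N t, x ≠ y2 → (B x ↔ B' x)) (hB2 : ¬ B y2) {n0 : ℕ}
    (TP : TwinPair i (fun x => if x = y2 then 1 else θ' x) n0 y1 y2)
    (hy : i < Pool.Agent.GaussPoset.lev y1) :
    CompDataL (unnat N) topOf t i b n0 θ B := by
  classical
  have HM := natSys_upd HN H
  have hup := H.up
  have hmem : ∀ {x}, x ∉ unnat N → topOf x = t → x ∈ N t := fun {x} h1 h2 =>
    HN.mem_iff.mpr ⟨h1, h2⟩
  -- facts on the natural set
  have hsubM : ∀ x ∈ N', x ∉ unnat (upd N t N') := fun x hx h =>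
    mem_unnat.mp h t (by rw [upd_self]; exact hx)
  have htop : ∀ x ∈ N', topOf x = t := fun x hx =>
    HM.topOf_eq (by rw [upd_self]; exact hx)
  have hC := H.data _ HM (upd_self N t N') θ' (fun x => x ∈ N' ∧ B' x) (fun _ _ => rfl)
    (fun x hx => ⟨fun h => h.2, fun h => ⟨hx, h⟩⟩)
  have f_lev : ∀ x ∈ N', 1 ≤ θ' x → i < Pool.Agent.GaussPoset.lev x := fun x hx =>
    hC.lev x (hsubM x hx) (htop x hx)
  have f_base : ∀ x ∈ N', 1 ≤ θ' x → ∀ y ∈ N', y ≤ x → ¬ B' y := fun x hx h1 y hy hyx hby =>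
    hC.base x (hsubM x hx) (htop x hx) h1 y hyx (hsubM y hy) ⟨hy, hby⟩
  have f_step : ∀ x ∈ N', 1 ≤ θ' x → ∀ y ∈ N', y ≤ x → ∀ x', y ⋖ x' → ¬ x' ≤ x →
      θ' x ≤ θ' x' + 1 := fun x hx h1 y hy hyx x' hyx' hn =>
    hC.step x (hsubM x hx) (htop x hx) h1 y hyx (hsubM y hy) x'
      (hsubM x' (hup y hy x' hyx'.1.le)) hyx' hn
  have f_le : ∀ x ∈ N', θ' x ≤ Pool.Agent.GaussPoset.lev x - i := fun x hx =>
    hC.le x (hsubM x hx) (htop x hx)
  have hup12 := TP.up
  have hl12 : Pool.Agent.GaussPoset.lev y1 = Pool.Agent.GaussPoset.lev y2 := lev_eq_of_up hup12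
  have h12 : y1 ≠ y2 := TP.ne
  -- elements above `y2` are natural
  have habv : ∀ x, y2 < x → x ∈ N' := fun x hx => hup y1 h1 x ((hup12 x).mpr hx).le
  have hx2 : ∀ {x}, y2 ≤ x → x ∈ N' → y1 ≤ x := by
    intro x hx hxN
    rcases eq_or_lt_of_le hx with h | h
    · rw [← h] at hxN; exact absurd hxN h2
    · exact ((hup12 x).mpr h).le
  have hlowM : ∀ x ∈ unnat (upd N t N'), i < Pool.Agent.GaussPoset.lev x := by
    intro x hx
    by_contra hcon
    rw [mem_unnat] at hx
    by_cases h : topOf x = t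
    · refine hx t ?_
      rw [upd_self]
      exact hN'low x (by rw [← h]; exact le_topOf x) (by omega)
    · refine hx (topOf x) ?_
      rw [upd_ne N N' h]
      exact hlow _ (mem_lowPart.mpr ⟨le_topOf x, by omega⟩)
  constructor
  · intro D hD hdec n hn
    let V : Finset P := (N t).filter (fun x => x ∉ D)
    have hV : ∀ x, x ∈ V ↔ x ∈ N t ∧ x ∉ D := fun x => by simp [V]
    have hiso : {x : P // x ∈ V} ≃o {x : {x : P // x ∉ D} // topOf (x : P) = t} :=
      { toFun := fun x => ⟨⟨x, ((hV x).mp x.2).2⟩, HN.topOf_eq ((hV x).mp x.2).1⟩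
        invFun := fun x => ⟨x.1.1, (hV _).mpr ⟨hmem (fun h => x.1.2 (hD.2.1 h)) x.2, x.1.2⟩⟩
        left_inv := fun x => rfl
        right_inv := fun x => rfl
        map_rel_iff' := Iff.rfl }
    rw [← Z_iso hiso]
    refine twClean (N := N') (B := fun x => x ∈ N' ∧ B' x)
      (θ := fun x => if x = y2 then 1 else θ' x) hup h1 h2 (fun h => h2 h.1) TP hy ?_ ?_ ?_ ?_
      ?_ ?_ ?_ ?_ n hn
    · intro U hUN hUup hUlow hUB n' _
      exact natClean H HM (upd_self N t N') hlowM hUN hUup hUlow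
        (fun x hx hb => hUB x hx ⟨hx, hb⟩) n'
    · intro x hx hθx
      have hne : x ≠ y2 := fun h => h2 (h ▸ hx)
      simp only [hne, if_false] at hθx
      exact f_lev x hx hθx
    · intro x hx hθx y hy hyx hby
      have hne : x ≠ y2 := fun h => h2 (h ▸ hx)
      simp only [hne, if_false] at hθx
      exact f_base x hx hθx y hy hyx hby.2
    · intro x hx hθx y hy hyx x' hyx' hn'
      have hne : x ≠ y2 := fun h => h2 (h ▸ hx)
      have hne' : x' ≠ y2 := fun h => h2 (h ▸ hup y hy x' hyx'.1.le)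
      simp only [hne, hne', if_false] at hθx ⊢
      exact f_step x hx hθx y hy hyx x' hyx' hn'
    · intro x hx
      rw [hV] at hx
      rw [mem_insert]
      exact (hN' x hx.1).symm
    · intro x hx y hxy
      rw [hV] at hx ⊢
      exact ⟨HN.up t x hx.1 y hxy, fun h => hx.2 (hD.1 x y hxy h)⟩
    · intro x hx hl
      rw [hV]
      refine ⟨hlow t (mem_lowPart.mpr ⟨H.le_t x hx, by omega⟩), fun h => ?_⟩
      have := hD.2.2.1 x h
      omega
    · rintro x hx ⟨-, hb⟩
      rw [hV]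
      have h3 := hB' x hx hb
      refine ⟨h3, fun h => hD.2.2.2 x h ((hB x h3 ?_).mpr hb)⟩
      rintro rfl
      exact h2 hx
  · intro x hx hk hθx
    have hxN := hmem hx hk
    by_cases hne : x = y2
    · rw [hne, ← hl12]; exact hy
    · rw [hθ x hxN hne] at hθx
      exact f_lev x ((hN' x hxN).resolve_right hne) hθx
  · intro x hx hk hθx y hyx hy' hBy
    have hxN := hmem hx hk
    have hyN := hmem hy' ((HN.cp y x hyx hy').trans hk)
    by_cases hne : x = y2
    · -- below `y2`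
      by_cases hyne : y = y2
      · rw [hyne] at hBy
        exact hB2 hBy
      · have := (hN' y hyN).resolve_right hyne
        exact h2 (hup y this y2 (hne ▸ hyx))
    · have hx' := (hN' x hxN).resolve_right hne
      rw [hθ x hxN hne] at hθx
      by_cases hyne : y = y2
      · rw [hyne] at hBy
        exact hB2 hBy
      · have hy'' := (hN' y hyN).resolve_right hyne
        exact f_base x hx' hθx y hy'' hyx ((hB y hyN hyne).mp hBy)
  · intro x hx hk hθx y hyx hy' x' hx' hyx' hn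
    have hxN := hmem hx hk
    have hyt : topOf y = t := (HN.cp y x hyx hy').trans hk
    have hyN := hmem hy' hyt
    have hx'N := hmem hx' ((HN.cp y x' hyx'.1.le hy').symm.trans hyt)
    by_cases hne : x = y2
    · rw [hne, hθ2]
      omega
    · have hxN' := (hN' x hxN).resolve_right hne
      rw [hθ x hxN hne] at hθx ⊢
      by_cases hyne : y = y2
      · subst hyne
        have h3 := habv x' hyx'.1
        have h4 : x' ≠ y := hyx'.1.ne'
        rw [hθ x' hx'N h4]
        refine f_step x hxN' hθx y1 h1 (hx2 hyx hxN') x' ?_ hn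
        exact ⟨(hup12 x').mpr hyx'.1, fun v hv1 hv2 => hyx'.2 ((hup12 v).mp hv1) hv2⟩
      · have hyN' := (hN' y hyN).resolve_right hyne
        have hx'N' := hup y hyN' x' hyx'.1.le
        have h4 : x' ≠ y2 := fun h => h2 (h ▸ hx'N')
        rw [hθ x' hx'N h4]
        exact f_step x hxN' hθx y hyN' hyx x' hyx' hn
  · intro x hx hk
    have hxN := hmem hx hk
    by_cases hne : x = y2
    · rw [hne, hθ2, ← hl12]
      omega
    · rw [hθ x hxN hne]
      exact f_le x ((hN' x hxN).resolve_right hne)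

end Nat

end Pool.Agent.GaussPoset.J8
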