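import Pool.Agent.W_448j8_h67.JaH
import Pool.Agent.W_448j8_h67.JaD

/-!
The components at the window 4, level 8: quadric, `E6`, `E7`, flip word (MP_448cb3_co).
-/

namespace Pool.Agent.GaussPoset.J8

set_option linter.unusedSectionVars false

open Polynomial Finset Dd Wd Cl

universe u

variable {P : Type u} [Fintype P] [PartialOrder P] [DecidableEq P] {r : ℕ}
variable {t : Tops P} {lo hi : ℕ → ℕ} {e : ℕ → ℕ → P}

/-- the elements above a cell of the last row of a word -/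
lemma nab_word {a : ℕ} {w : List Ltr} (D : WordD 8 a w lo hi) (C : Cp.Comp 8 (t : P) lo hi e)
    (h : Win.GoodTo P r 8) {s : ℕ} (h1 : losW a w 8 ≤ s) (h2 : s ≤ hisW a w 8) {l c : ℕ}
    (hl : l ≤ 8) (hc : (upI (losW a w) (hisW a w) 8 s (8 - l)).2 + 1 -
      (upI (losW a w) (hisW a w) 8 s (8 - l)).1 = c) : nab l (e 8 s) = c := by
  obtain ⟨r1, r2⟩ := D.rows C
  have h3 := nab_upI C h.H h.good t.2 (s := s) (by rw [r1 8 le_rfl]; exact h1)
    (by rw [r2 8 le_rfl]; exact h2) (m := 8 - l) (by omega)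
  have h4 : upI lo hi 8 s (8 - l) = upI (losW a w) (hisW a w) 8 s (8 - l) := by
    have := upI_congr (L := losW a w) (H := hisW a w) (lo := lo) (hi := hi) (B := 0)
      (N := 8) (s := s) (fun n hn => by rw [Nat.zero_add]; exact (r1 n hn).symm)
      (fun n hn => by rw [Nat.zero_add]; exact (r2 n hn).symm) (8 - l) (by omega)
    rw [this]
  rw [h4, hc, show 8 - (8 - l) = l by omega] at h3
  exact h3

/-- two elements of level 8 have two elements of level 7 above them -/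
lemma nab7_two (C : Cp.Comp 8 (t : P) lo hi e) (h7 : lo 7 < hi 7) {x x' z : P} (hne : x ≠ x')
    (hxt : x ≤ (t : P)) (hxt' : x' ≤ (t : P)) (hl : lev x = 8) (hl' : lev x' = 8) (hzx : z ≤ x)
    (hzx' : z ≤ x') : 2 ≤ nab 7 z := by
  obtain ⟨s, s1, s2, hs⟩ := C.surj x hxt hl.le
  obtain ⟨s', s1', s2', hs'⟩ := C.surj x' hxt' hl'.le
  rw [hl] at s1 s2 hs
  rw [hl'] at s1' s2' hs'
  subst hs
  subst hs'
  have hss : s ≠ s' := fun h => hne (by rw [h])
  have a1 := C.lo_step 7 (by norm_num)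
  have a2 := C.hi_step 7 (by norm_num)
  norm_num at a1 a2
  have key : ∀ a b : ℕ, a < b → lo 8 ≤ a → b ≤ hi 8 → z ≤ e 8 a → z ≤ e 8 b → 2 ≤ nab 7 z := by
    intro a b hab ha hb hza hzb
    have ha' : a ≤ hi 8 := by omega
    have hb' : lo 8 ≤ b := by omega
    have c1 := (C.cov 7 a (max (lo 7) (a - 1)) (by norm_num) ha ha' (by omega)
      (by omega)).2 (by omega)
    have c2 := (C.cov 7 b (min (hi 7) b) (by norm_num) hb' hb (by omega)
      (by omega)).2 (by omega)
    refine two_le_nab (hza.trans c1.1.le) (hzb.trans c2.1.le)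
      (C.lev_e 7 _ (by norm_num) (by omega) (by omega))
      (C.lev_e 7 _ (by norm_num) (by omega) (by omega)) fun hh => ?_
    have := C.inj 7 _ _ (by norm_num) (by omega) (by omega) (by omega) (by omega) hh
    omega
  rcases Nat.lt_or_gt_of_ne hss with h | h
  · exact key s s' h s1 s2' hzx hzx'
  · exact key s' s h s1' s2 hzx' hzx

/-- the quadric -/
theorem tdQuad (h : Win.GoodTo P r 8) (C : Cp.Comp 8 (t : P) lo hi e)
    (Q : QRows 8 4 lo hi) : ∃ θ B, TD t (hi 4 - lo 4 + 1) 0 ∅ θ B := by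
  classical
  have hQ : QInf 4 4 t := Q.inf (m := 4) C (by norm_num)
  have hup := low_up (t := t) (m := 4) h
  have hN := natTop_quad (by norm_num) (dvd_W_Qd 4) hQ (fun x hx y hxy => hup x y hxy hx)
  have h4 := Q.at'
  have hb : hi 4 - lo 4 + 1 = 2 := by omega
  have hprof : ∀ x, x ≤ (t : P) → lev x = 8 → Qp x := by
    intro x hx hl
    have hpr := quad_prof hQ hx (by omega) hup (by norm_num)
    have q : ∀ l, 4 ≤ l → l ≤ 8 → nab l x = 1 + Fi.gD (List.replicate 4 0 ++ [1]) (8 - l) := by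
      intro l h5 h6
      have := hpr (8 - l) (by omega)
      rw [show 2 * 4 - (8 - l) = l by omega] at this
      exact this
    refine ⟨?_, ?_, ?_, ?_⟩
    · rw [q 4 le_rfl (by norm_num)]; rfl
    · rw [q 5 (by norm_num) (by norm_num)]; rfl
    · rw [q 6 (by norm_num) (by norm_num)]; rfl
    · rw [q 7 (by norm_num) (by norm_num)]; rfl
  refine ⟨fun _ => 0, fun x => x ∈ lowPart 8 (t : P), ?_⟩
  rw [hb]
  constructor
  · norm_num
  · norm_num
  · exact fun y hy => absurd hy (Finset.notMem_empty _)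
  · exact fun y hy => absurd hy (Finset.notMem_empty _)
  · exact fun y hy => absurd hy (Finset.notMem_empty _)
  · exact fun y hy => absurd hy (Finset.notMem_empty _)
  · exact fun x z hxt hl _ _ => Or.inr (Or.inl ⟨rfl, Or.inr (hprof x hxt hl)⟩)
  · intro x x' z hne hxt hxt' hl hl' _ _ _
    exact absurd (le_antisymm (hQ.bot x hxt (by omega) x' hxt' (by omega))
      (hQ.bot x' hxt' (by omega) x hxt (by omega))) hne
  · exact fun x hxt hl _ _ => Or.inr (hprof x hxt hl)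
  · intro N HN hlow hN' θ' B' hθ hB
    refine compL_nat HN hN ?_ ?_ hθ hB 13
    · intro x hx
      rw [hN', Finset.union_empty] at hx
      exact hx
    · intro x hx _
      rw [hN', Finset.union_empty]
      exact hx
  · exact fun h => absurd h (by norm_num)

lemma E6_rows8 : losW 3 w6 8 = 3 ∧ hisW 3 w6 8 = 3 ∧ losW 3 w6 7 = 2 ∧ hisW 3 w6 7 = 3 ∧
    losW 3 w6 4 = 0 ∧ hisW 3 w6 4 = 1 := by decide +kernel

/-- `E6` -/
theorem tdE6 (h : Win.GoodTo P r 8) (C : Cp.Comp 8 (t : P) lo hi e) (D : WordD 8 3 w6 lo hi) :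
    ∃ θ B, TD t (hi 4 - lo 4 + 1) 0 ∅ θ B := by
  classical
  have hN := natTopC_E6_4 D C h.H h.good (by norm_num) (by norm_num)
  obtain ⟨r1, r2⟩ := D.rows C
  obtain ⟨e1, e2, e3, e4, e5, e6⟩ := E6_rows8
  have hb : hi 4 - lo 4 + 1 = 2 := by
    rw [r1 4 (by norm_num), r2 4 (by norm_num), e5, e6]
  have hcell : ∀ x, x ≤ (t : P) → lev x = 8 → x = e 8 3 := by
    intro x hx hl
    obtain ⟨s, s1, s2, hs⟩ := C.surj x hx hl.le
    rw [hl] at s1 s2 hs
    rw [r1 8 le_rfl, e1] at s1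
    rw [r2 8 le_rfl, e2] at s2
    rw [← hs, show s = 3 by omega]
  have hth : thC lo hi e E6t4 (e 8 3) = 1 := by
    rw [thC_e C E6t4 le_rfl (by rw [r1 8 le_rfl, e1]) (by rw [r2 8 le_rfl, e2])]
    decide +kernel
  refine ⟨thC lo hi e E6t4, fun x => x = e 7 3, ?_⟩
  rw [hb]
  constructor
  · norm_num
  · norm_num
  · exact fun y hy => absurd hy (Finset.notMem_empty _)
  · exact fun y hy => absurd hy (Finset.notMem_empty _)
  · exact fun y hy => absurd hy (Finset.notMem_empty _)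
  · exact fun y hy => absurd hy (Finset.notMem_empty _)
  · intro x z hxt hl _ _
    right; right
    rw [hcell x hxt hl]
    refine ⟨hth, Or.inr ⟨?_, ?_⟩⟩
    · exact (nab_word D C h (s := 3) (by rw [e1]) (by rw [e2]) (l := 6) (c := 2) (by norm_num)
        (by decide +kernel)).ge
    · exact (nab_word D C h (s := 3) (by rw [e1]) (by rw [e2]) (l := 7) (c := 2) (by norm_num)
        (by decide +kernel)).ge
  · intro x x' z hne hxt hxt' hl hl' _ _ _
    exact absurd ((hcell x hxt hl).trans (hcell x' hxt' hl').symm) hne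
  · intro x hxt hl h0 _
    rw [hcell x hxt hl, hth] at h0
    exact absurd h0 (by norm_num)
  · intro N HN hlow hN' θ' B' hθ hB
    refine compL_nat HN hN ?_ ?_ hθ hB 13
    · intro x hx
      rw [hN', Finset.union_empty] at hx
      exact hx
    · intro x hx _
      rw [hN', Finset.union_empty]
      exact hx
  · exact fun h => absurd h (by norm_num)

/-- the own elements below the last cell of level 8 -/
noncomputable def Yw (t : Tops P) (v : P) : Finset P := by
  classical exact univ.filter (fun y => y ⋖ v ∧ ∃ x', x' ≤ (t : P) ∧ x' ≠ v ∧ y ⋖ x')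

lemma mem_Yw {v y : P} : y ∈ Yw t v ↔ y ⋖ v ∧ ∃ x', x' ≤ (t : P) ∧ x' ≠ v ∧ y ⋖ x' := by
  classical
  unfold Yw
  simp

/-- the thresholds of `E7` and of the flip word -/
noncomputable def thW (Y : Finset P) (v x : P) : ℕ := by
  classical exact if x ∈ Y ∨ (lev x = 8 ∧ x ≠ v) then 1 else 0

/-- common part of `E7` and of the flip word -/
theorem tdWord (h : Win.GoodTo P r 8) (C : Cp.Comp 8 (t : P) lo hi e) {w : ℕ} (hw : w ≤ 1)
    (h48 : lo 8 ≤ 4) (h48' : hi 8 = 4) (h7 : lo 7 < hi 7)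
    {w1 w2 : P} (hw1 : w1 ≤ (t : P)) (hw2 : w2 ≤ (t : P))
    (hY : ∀ y x', y ⋖ e 8 4 → x' ≤ (t : P) → lev x' = 8 → x' ≠ e 8 4 → y ⋖ x' →
      x' = w1 ∨ x' = w2)
    (hq : Qp (e 8 4)) (hoth : ∀ s, lo 8 ≤ s → s < 4 → Dp (e 8 s) ∨
      (2 ≤ nab 6 (e 8 s) ∧ 2 ≤ nab 7 (e 8 s)))
    (hlowU : ∀ Y, Add (e 8 4) w1 w2 Y → ∀ U : Finset P,
      (∀ x ∈ U, x ∈ lowPart 8 (t : P) ∨ x ∈ Y) → (∀ x ∈ U, ∀ y, x ≤ y → y ∈ U) →
      (∀ x ∈ lowPart 8 (t : P), lev x ≤ 4 → x ∈ U) → e 8 4 ∈ U →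
      ∀ n < 13 - w, (1 + X : ℤ[X]) ^ 2 ∣ Z {x : P // x ∈ U} 4 n)
    (hfull : w = 1 → ∀ Y, Add (e 8 4) w1 w2 Y → ∀ U : Finset P,
      (∀ x, x ∈ U ↔ x ∈ lowPart 8 (t : P) ∨ x ∈ Y) → ∀ f : Polynomial (PowerSeries ℤ),
      (∀ n, exq n f = Z {x : P // x ∈ U} 4 n) → Pl 12 2 1 f) :
    TD t 2 w (Yw t (e 8 4)) (thW (Yw t (e 8 4)) (e 8 4)) (fun x => x = e 8 4) := by
  classical
  have H := h.H
  have hv8 : lev (e 8 4) = 8 := C.lev_e 8 4 le_rfl h48 h48'.ge
  have hvt : e 8 4 ≤ (t : P) := C.le_t 8 4 le_rfl h48 h48'.ge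
  have hcov8 : ∀ {y v : P}, lev y = 9 → y ⋖ v → lev v = 8 := by
    intro y v hy hyv
    have := (H.covBy_iff.mp hyv).2
    omega
  have hY9 : ∀ y ∈ Yw t (e 8 4), lev y = 9 := by
    intro y hy
    have := (H.covBy_iff.mp (mem_Yw.mp hy).1).2
    omega
  have hpair : ∀ {y a b v : P}, y ⋖ a → y ⋖ b → a ≠ b → y ⋖ v → v = a ∨ v = b := by
    intro y a b v h1 h2 h3 h4
    exact uc_pair H h1 h2 h3 h4
  have hAdd : Add (e 8 4) w1 w2 (Yw t (e 8 4)) := by
    refine ⟨?_, hY9, ?_⟩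
    · refine (Finset.card_le_card (t := Win.dc (e 8 4)) fun y hy => ?_).trans
        (Win.dc_card_le H _)
      rw [Win.mem_dc]
      exact (mem_Yw.mp hy).1
    · intro y hy
      obtain ⟨h1, x', h2, h3, h4⟩ := mem_Yw.mp hy
      have hy9 := hY9 y hy
      have h5 := hY y x' h1 h2 (hcov8 hy9 h4) h3 h4
      have h6 : ∀ v, y ⋖ v ↔ v = e 8 4 ∨ v = x' := fun v => by
        constructor
        · exact hpair h1 h4 (Ne.symm h3)
        · rintro (h | h)
          · rw [h]; exact h1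
          · rw [h]; exact h4
      rcases h5 with h5 | h5
      · left; rw [← h5]; exact h6
      · right; rw [← h5]; exact h6
  have hth0 : ∀ x, lev x = 8 → (thW (Yw t (e 8 4)) (e 8 4) x = 0 ↔ x = e 8 4) := by
    intro x hl
    unfold thW
    split_ifs with hc
    · constructor
      · intro h0; exact absurd h0 (by norm_num)
      · rintro rfl
        rcases hc with hc | hc
        · have := hY9 _ hc; omega
        · exact absurd rfl hc.2
    · refine ⟨fun _ => ?_, fun _ => rfl⟩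
      by_contra hne
      exact hc (Or.inr ⟨hl, hne⟩)
  have hth1 : ∀ x, thW (Yw t (e 8 4)) (e 8 4) x ≤ 1 := by
    intro x
    unfold thW
    split_ifs <;> norm_num
  have hcell : ∀ x, x ≤ (t : P) → lev x = 8 → ∃ s, lo 8 ≤ s ∧ s ≤ 4 ∧ x = e 8 s := by
    intro x hx hl
    obtain ⟨s, s1, s2, hs⟩ := C.surj x hx hl.le
    rw [hl] at s1 s2 hs
    exact ⟨s, s1, by omega, hs.symm⟩
  -- the natural set
  have hNt : ∀ N : Tops P → Finset P, N t = lowPart 8 (t : P) ∪ Yw t (e 8 4) →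
      ∀ x, x ∈ N t ↔ x ∈ lowPart 8 (t : P) ∨ x ∈ Yw t (e 8 4) := by
    intro N hN x
    rw [hN, mem_union]
  have hvN : ∀ N : Tops P → Finset P, N t = lowPart 8 (t : P) ∪ Yw t (e 8 4) → e 8 4 ∈ N t := by
    intro N hN
    rw [hN, mem_union, mem_lowPart]
    exact Or.inl ⟨hvt, hv8.le⟩
  constructor
  · norm_num
  · exact hw
  · exact hY9
  · intro y hy v hyv
    obtain ⟨h1, x', h2, h3, h4⟩ := mem_Yw.mp hy
    rcases hpair h1 h4 (Ne.symm h3) hyv with h | h
    · rw [h]; exact hvt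
    · rw [h]; exact h2
  · intro y hy
    unfold thW
    rw [if_pos (Or.inl hy)]
  · intro y hy
    obtain ⟨h1, x', h2, h3, h4⟩ := mem_Yw.mp hy
    exact two_le_nab h1.1.le h4.1.le hv8 (hcov8 (hY9 y hy) h4) (Ne.symm h3)
  · intro x z hxt hl _ _
    right
    obtain ⟨s, s1, s2, rfl⟩ := hcell x hxt hl
    rcases Nat.lt_or_ge s 4 with h4 | h4
    · right
      have h5 : thW (Yw t (e 8 4)) (e 8 4) (e 8 s) ≠ 0 := by
        intro h0
        have := (hth0 _ hl).mp h0
        have := C.inj 8 s 4 le_rfl s1 (by omega) h48 (by omega) this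
        omega
      have := hth1 (e 8 s)
      exact ⟨by omega, hoth s s1 h4⟩
    · left
      obtain rfl : s = 4 := by omega
      exact ⟨(hth0 _ hl).mpr rfl, Or.inr hq⟩
  · intro x x' z hne hxt hxt' hl hl' hzx hzx' hzY
    right; left
    have h1 : x ≠ e 8 4 := by
      rintro rfl
      exact hzY (mem_Yw.mpr ⟨hzx, x', hxt', Ne.symm hne, hzx'⟩)
    have h2 : x' ≠ e 8 4 := by
      rintro rfl
      exact hzY (mem_Yw.mpr ⟨hzx', x, hxt, hne, hzx⟩)
    have h3 : thW (Yw t (e 8 4)) (e 8 4) x ≠ 0 := fun h0 => h1 ((hth0 x hl).mp h0)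
    have h4 : thW (Yw t (e 8 4)) (e 8 4) x' ≠ 0 := fun h0 => h2 ((hth0 x' hl').mp h0)
    exact ⟨by omega, by omega, nab7_two C h7 hne hxt hxt' hl hl' hzx.1.le hzx'.1.le⟩
  · intro x hxt hl h0 _
    rw [(hth0 x hl).mp h0]
    exact Or.inr hq
  · intro N HN hlow hN θ' B' hθ hB
    have hm := hNt N hN
    have hmem : ∀ {x}, x ∉ unnat N → topOf x = t → x ∈ N t := fun {x} h1 h2 =>
      HN.mem_iff.mpr ⟨h1, h2⟩
    have hpos : ∀ x ∈ N t, 1 ≤ θ' x → 8 ≤ lev x ∧ x ≠ e 8 4 := by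
      intro x hx h1
      rw [hθ x hx] at h1
      unfold thW at h1
      split_ifs at h1 with hc
      · rcases hc with hc | hc
        · have := hY9 x hc
          refine ⟨by omega, ?_⟩
          rintro rfl
          omega
        · exact ⟨hc.1.ge, hc.2⟩
      · omega
    constructor
    · intro E hE hdec n hn
      let U : Finset P := (N t).filter (fun x => x ∉ E)
      have hU : ∀ x, x ∈ U ↔ x ∈ N t ∧ x ∉ E := fun x => by simp [U]
      have hiso : {x : P // x ∈ U} ≃o {x : {x : P // x ∉ E} // topOf (x : P) = t} :=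
        { toFun := fun x => ⟨⟨x, ((hU x).mp x.2).2⟩, HN.topOf_eq ((hU x).mp x.2).1⟩
          invFun := fun x => ⟨x.1.1, (hU _).mpr ⟨hmem (fun h => x.1.2 (hE.2.1 h)) x.2, x.1.2⟩⟩
          left_inv := fun x => rfl
          right_inv := fun x => rfl
          map_rel_iff' := Iff.rfl }
      rw [← Z_iso hiso]
      refine hlowU _ hAdd U (fun x hx => (hm x).mp ((hU x).mp hx).1) ?_ ?_ ?_ n hn
      · intro x hx y hxy
        rw [hU] at hx ⊢
        exact ⟨HN.up t x hx.1 y hxy, fun h => hx.2 (hE.1 x y hxy h)⟩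
      · intro x hx hl
        rw [hU]
        exact ⟨(hm x).mpr (Or.inl hx), fun h => by have := hE.2.2.1 x h; omega⟩
      · rw [hU]
        exact ⟨hvN N hN, fun h => hE.2.2.2 _ h ((hB _ (hvN N hN)).mpr rfl)⟩
    · intro x hx hk h1
      have := (hpos x (hmem hx hk) h1).1
      omega
    · intro x hx hk h1 y hyx hy hBy
      obtain ⟨h2, h3⟩ := hpos x (hmem hx hk) h1
      have h4 := (hB y (hmem hy ((HN.cp y x hyx hy).trans hk))).mp hBy
      subst h4
      rcases eq_or_lt_of_le hyx with h5 | h5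
      · exact h3 h5.symm
      · have := lev_strictAnti h5
        omega
    · intro x hx hk _ _ _ _ _ _ _ _
      rw [hθ x (hmem hx hk)]
      have := hth1 x
      omega
    · intro x hx hk
      rcases Nat.eq_zero_or_pos (θ' x) with h1 | h1
      · omega
      · have h2 := (hpos x (hmem hx hk) h1).1
        rw [hθ x (hmem hx hk)]
        have := hth1 x
        omega
  · intro hw1' N HN hN f hf
    refine hfull hw1' _ hAdd (N t) (hNt N hN) f fun n => ?_
    rw [hf n]
    have hiso : {x : P // x ∈ N t} ≃o {x : {x : P // x ∉ unnat N} // topOf (x : P) = t} :=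
      { toFun := fun x => ⟨⟨x, (HN.mem_iff.mp x.2).1⟩, HN.topOf_eq x.2⟩
        invFun := fun x => ⟨x.1.1, HN.mem_iff.mpr ⟨x.1.2, x.2⟩⟩
        left_inv := fun x => rfl
        right_inv := fun x => rfl
        map_rel_iff' := Iff.rfl }
    rw [Z_iso hiso]

end Pool.Agent.GaussPoset.J8
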