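import Pool.Agent.W_448j8_h67.JaI

/-!
The components at the window 4, level 8: `E7` and flip word, stair-like components
(MP_448cb3_co).
-/

namespace Pool.Agent.GaussPoset.J8

set_option linter.unusedSectionVars false

open Polynomial Finset Dd Wd Cl

universe u

variable {P : Type u} [Fintype P] [PartialOrder P] [DecidableEq P] {r : ℕ}
variable {t : Tops P} {lo hi : ℕ → ℕ} {e : ℕ → ℕ → P}

lemma E7_rows8 : losW 4 w7 8 = 2 ∧ hisW 4 w7 8 = 4 ∧ losW 4 w7 7 = 2 ∧ hisW 4 w7 7 = 3 ∧
    losW 4 w7 4 = 0 ∧ hisW 4 w7 4 = 1 := by decide +kernel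

lemma W8_rows8 : losW 4 w8 8 = 1 ∧ hisW 4 w8 8 = 4 ∧ losW 4 w8 7 = 1 ∧ hisW 4 w8 7 = 3 ∧
    losW 4 w8 4 = 0 ∧ hisW 4 w8 4 = 1 := by decide +kernel

/-- `E7` -/
theorem tdE7 (h : Win.GoodTo P r 8) (C : Cp.Comp 8 (t : P) lo hi e) (D : WordD 8 4 w7 lo hi) :
    ∃ Y θ B, TD t (hi 4 - lo 4 + 1) 0 Y θ B := by
  obtain ⟨r1, r2⟩ := D.rows C
  obtain ⟨e1, e2, e3, e4, e5, e6⟩ := E7_rows8
  have l8 : lo 8 = 2 := by rw [r1 8 le_rfl, e1]
  have u8 : hi 8 = 4 := by rw [r2 8 le_rfl, e2]
  have l7 : lo 7 = 2 := by rw [r1 7 (by norm_num), e3]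
  have u7 : hi 7 = 3 := by rw [r2 7 (by norm_num), e4]
  have hb : hi 4 - lo 4 + 1 = 2 := by
    rw [r1 4 (by norm_num), r2 4 (by norm_num), e5, e6]
  rw [hb]
  refine ⟨_, _, _, tdWord (w := 0) (w1 := e 8 3) (w2 := e 8 2) h C (by norm_num) (by omega) u8
    (by omega) (C.le_t 8 3 le_rfl (by omega) (by omega)) (C.le_t 8 2 le_rfl (by omega)
    (by omega)) ?_ ?_ ?_ ?_ (fun h => absurd h (by norm_num))⟩
  · intro y x' _ hx' hl' hne _
    obtain ⟨s, s1, s2, hs⟩ := C.surj x' hx' hl'.le
    rw [hl'] at s1 s2 hs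
    have h3 : s ≠ 4 := by
      rintro rfl
      exact hne hs.symm
    rcases (show s = 3 ∨ s = 2 by omega) with h4 | h4
    · left; rw [← hs, h4]
    · right; rw [← hs, h4]
  · have q : ∀ l c, l ≤ 8 → (upI (losW 4 w7) (hisW 4 w7) 8 4 (8 - l)).2 + 1 -
        (upI (losW 4 w7) (hisW 4 w7) 8 4 (8 - l)).1 = c → nab l (e 8 4) = c := fun l c hl hc =>
      nab_word D C h (by rw [e1]; norm_num) (by rw [e2]) hl hc
    exact ⟨q 4 2 (by norm_num) (by decide +kernel), q 5 1 (by norm_num) (by decide +kernel),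
      q 6 1 (by norm_num) (by decide +kernel), q 7 1 (by norm_num) (by decide +kernel)⟩
  · intro s hs hs4
    rcases (show s = 2 ∨ s = 3 by omega) with rfl | rfl
    · left
      have q : ∀ l c, l ≤ 8 → (upI (losW 4 w7) (hisW 4 w7) 8 2 (8 - l)).2 + 1 -
          (upI (losW 4 w7) (hisW 4 w7) 8 2 (8 - l)).1 = c → nab l (e 8 2) = c :=
        fun l c hl hc => nab_word D C h (by rw [e1]) (by rw [e2]; norm_num) hl hc
      exact ⟨q 4 2 (by norm_num) (by decide +kernel), q 5 2 (by norm_num) (by decide +kernel),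
        q 6 2 (by norm_num) (by decide +kernel), q 7 1 (by norm_num) (by decide +kernel)⟩
    · right
      have q : ∀ l c, l ≤ 8 → (upI (losW 4 w7) (hisW 4 w7) 8 3 (8 - l)).2 + 1 -
          (upI (losW 4 w7) (hisW 4 w7) 8 3 (8 - l)).1 = c → nab l (e 8 3) = c :=
        fun l c hl hc => nab_word D C h (by rw [e1]; norm_num) (by rw [e2]; norm_num) hl hc
      exact ⟨(q 6 2 (by norm_num) (by decide +kernel)).ge,
        (q 7 2 (by norm_num) (by decide +kernel)).ge⟩
  · intro Y hY U hU hup hlow hbase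
    exact e7_low D C h.H h.good t.2 hY hU hup hlow hbase

/-- the flip word -/
theorem tdW8 (h : Win.GoodTo P r 8) (C : Cp.Comp 8 (t : P) lo hi e) (D : WordD 8 4 w8 lo hi) :
    ∃ Y θ B, TD t (hi 4 - lo 4 + 1) 1 Y θ B := by
  classical
  obtain ⟨r1, r2⟩ := D.rows C
  obtain ⟨e1, e2, e3, e4, e5, e6⟩ := W8_rows8
  have l8 : lo 8 = 1 := by rw [r1 8 le_rfl, e1]
  have u8 : hi 8 = 4 := by rw [r2 8 le_rfl, e2]
  have l7 : lo 7 = 1 := by rw [r1 7 (by norm_num), e3]
  have u7 : hi 7 = 3 := by rw [r2 7 (by norm_num), e4]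
  have hb : hi 4 - lo 4 + 1 = 2 := by
    rw [r1 4 (by norm_num), r2 4 (by norm_num), e5, e6]
  rw [hb]
  have q : ∀ s l c, 1 ≤ s → s ≤ 4 → l ≤ 8 → (upI (losW 4 w8) (hisW 4 w8) 8 s (8 - l)).2 + 1 -
      (upI (losW 4 w8) (hisW 4 w8) 8 s (8 - l)).1 = c → nab l (e 8 s) = c :=
    fun s l c h1 h2 hl hc => nab_word D C h (by rw [e1]; exact h1) (by rw [e2]; exact h2) hl hc
  refine ⟨_, _, _, tdWord (w := 1) (w1 := e 8 3) (w2 := e 8 1) h C (by norm_num) (by omega) u8
    (by omega) (C.le_t 8 3 le_rfl (by omega) (by omega)) (C.le_t 8 1 le_rfl (by omega)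
    (by omega)) ?_ ?_ ?_ ?_ ?_⟩
  · intro y x' hy hx' hl' hne hyx'
    obtain ⟨s, s1, s2, hs⟩ := C.surj x' hx' hl'.le
    rw [hl'] at s1 s2 hs
    have h3 : s ≠ 4 := by
      rintro rfl
      exact hne hs.symm
    have h5 : s ≠ 2 := by
      rintro rfl
      have hly : lev y = 7 + 2 := by
        have := (h.H.covBy_iff.mp hyx').2
        omega
      rcases (Win.near_level' (i := 7) h (by norm_num)).1 y (e 8 4) x' hly hy hyx'
        (Ne.symm hne) with h6 | ⟨-, h6, -⟩
      · obtain ⟨u, hu1, hu2⟩ := Win.exists_of_ucv (v := e 8 4) (v' := x')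
          (by rw [h6]; exact one_pos)
        have hut : u ≤ (t : P) := Cp.up_le h.H h.good t.2 hx' hl'.le hu2.1.le
        have hul : lev u = 7 := by
          have := (h.H.covBy_iff.mp hu2).2
          omega
        obtain ⟨s', s1', s2', hs'⟩ := C.surj u hut (by omega)
        rw [hul] at s1' s2' hs'
        rw [← hs'] at hu1 hu2
        rw [← hs] at hu2
        have c1 := (C.cov 7 4 s' (by norm_num) (by show lo 8 ≤ 4; omega)
          (by show 4 ≤ hi 8; omega) s1' s2').1 hu1
        have c2 := (C.cov 7 2 s' (by norm_num) (by show lo 8 ≤ 2; omega)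
          (by show 2 ≤ hi 8; omega) s1' s2').1 hu2
        omega
      · have h7 := uc_card_nab h.H (x := x') (by omega)
        rw [hl', ← hs, q 2 7 2 (by norm_num) (by norm_num) (by norm_num)
          (by decide +kernel)] at h7
        rw [← hs, h7] at h6
        exact absurd h6 (by norm_num)
    rcases (show s = 3 ∨ s = 1 by omega) with h4 | h4
    · left; rw [← hs, h4]
    · right; rw [← hs, h4]
  · exact ⟨q 4 4 2 (by norm_num) le_rfl (by norm_num) (by decide +kernel),
      q 4 5 1 (by norm_num) le_rfl (by norm_num) (by decide +kernel),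
      q 4 6 1 (by norm_num) le_rfl (by norm_num) (by decide +kernel),
      q 4 7 1 (by norm_num) le_rfl (by norm_num) (by decide +kernel)⟩
  · intro s hs hs4
    rcases (show s = 1 ∨ s = 2 ∨ s = 3 by omega) with rfl | rfl | rfl
    · left
      exact ⟨q 1 4 2 le_rfl (by norm_num) (by norm_num) (by decide +kernel),
        q 1 5 2 le_rfl (by norm_num) (by norm_num) (by decide +kernel),
        q 1 6 2 le_rfl (by norm_num) (by norm_num) (by decide +kernel),
        q 1 7 1 le_rfl (by norm_num) (by norm_num) (by decide +kernel)⟩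
    · right
      exact ⟨(by norm_num : 2 ≤ 3).trans (q 2 6 3 (by norm_num) (by norm_num) (by norm_num)
        (by decide +kernel)).ge,
        (q 2 7 2 (by norm_num) (by norm_num) (by norm_num) (by decide +kernel)).ge⟩
    · right
      exact ⟨(q 3 6 2 (by norm_num) (by norm_num) (by norm_num) (by decide +kernel)).ge,
        (q 3 7 2 (by norm_num) (by norm_num) (by norm_num) (by decide +kernel)).ge⟩
  · intro Y hY U hU hup hlow hbase
    exact w8_low D C h.H h.good t.2 hY hU hup hlow hbase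
  · intro _ Y hY U hU f hf
    exact w8_full D C h.H h.good t.2 hY hU hf

/-- sums above an element of level 9 with a cover with the profile of the fold end -/
lemma fold_sum {y1 F : P} (hyF : y1 < F) (hlF : lev F = 8) (h5 : nab 5 F = 2)
    (h6 : nab 6 F = 2) (h7 : nab 7 F = 1) :
    (13 ≤ ∑ y, (by classical exact if y1 ≤ y then lev y - 4 else 0)) ∧
    (10 ≤ ∑ y, (by classical exact if y1 < y then min (1 + 1) (lev y - 4) else 0)) := by
  classical
  have h8 : nab 8 F = 1 := by
    have := nab_self (z := F)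
    rwa [hlF] at this
  have c5 : cst 4 (fun _ => 5) F = 13 := by
    rw [cst_eq, hlF]
    simp only [Finset.sum_range_succ, Finset.sum_range_zero, h5, h6, h7, h8]
    norm_num
  have c2 : cst 4 (fun _ => 2) F = 10 := by
    rw [cst_eq, hlF]
    simp only [Finset.sum_range_succ, Finset.sum_range_zero, h5, h6, h7, h8]
    norm_num
  constructor
  · rw [← c5]
    unfold cst ez
    refine Finset.sum_le_sum fun y _ => ?_
    split_ifs with a b b
    · exact min_le_right _ _
    · exact absurd (hyF.le.trans a) b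
    · exact Nat.zero_le _
    · exact Nat.zero_le _
  · rw [← c2]
    unfold cst ez
    refine Finset.sum_le_sum fun y _ => ?_
    split_ifs with a b b
    · exact le_rfl
    · exact absurd (hyF.trans_le a) b
    · exact Nat.zero_le _
    · exact Nat.zero_le _

end Pool.Agent.GaussPoset.J8
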