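import Pool.Agent.W_448j8_h67.JaK

/-!
The components at the window 4, level 8: all shapes (MP_448cb3_co).
-/

namespace Pool.Agent.GaussPoset.J8

set_option linter.unusedSectionVars false

open Polynomial Finset Dd Wd Cl

universe u

variable {P : Type u} [Fintype P] [PartialOrder P] [DecidableEq P] {r : ℕ}
variable {t : Tops P} {lo hi : ℕ → ℕ} {e : ℕ → ℕ → P}

/-- stair-like components -/
theorem tdStair (h : Win.GoodTo P r 8) (C : Cp.Comp 8 (t : P) lo hi e)
    (S : StairShape 8 lo hi) : ∃ Y θ B, TD t (hi 4 - lo 4 + 1) 0 Y θ B ∧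
      (lo 8 = 0 → ∀ z, z ⋖ e 8 4 → z ⋖ e 8 0 → z ∉ Y ∧ IsCx t (hi 4 - lo 4 + 1) θ z) := by
  classical
  have H := h.H
  have hg := h.good
  have e0 : lo 4 = 0 := by
    by_contra hcon
    have e1 := shape_lo C S.lo (l := 4) (by omega) 4 (by norm_num)
    have e2 := S.hi (4 + 4) (by norm_num)
    have e3 := C.lo_le (4 + 4) (by norm_num)
    omega
  have u4 := S.hi 4 (by norm_num)
  have u7 := S.hi 7 (by norm_num)
  have u8 := S.hi 8 le_rfl
  norm_num at u4 u7 u8
  have hb : hi 4 - lo 4 + 1 = 3 := by omega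
  obtain ⟨Nc, co, R, hco⟩ := exists_stair' C H hg H.gradedBelow S (i := 4) (by norm_num) e0
  have CC := R.chart
  have hmem : ∀ x, x ≤ (t : P) → lev x = 8 → x ∈ Nc := fun x hx hl =>
    R.strip (mem_lowPart.mpr ⟨hx, hl.le⟩)
  have hcl : ∀ x ∈ Nc, lev x = 8 → (co x).1 + (co x).2 = 8 ∧ (co x).1 ≤ (co x).2 := by
    intro x hx hl
    have h1 := CC.lev x hx
    exact ⟨by omega, CC.mem x hx⟩
  have hu : ∀ x ∈ Nc, lev x = 8 → (Win.uc x).card = 1 → co x = (4, 4) ∨ co x = (0, 8) := by
    intro x hx hl hu1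
    obtain ⟨h1, h2⟩ := hcl x hx hl
    by_contra hcon
    push Not at hcon
    have h3 : (co x).1 ≠ 4 := fun h4 => hcon.1 (Prod.ext h4 (by simp only; omega))
    have h4 : (co x).1 ≠ 0 := fun h4 => hcon.2 (Prod.ext h4 (by simp only; omega))
    have := chartS_inner_uc CC H hx (by omega) (by omega)
    omega
  have hnop : ∀ x z : P, x ≤ (t : P) → lev x = 8 → (Win.uc x).card = 2 → z ⋖ x →
      (∀ y, z ⋖ y → y = x) → False := by
    intro x z hxt hxl hx2 hzx honly
    have h2 := stairShape_pendant (i := 7) h (by norm_num) t.2 C S hxl hxt hx2 hzx honly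
    have h3 := cell_lev C (x := x) hxt (by omega)
    omega
  rw [hb]
  have hcx : lo 8 = 0 → ∀ z, z ⋖ e 8 4 → z ⋖ e 8 0 →
      z ∉ Ys Nc co ∧ IsCx t 3 (thY Nc co) z := by
    intro h0 z hz4 hz0
    have m4 : e 8 4 ∈ lowPart 8 (t : P) := mem_lowPart.mpr
      ⟨C.le_t 8 4 le_rfl (by omega) (by omega), (C.lev_e 8 4 le_rfl (by omega) (by omega)).le⟩
    have m0 : e 8 0 ∈ lowPart 8 (t : P) := mem_lowPart.mpr
      ⟨C.le_t 8 0 le_rfl (by omega) (by omega), (C.lev_e 8 0 le_rfl (by omega) (by omega)).le⟩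
    have c4 : co (e 8 4) = (4, 4) := by
      rw [hco _ m4]
      unfold ccoord
      rw [scoord_e C (k := 8) (s := 4) le_rfl (by omega) (by omega),
        C.lev_e 8 4 le_rfl (by omega) (by omega)]
    have c0 : co (e 8 0) = (0, 8) := by
      rw [hco _ m0]
      unfold ccoord
      rw [scoord_e C (k := 8) (s := 0) le_rfl (by omega) (by omega),
        C.lev_e 8 0 le_rfl (by omega) (by omega)]
    have hne : e 8 4 ≠ e 8 0 := by
      intro hh
      have := C.inj 8 4 0 le_rfl (by omega) (by omega) (by omega) (by omega) hh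
      omega
    refine ⟨?_, Nc, co, e 8 4, e 8 0, ⟨CC, R.strip, R.strip m4, R.strip m0, c4, c0, hz4, hz0,
      fun y hy => uc_pair H hz4 hz0 hne hy⟩, rfl, thY_F CC H (R.strip m4) c4⟩
    intro hY
    obtain ⟨F, hF, hcF, hyF, G, hG, hcG, hyG⟩ := mem_Ys.mp hY
    rcases uc_pair H hz4 hz0 hne hyG with h1 | h1
    · rw [h1, c4] at hcG
      exact absurd hcG (by decide)
    · rw [h1, c0] at hcG
      exact absurd hcG (by decide)
  refine ⟨Ys Nc co, thY Nc co, fun x => x ∈ Nc ∧ co x = (4, 4), ?_, hcx⟩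
  constructor
  · norm_num
  · norm_num
  · exact fun y hy => Ys_lev CC H hy
  · intro y hy v hyv
    obtain ⟨F, hF, hcF, hyF, G, hG, hcG, hyG⟩ := mem_Ys.mp hy
    have hFG : F ≠ G := by
      rintro rfl
      rw [hcF] at hcG
      exact absurd hcG (by decide)
    rcases uc_pair H hyF hyG hFG hyv with h1 | h1
    · rw [h1]; exact CC.le_t F hF
    · rw [h1]; exact CC.le_t G hG
  · intro y hy
    unfold thY
    rw [if_pos hy]
  · intro y hy
    obtain ⟨F, hF, hcF, hyF, G, hG, hcG, hyG⟩ := mem_Ys.mp hy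
    refine two_le_nab hyF.1.le hyG.1.le (by rw [CC.lev F hF, hcF]; rfl)
      (by rw [CC.lev G hG, hcG]; rfl) ?_
    rintro rfl
    rw [hcF] at hcG
    exact absurd hcG (by decide)
  · intro x z hxt hl hzx honly
    have hx := hmem x hxt hl
    obtain ⟨h1, h2⟩ := hcl x hx hl
    have h3 : co x = (4, 4) ∨ co x = (0, 8) := by
      by_contra hcon
      push Not at hcon
      have h3 : (co x).1 ≠ 4 := fun h4 => hcon.1 (Prod.ext h4 (by simp only; omega))
      have h4 : (co x).1 ≠ 0 := fun h4 => hcon.2 (Prod.ext h4 (by simp only; omega))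
      exact hnop x z hxt hl (chartS_inner_uc CC H hx (by omega) (by omega)) hzx honly
    rcases h3 with h3 | h3
    · right; left
      exact ⟨thY_F CC H hx h3, Or.inl (fold_prof CC hx h3)⟩
    · left
      rcases thY_eq CC H hl with h4 | h4
      · omega
      · rw [h4, h3]
        norm_num
  · intro x x' z hne hxt hxt' hl hl' hzx hzx' hz
    have hx := hmem x hxt hl
    have hx' := hmem x' hxt' hl'
    have h44 : ∀ y ∈ Nc, lev y = 8 → thY Nc co y = 0 → co y = (4, 4) := by
      intro y hy hyl h0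
      obtain ⟨h1, h2⟩ := hcl y hy hyl
      rcases thY_eq CC H hyl with h4 | h4
      · omega
      · exact Prod.ext (by simp only; omega) (by simp only; omega)
    by_cases h0 : thY Nc co x = 0
    · right; right; right
      exact stair_own h R hu hx hx' hl hl' hne hzx hzx' hz (h44 x hx hl h0)
    by_cases h0' : thY Nc co x' = 0
    · right; right; right
      exact stair_own h R hu hx' hx hl' hl (Ne.symm hne) hzx' hzx hz (h44 x' hx' hl' h0')
    right; left
    refine ⟨by omega, by omega, ?_⟩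
    have h7 : lo 7 < hi 7 := by
      obtain ⟨s, s1, s2, hs⟩ := C.surj x hxt hl.le
      obtain ⟨s', s1', s2', hs'⟩ := C.surj x' hxt' hl'.le
      rw [hl] at s1 s2 hs
      rw [hl'] at s1' s2' hs'
      have hss : s ≠ s' := fun hh => hne (by rw [← hs, ← hs', hh])
      have g1 := S.lo 7 (by norm_num)
      have g2 := C.lo_step 7 (by norm_num)
      norm_num at g1 g2
      omega
    exact nab7_two C h7 hne hxt hxt' hl hl' hzx.1.le hzx'.1.le
  · intro x hxt hl h0 _
    have hx := hmem x hxt hl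
    obtain ⟨h1, h2⟩ := hcl x hx hl
    left
    refine fold_prof CC hx ?_
    rcases thY_eq CC H hl with h4 | h4
    · omega
    · exact Prod.ext (by simp only; omega) (by simp only; omega)
  · intro N HN hlow hN θ' B' hθ hB
    exact stair_data h R HN hlow hN hθ hB
  · exact fun h => absurd h (by norm_num)

lemma late8_words : ∀ w ∈ lateW 4, w.length = 4 → w = w8 ∨ w = w7.take 4 := by decide +kernel

/-- the flip word has three elements of level 6 -/
lemma rows_w8 (D : WordD 8 4 w8 lo hi) (C : Cp.Comp 8 (t : P) lo hi e) :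
    lo 4 = 0 ∧ hi 4 = 1 ∧ lo 8 = 1 ∧ hi 8 = 4 := by
  obtain ⟨r1, r2⟩ := D.rows C
  obtain ⟨e1, e2, e3, e4, e5, e6⟩ := W8_rows8
  exact ⟨by rw [r1 4 (by norm_num), e5], by rw [r2 4 (by norm_num), e6],
    by rw [r1 8 le_rfl, e1], by rw [r2 8 le_rfl, e2]⟩

/-- the data of a component together with the two special cases -/
def TDx (t : Tops P) (lo hi : ℕ → ℕ) (e : ℕ → ℕ → P) : Prop :=
  ∃ (w : ℕ) (Y : Finset P) (θ : P → ℕ) (B : P → Prop), TD t (hi 4 - lo 4 + 1) w Y θ B ∧
    (WordD 8 4 w8 lo hi → w = 1) ∧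
    (StairShape 8 lo hi → lo 8 = 0 → ∀ z, z ⋖ e 8 4 → z ⋖ e 8 0 →
      z ∉ Y ∧ IsCx t (hi 4 - lo 4 + 1) θ z)

/-- **the data of a component.** -/
theorem exists_td (h : Win.GoodTo P r 8) (C : Cp.Comp 8 (t : P) lo hi e)
    (S : Wd.Shape 8 lo hi) : TDx t lo hi e := by
  have hw8 : ∀ k, k < 4 → lo k < hi k → ¬ WordD 8 4 w8 lo hi := by
    intro k hk hlt D
    have := D.trunk k hk
    omega
  rcases S with h1 | ⟨h1, h2⟩ | ⟨h0, h2⟩ | ⟨h0, h1, h2⟩ | ⟨h0, h1⟩ | ⟨a, h0, h1, h2, h3, hN, h4⟩
  · -- light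
    have e4 := h1 4 (by norm_num)
    refine ⟨0, ∅, fun x => lev x - 4, fun _ => False, ?_, ?_, ?_⟩
    · rw [e4.1, e4.2]
      exact tdLight h C
    · intro D
      have := D.row
      omega
    · intro S _ _ _ _
      have := S.hi 8 le_rfl
      have := h1 8 le_rfl
      omega
  · -- rectangle
    obtain ⟨θ, B, T⟩ := tdRect h C h1 h2
    refine ⟨0, ∅, θ, B, T, fun D => (hw8 1 (by norm_num) (by omega) D).elim, fun S => ?_⟩
    have := S.hi 1 (by norm_num)
    omega
  · -- stair
    obtain ⟨Y, θ, B, T, hx⟩ := tdStair h C h2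
    refine ⟨0, Y, θ, B, T, fun D => ?_, fun _ => hx⟩
    have e1 := h2.hi 2 (by norm_num)
    have e2 := D.trunk 2 (by norm_num)
    omega
  · omega
  · omega
  · -- late
    have hns : StairShape 8 lo hi → False := by
      intro S
      have e1 := S.hi 2 (by norm_num)
      have e2 := h2 2 (by omega)
      omega
    have D : LateD 8 a lo hi := ⟨h0, h1, h2, h3, h4⟩
    rcases Nat.lt_or_ge a 5 with ha | ha
    · obtain rfl | rfl : a = 3 ∨ a = 4 := by omega
      · obtain ⟨W, -⟩ := wordD_three D (by norm_num)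
        obtain ⟨θ, B, T⟩ := tdE6 h C W
        exact ⟨0, ∅, θ, B, T, fun D' => (hw8 3 (by norm_num) (by omega) D').elim,
          fun S => (hns S).elim⟩
      · rcases h4 with ⟨g1, g2⟩ | g2
        · have hq := D.quad C g2
          have Q : QRows 8 4 lo hi := ⟨h2, h3, by
            intro k hk hk2
            have := hq (k - 4) (by omega) (by omega)
            rwa [show 4 + (k - 4) = k by omega] at this⟩
          obtain ⟨θ, B, T⟩ := tdQuad h C Q
          refine ⟨0, ∅, θ, B, T, fun D' => ?_, fun S => (hns S).elim⟩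
          have e1 := (rows_w8 D' C)
          have e2 := Q.aft 8 (by norm_num) le_rfl
          omega
        · have hl : (word lo hi 4 (8 - 4)).length = 4 := by rw [word_length]
          rcases late8_words _ g2 hl with g3 | g3
          · have W : WordD 8 4 w8 lo hi := ⟨h2, h3, by rw [g3]; rfl⟩
            obtain ⟨Y, θ, B, T⟩ := tdW8 h C W
            exact ⟨1, Y, θ, B, T, fun _ => rfl, fun S => (hns S).elim⟩
          · have W : WordD 8 4 w7 lo hi := ⟨h2, h3, g3⟩
            obtain ⟨Y, θ, B, T⟩ := tdE7 h C W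
            refine ⟨0, Y, θ, B, T, fun D' => ?_, fun S => (hns S).elim⟩
            have e1 := rows_w8 D' C
            obtain ⟨r1, -⟩ := W.rows C
            have e2 := r1 8 le_rfl
            rw [E7_rows8.1] at e2
            omega
    · have e4 := h2 4 (by omega)
      refine ⟨0, ∅, fun x => lev x - 4, fun _ => False, ?_, ?_, fun S => (hns S).elim⟩
      · rw [e4.1, e4.2]
        exact tdLight h C
      · intro D'
        have := D'.row
        omega

end Pool.Agent.GaussPoset.J8
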