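import Pool.Agent.W_448j8_h67.JaM

/-!
Level 8, window 4: the costs of the boundary elements (MP_448cb3_co).
-/

namespace Pool.Agent.GaussPoset.J8

set_option linter.unusedSectionVars false

open Polynomial Finset Dd Wd Cl

universe u

variable {P : Type u} [Fintype P] [PartialOrder P] [DecidableEq P] {r : ℕ}

/-- the labels -/
noncomputable def h8 (Y : Tops P → Finset P) (θ : Tops P → P → ℕ) : P → ℕ :=
  hcan (unnat (N8 Y)) (th8 θ)

/-- the boundary elements -/
inductive Kd (lo hi : Tops P → ℕ → ℕ) (θ : Tops P → P → ℕ) (h : P → ℕ) (z : P) : Prop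
  | far (hc : 13 ≤ cst 4 h z)
  | five (hh : h z = 1) (hc : cst 4 h z = 5) (h4 : nab 4 z = 2) (h5 : nab 5 z = 1)
  | seven (hh : h z = 1) (hc : cst 4 h z = 7) (h4 : nab 4 z = 3) (h5 : nab 5 z = 2)
  | late (hh : h z = 2) (hc : cst 4 h z = 12) (h4 : nab 4 z = 2) (h6 : nab 6 z = 2)
  | cross (hh : h z = 1) (hc : cst 4 h z = 12) (h4 : nab 4 z = 4) (h5 : nab 5 z = 3)
  | cx (t : Tops P) (hh : h z = 1) (hx : IsCx t (b8 lo hi t) (θ t) z)

section

variable {lo hi : Tops P → ℕ → ℕ} {e : Tops P → ℕ → ℕ → P} {w : Tops P → ℕ}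
  {Y : Tops P → Finset P} {θ : Tops P → P → ℕ} {B : Tops P → P → Prop}

lemma cst_two {h : P → ℕ} {z : P} (hl : lev z = 9) (hh : 2 ≤ h z) :
    nab 5 z + 2 * nab 6 z + 2 * nab 7 z + 2 * nab 8 z + 2 ≤ cst 4 h z := by
  rw [cst9 hl]
  have e1 : min (h z) 1 = 1 := by omega
  have e2 : min (h z) 2 = 2 := by omega
  have e3 : 2 ≤ min (h z) 3 := by omega
  have e4 : 2 ≤ min (h z) 4 := by omega
  have e5 : 2 ≤ min (h z) 5 := by omega
  have f3 := Nat.mul_le_mul_right (nab 7 z) e3
  have f4 := Nat.mul_le_mul_right (nab 8 z) e4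
  rw [e1, e2]
  omega

lemma cst_four {h : P → ℕ} {z : P} (hl : lev z = 9) (hh : 4 ≤ h z) : 13 ≤ cst 4 h z := by
  rw [cst9 hl]
  have e1 : min (h z) 1 = 1 := by omega
  have e2 : min (h z) 2 = 2 := by omega
  have e3 : min (h z) 3 = 3 := by omega
  have e4 : min (h z) 4 = 4 := by omega
  have e5 : 4 ≤ min (h z) 5 := by omega
  have n5 := one_le_nab (z := z) (l := 5) (by omega)
  have n6 := one_le_nab (z := z) (l := 6) (by omega)
  have n7 := one_le_nab (z := z) (l := 7) (by omega)
  have n8 := one_le_nab (z := z) (l := 8) (by omega)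
  rw [e1, e2, e3, e4]
  omega

lemma cst_one {h : P → ℕ} {z : P} (hl : lev z = 9) (hh : h z = 1) :
    cst 4 h z = nab 5 z + nab 6 z + nab 7 z + nab 8 z + 1 := by
  rw [cst9 hl, hh]
  norm_num

lemma C8.top_of (W : C8 P r lo hi e w Y θ B) {t : Tops P} {x : P} (hx : x ≤ (t : P))
    (hl : lev x ≤ 8) : topOf x = t :=
  W.sys.topOf_eq (low8 Y t (mem_lowPart.mpr ⟨hx, hl⟩))

/-- the label is at most one more than the threshold of each cover -/
lemma C8.h_le (W : C8 P r lo hi e w Y θ B) {t : Tops P} {z x : P} (hzx : z ⋖ x)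
    (hx : x ≤ (t : P)) (hl : lev x ≤ 8) : h8 Y θ z ≤ θ t x + 1 := by
  have h1 := hcan_le (θ := th8 θ) (W.nat8 hl) hzx
  unfold th8 at h1
  rw [W.top_of hx hl] at h1
  exact h1

/-- **The costs of the boundary elements.** -/
theorem C8.kind (W : C8 P r lo hi e w Y θ B) {z : P} (hz : z ∈ bdR (unnat (N8 Y))) :
    Kd lo hi θ (h8 Y θ) z := by
  classical
  have H := W.K.gt.H
  have HN := W.sys
  obtain ⟨x, hx, hzx, hh⟩ := hcan_spec (θ := th8 θ) hz
  have hh' : h8 Y θ z = θ (topOf x) x + 1 := hh
  have hzR := (mem_filter.mp hz).1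
  have hz9 := W.lev9 hzR
  have hzl := (H.covBy_iff.mp hzx).2
  rcases W.nat_cases hx with h1 | h1
  · -- level 9
    have hlz : lev z = 9 := by omega
    have hlx : lev x = 8 := by omega
    have n5 := one_le_nab (z := z) (l := 5) (by omega)
    have n6 := one_le_nab (z := z) (l := 6) (by omega)
    have n7 := one_le_nab (z := z) (l := 7) (by omega)
    by_cases hp : ∀ y, z ⋖ y → y = x
    · -- pendants
      have hn : ∀ k, k ≤ 8 → nab k z = nab k x := fun k hk =>
        nab_pend (⟨hzx, hp⟩ : Pend z x) (by omega)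
      have n8 : nab 8 z = 1 := by
        rw [hn 8 le_rfl]
        have := nab_self (z := x)
        rwa [hlx] at this
      rcases (W.td (topOf x)).pend x z (le_topOf x) hlx hzx hp with h2 | ⟨h2, h3⟩ | ⟨h2, h3⟩
      · exact Kd.far (cst_four hlz (by omega))
      · have hh1 : h8 Y θ z = 1 := by rw [hh', h2]
        have hc := cst_one hlz hh1
        rcases h3 with ⟨g4, g5, g6, g7⟩ | ⟨g4, g5, g6, g7⟩
        · rw [← hn _ (by norm_num)] at g4 g5 g6 g7
          exact Kd.seven hh1 (by omega) g4 g5
        · rw [← hn _ (by norm_num)] at g4 g5 g6 g7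
          exact Kd.five hh1 (by omega) g4 g5
      · have hh2 : h8 Y θ z = 2 := by rw [hh', h2]
        rcases h3 with ⟨g4, g5, g6, g7⟩ | ⟨g6, g7⟩
        · rw [← hn _ (by norm_num)] at g4 g5 g6 g7
          refine Kd.late hh2 ?_ g4 g6
          rw [cst9 hlz, hh2, g5, g6, g7, n8]
          norm_num
        · rw [← hn _ (by norm_num)] at g6 g7
          have := cst_two hlz hh2.ge
          exact Kd.far (by omega)
    push Not at hp
    obtain ⟨y, hzy, hyx⟩ := hp
    have hly := (H.covBy_iff.mp hzy).2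
    have hly8 : lev y = 8 := by omega
    have n8 : 2 ≤ nab 8 z := two_le_nab hzx.1.le hzy.1.le hlx hly8 (Ne.symm hyx)
    by_cases ht : topOf x = topOf y
    · -- own elements
      have hyt : y ≤ (topOf x : P) := by rw [ht]; exact le_topOf y
      have hzY : z ∉ Y (topOf x) := fun h => mem_unnat.mp hzR (topOf x) (by
        unfold N8
        rw [mem_union]
        exact Or.inr h)
      rcases (W.td (topOf x)).own x y z (Ne.symm hyx) (le_topOf x) hyt hlx hly8 hzx hzy hzY
        with h2 | ⟨h2, h3, h4⟩ | h2 | h2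
      · exact Kd.far (cst_four hlz (by omega))
      · have := cst_two hlz (h := h8 Y θ) (z := z) (by omega)
        exact Kd.far (by omega)
      · have g5 := h2 5 le_rfl (by norm_num)
        have g6 := h2 6 (by norm_num) (by norm_num)
        have g7 := h2 7 (by norm_num) (by norm_num)
        rcases Nat.lt_or_ge (h8 Y θ z) 2 with h3 | h3
        · have hh1 : h8 Y θ z = 1 := by omega
          have := cst_one hlz hh1
          exact Kd.far (by omega)
        · have := cst_two hlz h3
          exact Kd.far (by omega)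
      · refine Kd.cx (topOf x) ?_ h2
        obtain ⟨Nc, co, F, S, C, hb, hF⟩ := h2
        have h3 := W.h_le C.zF (C.chart.le_t F C.F_mem) C.lev_F.le
        omega
    · -- joins
      have hon : ∀ v : P, lev v = 8 → v ∈ onlyB (topOf v) := fun v hv =>
        only_low W.K.gt v (le_topOf v) hv.le
      have hcg : Sm.Cg z x y := Sm.Cg.mk' hzx hzy (hon x hlx) (hon y hly8) ht
      have hs : ∀ k, k < 9 → nab k z = nab k x + nab k y := fun k hk =>
        hcg.sum H (by omega)
      obtain ⟨⟨a6, b6, a7, b7⟩, hside⟩ := sides8 W.K hcg hlz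
      obtain ⟨u1, u2⟩ := W.K.ends hcg hlz
      have s4 := hs 4 (by norm_num)
      have s5 := hs 5 (by norm_num)
      have s6 := hs 6 (by norm_num)
      have s7 := hs 7 (by norm_num)
      have o5 := one_le_nab (z := x) (l := 5) (by omega)
      have o5' := one_le_nab (z := y) (l := 5) (by omega)
      rcases Nat.lt_or_ge (h8 Y θ z) 2 with h3 | h3
      swap
      · have := cst_two hlz h3
        exact Kd.far (by omega)
      have hh1 : h8 Y θ z = 1 := by omega
      have hx0 : θ (topOf x) x = 0 := by omega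
      have hc := cst_one hlz hh1
      have n8' : nab 8 z = 2 := by
        rw [hs 8 (by norm_num)]
        have e1 := nab_self (z := x)
        have e2 := nab_self (z := y)
        rw [hlx] at e1
        rw [hly8] at e2
        omega
      rcases hside with ⟨g1, g2⟩ | ⟨g1, g2, g3⟩ | ⟨g1, g2, g3⟩
      · exact Kd.far (by omega)
      · -- `x` is the small side: impossible
        exfalso
        rcases (W.td (topOf x)).ends x (le_topOf x) hlx hx0 u1 with h5 | h5
        · have := h5.1; omega
        · have := h5.1; omega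
      · rcases (W.td (topOf x)).ends x (le_topOf x) hlx hx0 u1 with ⟨g4, g5, g6, g7⟩ | h5
        · exact Kd.cross hh1 (by omega) (by omega) (by omega)
        · have := h5.2.2.1
          omega
  · -- level 10
    have hx9 := (W.td (topOf x)).Ylev x h1
    have hth := (W.td (topOf x)).Yth x h1
    have htw := (W.td (topOf x)).Ytwo x h1
    have hh2 : h8 Y θ z = 2 := by rw [hh', hth]
    refine Kd.far ?_
    have h2 := cst_ge (i := 4) (h := h8 Y θ) (z := z) (fun k => if k = 8 then 2 else 1)
      (fun k _ hk => by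
        show (if k = 8 then 2 else 1) ≤ nab k z
        split_ifs with h3
        · rw [h3]; exact htw.trans (nab_mono hzx.1.le)
        · exact one_le_nab hk)
    rw [hh2, hzl, hx9] at h2
    refine le_trans ?_ h2
    decide

end

end Pool.Agent.GaussPoset.J8
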