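import Pool.Agent.W_448j8_h67.JaP

/-!
Level 8, window 4: no flip word, no (C), no join with a fold end (MP_448cb3_co).
-/

namespace Pool.Agent.GaussPoset.J8

set_option linter.unusedSectionVars false

open Polynomial Finset Dd Wd Cl

universe u

variable {P : Type u} [Fintype P] [PartialOrder P] [DecidableEq P] {r : ℕ}

section

variable {lo hi : Tops P → ℕ → ℕ} {e : Tops P → ℕ → ℕ → P} {w : Tops P → ℕ}
  {Y : Tops P → Finset P} {θ : Tops P → P → ℕ} {B : Tops P → P → Prop}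

/-- the (C) elements -/
noncomputable def CX (lo hi : Tops P → ℕ → ℕ) (Y : Tops P → Finset P)
    (θ : Tops P → P → ℕ) : Finset P := by
  classical exact (bdR (unnat (N8 Y))).filter (fun z => h8 Y θ z = 1 ∧
    ∃ t, IsCx t (b8 lo hi t) (θ t) z)

lemma mem_CX {z : P} : z ∈ CX lo hi Y θ ↔ z ∈ bdR (unnat (N8 Y)) ∧ h8 Y θ z = 1 ∧
    ∃ t, IsCx t (b8 lo hi t) (θ t) z := by
  classical
  unfold CX
  rw [mem_filter]

/-- **The energy 12.** -/
theorem C8.twelve (W : C8 P r lo hi e w Y θ B) (hne : Nonempty (Tops P)) :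
    (∀ t, w t = 0) ∧ (∀ z ∈ bdR (unnat (N8 Y)), 13 ≤ cst 4 (h8 Y θ) z ∨
      (h8 Y θ z = 2 ∧ cst 4 (h8 Y θ) z = 12)) := by
  classical
  have H := W.K.gt.H
  have hgr := H.gradedBelow
  have L := W.lad
  set R := unnat (N8 Y) with hR
  set h := h8 Y θ with hhe
  set Fam : Finset (Finset P) := (CX lo hi Y θ).image (fam R) with hFam
  have hFm : ∀ A ∈ Fam, ∃ z ∈ CX lo hi Y θ, A = fam R z := by
    intro A hA
    rw [hFam, mem_image] at hA
    obtain ⟨z, h1, h2⟩ := hA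
    exact ⟨z, h1, h2.symm⟩
  have hcx : ∀ z ∈ CX lo hi Y θ, fam R z ∈ Fam := fun z hz => mem_image_of_mem _ hz
  have hmem : ∀ z ∈ CX lo hi Y θ, ∀ y ∈ fam R z, y ∈ CX lo hi Y θ := by
    intro z hz y hy
    obtain ⟨h1, h2, t, h3⟩ := mem_CX.mp hz
    obtain ⟨h4, h5⟩ := W.fam_cx h3 hy
    exact mem_CX.mpr ⟨(mem_fam.mp hy).1, h4, t, h5⟩
  have hplus := L.plus0 (n := 12) le_rfl Fam
    (by
      intro A hA z hz
      obtain ⟨y, -, rfl⟩ := hFm A hA
      exact (mem_fam.mp hz).1)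
    (by
      intro z hz hno
      show 12 ≤ cst 4 (h8 Y θ) z
      rcases W.kind' hz with h1 | ⟨-, h1, -⟩ | ⟨-, h1, -⟩ | ⟨h1, h2, t, h3⟩
      · omega
      · omega
      · omega
      · exfalso
        have h4 : z ∈ CX lo hi Y θ := mem_CX.mpr ⟨hz, h1, t, h3⟩
        exact hno _ (hcx z h4) (fam_self hz))
    (by
      intro A hA z hz z' hz' hne'
      obtain ⟨y, hy, rfl⟩ := hFm A hA
      obtain ⟨-, h1, t, h2⟩ := mem_CX.mp hy
      obtain ⟨h3, h4⟩ := W.fam_cx h2 hz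
      refine W.pair h3 h4 hz' ?_
      rwa [← fam_eq hz (fam_self (mem_fam.mp hz).1)])
    (by
      intro A hA A' hA' hne' z hz hz'
      obtain ⟨y, -, rfl⟩ := hFm A hA
      obtain ⟨y', -, rfl⟩ := hFm A' hA'
      exact hne' (fam_eq hz hz'))
  rw [W.sum_b] at hplus
  -- the values
  have v0 : Lv (lv P 4).card (Z P 4 12) 0 := Lv.zero (dvd_Z H.gauss 4 12)
  have v1 : Lv (lv P 4).card (Z {x : P // x ∉ R} 4 12) ((∑ t, (w t : ℤ)) * (-1) ^ below P 4) := by
    refine L.nat_lv (by norm_num) (fun t => (W.td t).b_one) hne W.sum_b (fun t => (w t : ℤ)) ?_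
    intro t
    have hw := (W.td t).w_le
    rcases (show w t = 0 ∨ w t = 1 by omega) with h1 | h1
    · left
      refine ⟨by rw [h1]; rfl, ?_⟩
      have hD := W.data t
      exact hD.clean R ⟨L.low, Subset.refl R, L.lev, L.base⟩ inferInstance 12 (by omega)
    · right
      intro f hf
      rw [h1]
      exact (W.td t).full h1 (N8 Y) W.sys rfl f hf
  have v2 : ∀ A ∈ Fam, Lv (lv P 4).card (ZF 4 h A 12) ((A.card : ℤ) * (-1) ^ below P 4) := by
    intro A hA
    obtain ⟨z, hz, rfl⟩ := hFm A hA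
    obtain ⟨h1, h2, t, h3⟩ := mem_CX.mp hz
    obtain ⟨Nc, co, F, S, C, hb, hF⟩ := h3
    have key := fam_poleT C (g := 2) (u := 0) (b := b8 lo hi) H W.sys (fun x hx => W.lev9 hx)
      (fun n hn => dvd_restL L W.sys t (by omega)) rfl (by norm_num) (by norm_num) (by norm_num)
      hb (h := h) (A := fam R z) (fam_self h1) (fun y hy => (mem_fam.mp hy).2)
      (fun y hy => (W.fam_cx ⟨Nc, co, F, S, C, hb, hF⟩ hy).1)
    have k2 := key.2
    have e1 : E0 4 + hh 4 ^ 2 = 12 := by decide +kernel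
    rw [e1, W.sum_b] at k2
    refine Lv.congr k2 ?_
    have e2 : ((fam R z).card : ℤ) * (-1) ^ below P 4 =
        ∑ _y ∈ fam R z, (-1 : ℤ) ^ (below P 4 + (0 + 1) * 2) := by
      rw [Finset.sum_const, nsmul_eq_mul, pow_add]
      norm_num
    rw [e2]
    exact Lv.sum _ fun y _ => Lv.mono _ _
  set T := (bdR R).filter (fun z => (∀ A ∈ Fam, z ∉ A) ∧ cst 4 (hcan R (th8 θ)) z = 12) with hT
  have v3 : ∀ z ∈ T, Lv (lv P 4).card (Lt 4 (hcan R (th8 θ)) z)
      ((if nab 4 z = 4 then 1 else 0 : ℤ) * (-1) ^ below P 4) := by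
    intro z hz
    rw [hT, mem_filter] at hz
    obtain ⟨hz1, -, hz3⟩ := hz
    have hz3' : cst 4 (h8 Y θ) z = 12 := hz3
    rcases W.kind' hz1 with h1 | ⟨h1, h2, h4, h6⟩ | ⟨h1, h2, h4, h5⟩ | ⟨-, h2, -⟩
    · omega
    · rw [if_neg (by omega), zero_mul]
      refine Lv.zero ?_
      unfold Lt
      have h1' : hcan R (th8 θ) z = 2 := h1
      rw [h1', h4, show nab (4 + 2) z = 2 from h6, Nat.add_sub_cancel]
      exact dvd_mul_left _ _
    · rw [if_pos h4, one_mul]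
      have h6 := (lt_one (b := 0) (h := hcan R (th8 θ)) (a := 3) h1 h4 h5).2
      rw [h6]
      have h7 := Lv.mono (lv P 4).card (below P 4 + (3 + 1))
      have h8 : (-1 : ℤ) ^ (below P 4 + (3 + 1)) = (-1) ^ below P 4 := by
        rw [pow_add]
        norm_num
      rwa [h8] at h7
    · omega
  have v4 := ((v0.add (Lv.zero (p := 0) (dvd_zero _))))
  have v5 := (v1.add ((Lv.sum Fam v2).add (Lv.sum T v3)))
  have v6 := Lv.congr hplus v5
  have hB : 1 ≤ (lv P 4).card := by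
    obtain ⟨t⟩ := hne
    rw [← W.sum_b]
    have h1 : b8 lo hi t ≤ ∑ t, b8 lo hi t :=
      Finset.single_le_sum (f := b8 lo hi) (fun _ _ => Nat.zero_le _) (mem_univ t)
    have h2 : 1 ≤ b8 lo hi t := (W.td t).b_one
    omega
  have v7 := v6.eq_zero hB (dvd_Z H.gauss 4 12)
  rw [← Finset.sum_mul, ← Finset.sum_mul, ← add_mul, ← add_mul] at v7
  have v8 := (mul_eq_zero.mp v7).resolve_right (pow_ne_zero _ (by norm_num))
  have n1 : 0 ≤ ∑ t, (w t : ℤ) := Finset.sum_nonneg fun t _ => by positivity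
  have n2 : 0 ≤ ∑ A ∈ Fam, (A.card : ℤ) := Finset.sum_nonneg fun t _ => by positivity
  have n3 : 0 ≤ ∑ z ∈ T, (if nab 4 z = 4 then 1 else 0 : ℤ) := Finset.sum_nonneg fun t _ => by
    split_ifs <;> norm_num
  have m1 : ∑ t, (w t : ℤ) = 0 := by omega
  have m2 : ∑ A ∈ Fam, (A.card : ℤ) = 0 := by omega
  have m3 : ∑ z ∈ T, (if nab 4 z = 4 then 1 else 0 : ℤ) = 0 := by omega
  refine ⟨?_, ?_⟩
  · intro t
    have := (Finset.sum_eq_zero_iff_of_nonneg (fun t _ => by positivity)).mp m1 t (mem_univ t)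
    exact_mod_cast this
  · intro z hz
    have hnoF : ∀ A ∈ Fam, z ∉ A := by
      intro A hA hzA
      have h1 := (Finset.sum_eq_zero_iff_of_nonneg (fun t _ => by positivity)).mp m2 A hA
      have h2 : 0 < A.card := Finset.card_pos.mpr ⟨z, hzA⟩
      have h3 : (A.card : ℤ) ≠ 0 := by exact_mod_cast h2.ne'
      exact h3 h1
    rcases W.kind' hz with h1 | ⟨h1, h2, -⟩ | ⟨h1, h2, h4, h5⟩ | ⟨h1, h2, t, h3⟩
    · exact Or.inl h1
    · exact Or.inr ⟨h1, h2⟩
    · exfalso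
      have h6 := (Finset.sum_eq_zero_iff_of_nonneg (fun t _ => by split_ifs <;> norm_num)).mp m3 z
        (by rw [hT, mem_filter]; exact ⟨hz, hnoF, h2⟩)
      rw [if_pos h4] at h6
      exact absurd h6 (by norm_num)
    · exfalso
      exact hnoF _ (hcx z (mem_CX.mpr ⟨hz, h1, t, h3⟩)) (fam_self hz)

end

end Pool.Agent.GaussPoset.J8
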